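import Pool.Agent.U81.SA.Frame

/-!
# Sums of a Fuchsian representation and trivial representations
-/

set_option autoImplicit false

open scoped MatrixGroups UpperHalfPlane Matrix Topology ComplexConjugate
open UpperHalfPlane Pool.Agent.Y473.SA

namespace Pool.Agent.U81.SA

variable {Γ : Subgroup SL(2, ℝ)} {p m d : ℕ} (e : (Fin 2 × Fin p) ⊕ Fin m ≃ Fin d)

/-- the matrix `X.1 ⊕ ... ⊕ X.1 ⊕ X.2 • 1` -/
def bm (X : Matrix (Fin 2) (Fin 2) ℂ × ℂ) : Matrix (Fin d) (Fin d) ℂ :=
  Matrix.reindex e e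
    (Matrix.fromBlocks (Matrix.blockDiagonal fun _ : Fin p => X.1) 0 0 (X.2 • (1 : Matrix (Fin m) (Fin m) ℂ)))

theorem bm_mul (X Y : Matrix (Fin 2) (Fin 2) ℂ × ℂ) : bm e (X * Y) = bm e X * bm e Y := by
  unfold bm
  rw [Matrix.reindex_apply, Matrix.reindex_apply, Matrix.reindex_apply, Matrix.submatrix_mul_equiv,
    Matrix.fromBlocks_multiply]
  simp only [Matrix.mul_zero, Matrix.zero_mul, add_zero, zero_add, ← Matrix.blockDiagonal_mul,
    Prod.fst_mul, Prod.snd_mul, Matrix.smul_mul, Matrix.one_mul, Matrix.mul_smul, smul_smul]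
  rw [smul_zero, mul_comm Y.2]

theorem bm_one : bm e 1 = 1 := by
  unfold bm
  rw [Prod.fst_one, Prod.snd_one, one_smul, Matrix.reindex_apply]
  have : Matrix.blockDiagonal (fun _ : Fin p => (1 : Matrix (Fin 2) (Fin 2) ℂ)) = 1 :=
    Matrix.blockDiagonal_one
  rw [this, Matrix.fromBlocks_one, Matrix.submatrix_one_equiv]

theorem bm_add (X Y : Matrix (Fin 2) (Fin 2) ℂ × ℂ) : bm e (X + Y) = bm e X + bm e Y := by
  unfold bm
  have : Matrix.blockDiagonal (fun _ : Fin p => (X + Y).1) =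
      Matrix.blockDiagonal (fun _ : Fin p => X.1) + Matrix.blockDiagonal (fun _ : Fin p => Y.1) := by
    rw [← Matrix.blockDiagonal_add]; rfl
  rw [this, Prod.snd_add, add_smul]
  rw [Matrix.reindex_apply, Matrix.reindex_apply, Matrix.reindex_apply]
  change _ = (Matrix.fromBlocks (Matrix.blockDiagonal fun _ : Fin p => X.1) 0 0
      (X.2 • (1 : Matrix (Fin m) (Fin m) ℂ)) +
    Matrix.fromBlocks (Matrix.blockDiagonal fun _ : Fin p => Y.1) 0 0
      (Y.2 • (1 : Matrix (Fin m) (Fin m) ℂ))).submatrix _ _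
  rw [Matrix.fromBlocks_add, add_zero, add_zero]

theorem bm_det (X : Matrix (Fin 2) (Fin 2) ℂ × ℂ) : (bm e X).det = X.1.det ^ p * X.2 ^ m := by
  unfold bm
  rw [Matrix.det_reindex_self, Matrix.det_fromBlocks_zero₂₁, Matrix.det_blockDiagonal,
    Matrix.det_smul, Matrix.det_one, mul_one, Finset.prod_const, Finset.card_univ, Fintype.card_fin,
    Fintype.card_fin]

theorem bm_inl (X : Matrix (Fin 2) (Fin 2) ℂ × ℂ) (v : Fin d → ℂ) (i : Fin 2) (k : Fin p) :
    (bm e X *ᵥ v) (e (Sum.inl (i, k))) = (X.1 *ᵥ fun j => v (e (Sum.inl (j, k)))) i := by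
  unfold bm
  rw [Matrix.mulVec, dotProduct, ← Equiv.sum_comp e, Fintype.sum_sum_type, Fintype.sum_prod_type,
    Matrix.mulVec, dotProduct]
  simp only [Matrix.reindex_apply, Matrix.submatrix_apply, Equiv.symm_apply_apply,
    Matrix.fromBlocks_apply₁₁, Matrix.fromBlocks_apply₁₂, Matrix.zero_apply, zero_mul,
    Finset.sum_const_zero, add_zero, Matrix.blockDiagonal_apply, ite_mul]
  refine Finset.sum_congr rfl fun j _ => ?_
  rw [Finset.sum_ite_eq]
  simp

theorem bm_inr (X : Matrix (Fin 2) (Fin 2) ℂ × ℂ) (v : Fin d → ℂ) (j : Fin m) :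
    (bm e X *ᵥ v) (e (Sum.inr j)) = X.2 * v (e (Sum.inr j)) := by
  unfold bm
  rw [Matrix.mulVec, dotProduct, ← Equiv.sum_comp e, Fintype.sum_sum_type]
  simp only [Matrix.reindex_apply, Matrix.submatrix_apply, Equiv.symm_apply_apply,
    Matrix.fromBlocks_apply₂₁, Matrix.fromBlocks_apply₂₂, Matrix.zero_apply, zero_mul,
    Finset.sum_const_zero, zero_add, Matrix.smul_apply, Matrix.one_apply, smul_eq_mul, mul_ite,
    mul_one, mul_zero, ite_mul]
  rw [Finset.sum_ite_eq]
  simp

theorem bm_trace (X : Matrix (Fin 2) (Fin 2) ℂ × ℂ) :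
    (bm e X).trace = p * X.1.trace + m * X.2 := by
  unfold bm
  rw [Matrix.trace, ← Equiv.sum_comp e, Fintype.sum_sum_type, Fintype.sum_prod_type]
  simp only [Matrix.diag_apply, Matrix.reindex_apply, Matrix.submatrix_apply, Equiv.symm_apply_apply,
    Matrix.fromBlocks_apply₁₁, Matrix.fromBlocks_apply₂₂, Matrix.blockDiagonal_apply, if_true,
    Matrix.smul_apply, Matrix.one_apply, smul_eq_mul, mul_one, Finset.sum_const, Finset.card_univ,
    Fintype.card_fin, nsmul_eq_mul, Matrix.trace, ← Finset.mul_sum]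

theorem ext_e {v w : Fin d → ℂ} (h1 : ∀ i k, v (e (Sum.inl (i, k))) = w (e (Sum.inl (i, k))))
    (h2 : ∀ j, v (e (Sum.inr j)) = w (e (Sum.inr j))) : v = w := by
  funext x
  obtain ⟨y, rfl⟩ := e.surjective x
  rcases y with ⟨i, k⟩ | j
  · exact h1 i k
  · exact h2 j

/-- the rank of an idempotent matrix is its trace -/
theorem rank_of_idem {n : ℕ} {A : Matrix (Fin n) (Fin n) ℂ} (hA : A * A = A) {k : ℕ}
    (ht : A.trace = k) : A.rank = k := by
  have h1 : IsIdempotentElem (Matrix.toLin' A) := by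
    unfold IsIdempotentElem
    change (Matrix.toLin' A).comp (Matrix.toLin' A) = _
    rw [← Matrix.toLin'_mul, hA]
  have h2 := (LinearMap.IsIdempotentElem.isProj_range _ h1).trace
  rw [Matrix.trace_toLin'_eq, ht] at h2
  have h3 : A.rank = Module.finrank ℂ (LinearMap.range (Matrix.toLin' A)) := rfl
  rw [h3]
  exact_mod_cast h2.symm

/-- the norm of the fibre -/
noncomputable def bn (z : ℍ) : Seminorm ℂ (Fin d → ℂ) :=
  Seminorm.of (fun v => ∑ k : Fin p, nz z (fun i => v (e (Sum.inl (i, k)))) +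
      ∑ j : Fin m, ‖v (e (Sum.inr j))‖)
    (fun v w => by
      have h1 : ∀ k : Fin p, nz z (fun i => (v + w) (e (Sum.inl (i, k)))) ≤
          nz z (fun i => v (e (Sum.inl (i, k)))) + nz z (fun i => w (e (Sum.inl (i, k)))) :=
        fun k => map_add_le_add (nz z) (fun i => v (e (Sum.inl (i, k))))
          (fun i => w (e (Sum.inl (i, k))))
      have h2 : ∀ j : Fin m, ‖(v + w) (e (Sum.inr j))‖ ≤
          ‖v (e (Sum.inr j))‖ + ‖w (e (Sum.inr j))‖ := fun j => norm_add_le _ _
      have h3 := Finset.sum_le_sum fun (k : Fin p) (_ : k ∈ Finset.univ) => h1 k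
      have h4 := Finset.sum_le_sum fun (k : Fin m) (_ : k ∈ Finset.univ) => h2 k
      rw [Finset.sum_add_distrib] at h3 h4
      linarith)
    (fun a v => by
      have h1 : ∀ k : Fin p, nz z (fun i => (a • v) (e (Sum.inl (i, k)))) =
          ‖a‖ * nz z (fun i => v (e (Sum.inl (i, k)))) :=
        fun k => map_smul_eq_mul (nz z) a (fun i => v (e (Sum.inl (i, k))))
      have h2 : ∀ j : Fin m, ‖(a • v) (e (Sum.inr j))‖ = ‖a‖ * ‖v (e (Sum.inr j))‖ :=
        fun j => norm_mul _ _
      simp only [h1, h2]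
      rw [← Finset.mul_sum, ← Finset.mul_sum, mul_add])

theorem bn_apply (z : ℍ) (v : Fin d → ℂ) :
    bn e z v = ∑ k : Fin p, nz z (fun i => v (e (Sum.inl (i, k)))) +
      ∑ j : Fin m, ‖v (e (Sum.inr j))‖ := rfl

theorem bn_eq_zero {z : ℍ} {v : Fin d → ℂ} (h : bn e z v = 0) : v = 0 := by
  rw [bn_apply] at h
  have p1 : ∀ k ∈ (Finset.univ : Finset (Fin p)), 0 ≤ nz z (fun i => v (e (Sum.inl (i, k)))) :=
    fun k _ => apply_nonneg _ _
  have p2 : ∀ j ∈ (Finset.univ : Finset (Fin m)), 0 ≤ ‖v (e (Sum.inr j))‖ :=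
    fun j _ => norm_nonneg _
  have q1 := Finset.sum_nonneg p1
  have q2 := Finset.sum_nonneg p2
  have e1 : ∑ k : Fin p, nz z (fun i => v (e (Sum.inl (i, k)))) = 0 := by linarith
  have e2 : ∑ j : Fin m, ‖v (e (Sum.inr j))‖ = 0 := by linarith
  rw [Finset.sum_eq_zero_iff_of_nonneg p1] at e1
  rw [Finset.sum_eq_zero_iff_of_nonneg p2] at e2
  refine ext_e e (fun i k => ?_) (fun j => ?_)
  · exact congrFun (nz_eq_zero (e1 k (Finset.mem_univ k))) i
  · exact norm_eq_zero.1 (e2 j (Finset.mem_univ j))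

theorem bn_smul (g : SL(2, ℝ)) (z : ℍ) (v : Fin d → ℂ) :
    bn e (g • z) (bm e (cm g, 1) *ᵥ v) = bn e z v := by
  rw [bn_apply, bn_apply]
  congr 1
  · refine Finset.sum_congr rfl fun k _ => ?_
    rw [← nz_smul g z]
    congr 1
    funext i
    exact bm_inl e _ v i k
  · refine Finset.sum_congr rfl fun j _ => ?_
    rw [bm_inr, one_mul]

theorem continuous_bn : Continuous (fun p : ℍ × (Fin d → ℂ) => bn e p.1 p.2) := by
  have h1 : ∀ k : Fin p, Continuous fun q : ℍ × (Fin d → ℂ) =>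
      nz q.1 (fun i => q.2 (e (Sum.inl (i, k)))) := by
    intro k
    have h : Continuous (fun q : ℍ × (Fin d → ℂ) =>
        ((q.1, fun i => q.2 (e (Sum.inl (i, k)))) : ℍ × (Fin 2 → ℂ))) :=
      continuous_fst.prodMk (continuous_pi fun i => (continuous_apply _).comp continuous_snd)
    exact Continuous.comp (g := fun p : ℍ × (Fin 2 → ℂ) => nz p.1 p.2) continuous_nz h
  have h2 : ∀ j : Fin m, Continuous fun q : ℍ × (Fin d → ℂ) => ‖q.2 (e (Sum.inr j))‖ :=
    fun j => ((continuous_apply (e (Sum.inr j))).comp continuous_snd).norm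
  exact (continuous_finsetSum _ fun k _ => h1 k).add (continuous_finsetSum _ fun j _ => h2 j)

/-- the sum of `p` copies of a Fuchsian representation and `m` trivial ones -/
noncomputable def fuchs (Γ : Subgroup SL(2, ℝ)) : Rep Γ d :=
  ⟨fun g => ⟨bm e (cm g, 1), by
    rw [bm_det, one_pow, mul_one]
    have : (cm g).det = 1 := by
      unfold cm
      rw [← RingHom.mapMatrix_apply, ← RingHom.map_det, Matrix.SpecialLinearGroup.det_coe, map_one]
    rw [this, one_pow]⟩, fun x y => by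
      apply Subtype.ext
      change bm e (cm _, 1) = bm e (cm _, 1) * bm e (cm _, 1)
      rw [← bm_mul, Prod.mk_mul_mk, mul_one, ← cm_mul]
      rfl⟩

theorem fuchs_apply (g : Γ) : ((fuchs e Γ).1 g).1 = bm e (cm g, 1) := rfl

theorem continuous_bm {X : UT → Matrix (Fin 2) (Fin 2) ℂ × ℂ} (hX : Continuous X) :
    Continuous fun c => bm e (X c) := by
  have h1 : Continuous (fun c => (X c).1) := continuous_fst.comp hX
  have h2 : Continuous (fun c => (X c).2) := continuous_snd.comp hX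
  have h3 : Continuous fun c => Matrix.fromBlocks (Matrix.blockDiagonal fun _ : Fin p => (X c).1) 0 0
      ((X c).2 • (1 : Matrix (Fin m) (Fin m) ℂ)) := by
    refine Continuous.matrix_fromBlocks ?_ continuous_const continuous_const
      (h2.smul continuous_const)
    exact Continuous.matrix_blockDiagonal (continuous_pi fun _ => h1)
  exact h3.matrix_submatrix _ _

theorem fuchs_simple : IsSimpleAnosov p (fuchs e Γ) := by
  refine ⟨fun c => bm e (pm c, 0), fun c => bn e (c.1 0), 1, 1 / 2, one_pos, by norm_num, ?_, ?_,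
    ?_, ?_, ?_, ?_, ?_, ?_⟩
  · exact (continuous_bm e (continuous_pm.prodMk continuous_const)).continuousOn
  · intro c _
    have h1 : bm e (pm c, 0) * bm e (pm c, 0) = bm e (pm c, 0) := by
      rw [← bm_mul, Prod.mk_mul_mk, mul_zero, pm_sq]
    refine ⟨h1, rank_of_idem h1 ?_⟩
    rw [bm_trace]
    simp [pm_trace]
  · intro c _ g
    rw [fuchs_apply, ← bm_mul, ← bm_mul, Prod.mk_mul_mk, Prod.mk_mul_mk, pm_act, zero_mul, mul_zero]
  · intro c _ t
    simp only [pm_flow]
  · have h : Continuous (fun q : UT × (Fin d → ℂ) => ((q.1.1 0, q.2) : ℍ × (Fin d → ℂ))) :=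
      ((continuous_eval 0).comp continuous_fst).prodMk continuous_snd
    exact ((continuous_bn e).comp h).continuousOn
  · intro c _ v hv
    exact bn_eq_zero e hv
  · intro c _ g v
    exact bn_smul e (g : SL(2, ℝ)) (c.1 0) v
  · intro c _ v w hv hw t ht
    have h0 : ∀ x : ℝ, x = x := fun _ => rfl
    have hc : (flow t c).1 0 = c.1 t := by rw [flow_apply, zero_add]
    simp only [hc]
    have hv1 : ∀ k : Fin p, pm c *ᵥ (fun i => v (e (Sum.inl (i, k)))) =
        fun i => v (e (Sum.inl (i, k))) := fun k => by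
      funext i
      rw [← bm_inl e (pm c, 0) v i k, hv]
    have hv2 : ∀ j : Fin m, v (e (Sum.inr j)) = 0 := fun j => by
      rw [← hv, bm_inr, zero_mul]
    have hw1 : ∀ k : Fin p, pm c *ᵥ (fun i => w (e (Sum.inl (i, k)))) = 0 := fun k => by
      funext i
      rw [← bm_inl e (pm c, 0) w i k, hw]
      rfl
    have e1 : bn e (c.1 t) v = Real.exp (t / 2) * bn e (c.1 0) v := by
      rw [bn_apply, bn_apply]
      simp only [hv2, norm_zero, Finset.sum_const_zero, add_zero]
      rw [Finset.mul_sum]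
      exact Finset.sum_congr rfl fun k _ => nz_unst c t (hv1 k)
    have e2 : bn e (c.1 t) w ≤ bn e (c.1 0) w := by
      rw [bn_apply, bn_apply]
      exact add_le_add_left (Finset.sum_le_sum fun k _ => nz_st c ht (hw1 k)) _
    rw [e1]
    have e3 : Real.exp (-(1 / 2) * t) * Real.exp (t / 2) = 1 := by
      rw [← Real.exp_add]
      have : -(1 / 2) * t + t / 2 = 0 := by ring
      rw [this, Real.exp_zero]
    calc bn e (c.1 t) w * bn e (c.1 0) v ≤ bn e (c.1 0) w * bn e (c.1 0) v :=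
          mul_le_mul_of_nonneg_right e2 (apply_nonneg _ _)
      _ = (Real.exp (-(1 / 2) * t) * Real.exp (t / 2)) * (bn e (c.1 0) w * bn e (c.1 0) v) := by
          rw [e3, one_mul]
      _ = _ := by ring

end Pool.Agent.U81.SA
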