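import Pool.Agent.U81.SA.Seq
import Pool.Agent.Y473.SA.Simple

/-!
# The Birman-Series set: invariance and cocompactness
-/

set_option autoImplicit false

open scoped MatrixGroups UpperHalfPlane Matrix
open UpperHalfPlane Pool.Agent.Y473.SA

namespace Pool.Agent.U81.SA

variable {Γ : Subgroup SL(2, ℝ)}

theorem continuous_eval (s : ℝ) : Continuous (fun c : UT => c.1 s) :=
  (continuous_apply s).comp continuous_subtype_val

theorem continuous_act (g : Γ) : Continuous (act g : UT → UT) := by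
  refine Continuous.subtype_mk (continuous_pi fun s => ?_) _
  exact (continuous_const_smul (g : SL(2, ℝ))).comp (continuous_eval s)

theorem continuous_flow (t : ℝ) : Continuous (flow t : UT → UT) := by
  refine Continuous.subtype_mk (continuous_pi fun s => ?_) _
  exact continuous_eval (s + t)

theorem act_mem {c : UT} (hc : c ∈ birmanSeries Γ) (h : Γ) : act h c ∈ birmanSeries Γ := by
  refine map_mem_closure (continuous_act h) hc ?_
  rintro c ⟨l, hl, ⟨g, hg⟩, h3⟩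
  refine ⟨l, hl, ⟨h * g * h⁻¹, ?_⟩, fun g' s t hst => ?_⟩
  · rw [act_act, inv_mul_cancel_right, ← act_act, hg, act_flow]
  · rw [act_apply, act_apply] at hst
    apply h3 (h⁻¹ * g' * h) s t
    rw [mul_smul, mul_smul, hst, inv_smul_smul]

theorem flow_mem {c : UT} (hc : c ∈ birmanSeries Γ) (τ : ℝ) : flow τ c ∈ birmanSeries Γ := by
  refine map_mem_closure (continuous_flow τ) hc ?_
  rintro c ⟨l, hl, ⟨g, hg⟩, h3⟩
  refine ⟨l, hl, ⟨g, ?_⟩, fun g' s t hst => ?_⟩
  · rw [act_flow, hg, flow_flow, flow_flow, add_comm]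
  · rw [flow_apply, flow_apply] at hst
    obtain ⟨n, hn⟩ := h3 g' _ _ hst
    exact ⟨n, by linarith⟩

theorem isCompact_ball (r : ℝ) : IsCompact {c : UT | dist I (c.1 0) ≤ r} := by
  rw [Subtype.isCompact_iff]
  have hK : IsCompact (Set.pi Set.univ (fun s : ℝ => Metric.closedBall (I : ℍ) (|s| + r))) :=
    isCompact_univ_pi fun s => isCompact_closedBall _ _
  have himg : (Subtype.val '' {c : UT | dist I (c.1 0) ≤ r}) =
      {f : ℝ → ℍ | Isometry f} ∩ {f : ℝ → ℍ | dist I (f 0) ≤ r} := by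
    ext f
    constructor
    · rintro ⟨c, hc, rfl⟩
      exact ⟨c.2, hc⟩
    · rintro ⟨h1, h2⟩
      exact ⟨⟨f, h1⟩, h2, rfl⟩
  rw [himg]
  have hcl : IsClosed ({f : ℝ → ℍ | Isometry f} ∩ {f : ℝ → ℍ | dist I (f 0) ≤ r}) := by
    refine IsClosed.inter ?_ ?_
    · have : {f : ℝ → ℍ | Isometry f} =
          ⋂ (s : ℝ) (t : ℝ), {f : ℝ → ℍ | dist (f s) (f t) = dist s t} := by
        ext f
        simp only [Set.mem_iInter]
        exact isometry_iff_dist_eq
      rw [this]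
      refine isClosed_iInter fun s => isClosed_iInter fun t => ?_
      exact isClosed_eq ((continuous_apply s).dist (continuous_apply t)) continuous_const
    · exact isClosed_le (continuous_const.dist (continuous_apply 0)) continuous_const
  refine hK.of_isClosed_subset hcl ?_
  rintro f ⟨h1, h2⟩ s _
  rw [Metric.mem_closedBall]
  have h3 : dist (f s) (f 0) = |s| := by rw [h1.dist_eq, Real.dist_eq, sub_zero]
  have := dist_triangle (f s) (f 0) I
  have h4 : dist (f 0) I ≤ r := by rw [dist_comm]; exact h2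
  linarith

/-- the compact part of the Birman-Series set -/
def cpt (Γ : Subgroup SL(2, ℝ)) (r : ℝ) : Set UT := birmanSeries Γ ∩ {c | dist I (c.1 0) ≤ r}

theorem isCompact_cpt (r : ℝ) : IsCompact (cpt Γ r) :=
  (isCompact_ball r).inter_left isClosed_closure

/-- uniform bounds for a continuous family of norms -/
theorem norm_bounds {d : ℕ} {N : UT → Seminorm ℂ (Fin d → ℂ)}
    (hNc : ContinuousOn (fun p : UT × (Fin d → ℂ) => N p.1 p.2) (birmanSeries Γ ×ˢ Set.univ))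
    (hN0 : ∀ c ∈ birmanSeries Γ, ∀ v, N c v = 0 → v = 0) (r : ℝ) :
    ∃ m₀ M₀ : ℝ, 0 < m₀ ∧ 0 ≤ M₀ ∧ ∀ c ∈ cpt Γ r, ∀ v, m₀ * ‖v‖ ≤ N c v ∧ N c v ≤ M₀ * ‖v‖ := by
  have hsph : IsCompact (Metric.sphere (0 : Fin d → ℂ) 1) := isCompact_sphere _ _
  have hK : IsCompact (cpt Γ r ×ˢ Metric.sphere (0 : Fin d → ℂ) 1) := (isCompact_cpt r).prod hsph
  have hc1 : ContinuousOn (fun p : UT × (Fin d → ℂ) => N p.1 p.2)
      (cpt Γ r ×ˢ Metric.sphere (0 : Fin d → ℂ) 1) :=
    hNc.mono fun p hp => ⟨hp.1.1, Set.mem_univ _⟩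
  have hpos : ∀ p ∈ cpt Γ r ×ˢ Metric.sphere (0 : Fin d → ℂ) 1, 0 < N p.1 p.2 := by
    intro p hp
    refine lt_of_le_of_ne (apply_nonneg _ _) fun h => ?_
    have h0 := hN0 p.1 hp.1.1 p.2 h.symm
    have h1 := hp.2
    rw [mem_sphere_zero_iff_norm, h0, norm_zero] at h1
    exact zero_ne_one h1
  have hc2 : ContinuousOn (fun p : UT × (Fin d → ℂ) => (N p.1 p.2)⁻¹)
      (cpt Γ r ×ˢ Metric.sphere (0 : Fin d → ℂ) 1) := hc1.inv₀ fun p hp => (hpos p hp).ne'
  obtain ⟨A, hA⟩ := (hK.image_of_continuousOn hc1).bddAbove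
  obtain ⟨D, hD⟩ := (hK.image_of_continuousOn hc2).bddAbove
  refine ⟨(|D| + 1)⁻¹, |A|, by positivity, abs_nonneg _, fun c hc v => ?_⟩
  rcases eq_or_ne v 0 with rfl | hv
  · simp
  · have hn : ‖v‖ ≠ 0 := norm_ne_zero_iff.2 hv
    have hn0 : 0 < ‖v‖ := norm_pos_iff.2 hv
    set u : Fin d → ℂ := ((‖v‖⁻¹ : ℝ) : ℂ) • v with hu
    have hus : u ∈ Metric.sphere (0 : Fin d → ℂ) 1 := by
      rw [mem_sphere_zero_iff_norm, hu, norm_smul, Complex.norm_real, Real.norm_of_nonneg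
        (inv_nonneg.2 hn0.le), inv_mul_cancel₀ hn]
    have hNu : N c u = ‖v‖⁻¹ * N c v := by
      rw [hu, map_smul_eq_mul, Complex.norm_real, Real.norm_of_nonneg (inv_nonneg.2 hn0.le)]
    have h1 := hA ⟨(c, u), ⟨hc, hus⟩, rfl⟩
    have h2 := hD ⟨(c, u), ⟨hc, hus⟩, rfl⟩
    have h3 := hpos (c, u) ⟨hc, hus⟩
    simp only at h1 h2 h3
    have hv2 : N c v = ‖v‖ * N c u := by rw [hNu]; field_simp
    constructor
    · have h4 : (|D| + 1)⁻¹ ≤ N c u := by
        rw [inv_le_comm₀ (by positivity) h3]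
        exact h2.trans ((le_abs_self D).trans (by linarith))
      rw [hv2, mul_comm]
      gcongr
    · rw [hv2, mul_comm]
      have := h1.trans (le_abs_self A)
      gcongr

/-- uniform bounds for the projections -/
theorem proj_bound {d : ℕ} {P : UT → Matrix (Fin d) (Fin d) ℂ}
    (hPc : ContinuousOn P (birmanSeries Γ)) (r : ℝ) :
    ∃ M₁ : ℝ, 0 ≤ M₁ ∧ ∀ c ∈ cpt Γ r, mn (P c) ≤ M₁ := by
  have h1 : ContinuousOn (fun c => mn (P c)) (cpt Γ r) :=
    continuous_mn.comp_continuousOn (hPc.mono fun c hc => hc.1)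
  obtain ⟨A, hA⟩ := ((isCompact_cpt r).image_of_continuousOn h1).bddAbove
  exact ⟨|A|, abs_nonneg _, fun c hc => (hA ⟨c, hc, rfl⟩).trans (le_abs_self A)⟩

end Pool.Agent.U81.SA
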