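import Pool.Agent.U81.SA.Blk

/-!
# Complete reducibility
-/

set_option autoImplicit false

open scoped MatrixGroups UpperHalfPlane Matrix Topology ComplexConjugate
open UpperHalfPlane Pool.Agent.Y473.SA

namespace Pool.Agent.U81.SA

variable {Γ : Subgroup SL(2, ℝ)}

/-- the algebra of all pairs of a matrix and a number -/
abbrev RR : Type := Matrix (Fin 2) (Fin 2) ℂ × ℂ

theorem cm_add_inv (g : SL(2, ℝ)) : cm g + cm g⁻¹ = ((tr g : ℝ) : ℂ) • (1 : Matrix (Fin 2) (Fin 2) ℂ) := by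
  obtain ⟨h1, h2, h3, h4⟩ := sl_inv_apply g
  rw [tr_eq]
  ext i j
  rw [Matrix.add_apply, cm_apply, cm_apply, Matrix.smul_apply]
  fin_cases i <;> fin_cases j <;> simp [h1, h2, h3, h4]
  ring

/-- the discriminant of a pair of matrices -/
def disc (a b c d e f g h : ℝ) : ℝ :=
  (b * g - c * f) ^ 2 - (f * (a - d) - b * (e - h)) * (g * (a - d) - c * (e - h))

theorem disc_eq (A B : SL(2, ℝ)) :
    disc (A 0 0) (A 0 1) (A 1 0) (A 1 1) (B 0 0) (B 0 1) (B 1 0) (B 1 1) =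
      tr (A * B * A⁻¹ * B⁻¹) - 2 := by
  obtain ⟨a1, a2, a3, a4⟩ := sl_inv_apply A
  obtain ⟨b1, b2, b3, b4⟩ := sl_inv_apply B
  have hA := sl_det A
  have hB := sl_det B
  rw [tr_eq]
  simp only [sl_mul_apply, a1, a2, a3, a4, b1, b2, b3, b4, disc]
  generalize A 0 0 = a at *
  generalize A 0 1 = b at *
  generalize A 1 0 = c at *
  generalize A 1 1 = d at *
  generalize B 0 0 = e at *
  generalize B 0 1 = f at *
  generalize B 1 0 = g at *
  generalize B 1 1 = h at *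
  linear_combination (-2 * (e * h - f * g)) * hA + (-2 : ℝ) * hB

theorem cramer (a b c d e f g h x y z w : ℂ) (e1 : x + w = 0)
    (e2 : a * x + b * y + c * z + d * w = 0) (e3 : e * x + f * y + g * z + h * w = 0)
    (e4 : (a * e + b * g) * x + (a * f + b * h) * y + (c * e + d * g) * z +
      (c * f + d * h) * w = 0)
    (hD : (b * g - c * f) ^ 2 - (f * (a - d) - b * (e - h)) * (g * (a - d) - c * (e - h)) ≠ 0) :
    x = 0 ∧ y = 0 ∧ z = 0 ∧ w = 0 := by
  have r2 : (a - d) * x + b * y + c * z = 0 := by linear_combination e2 - d * e1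
  have r3 : (e - h) * x + f * y + g * z = 0 := by linear_combination e3 - h * e1
  have r4 : (a * e + b * g - c * f - d * h) * x + (a * f + b * h) * y + (c * e + d * g) * z = 0 := by
    linear_combination e4 - (c * f + d * h) * e1
  have hx : x = 0 := by
    refine (mul_eq_zero.1 ?_).resolve_left hD
    linear_combination (f * (c * e + d * g) - g * (a * f + b * h)) * r2 -
      (b * (c * e + d * g) - c * (a * f + b * h)) * r3 + (b * g - c * f) * r4
  have hy : y = 0 := by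
    refine (mul_eq_zero.1 ?_).resolve_left hD
    linear_combination (-((e - h) * (c * e + d * g) - g * (a * e + b * g - c * f - d * h))) * r2 +
      ((a - d) * (c * e + d * g) - c * (a * e + b * g - c * f - d * h)) * r3 -
      ((a - d) * g - c * (e - h)) * r4
  have hz : z = 0 := by
    refine (mul_eq_zero.1 ?_).resolve_left hD
    linear_combination ((e - h) * (a * f + b * h) - f * (a * e + b * g - c * f - d * h)) * r2 -
      ((a - d) * (a * f + b * h) - b * (a * e + b * g - c * f - d * h)) * r3 +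
      ((a - d) * f - b * (e - h)) * r4
  refine ⟨hx, hy, hz, ?_⟩
  rw [hx, zero_add] at e1
  exact e1

theorem trace_ne_two (hΓ : IsClosedSurface Γ) {g : Γ} (hg : g ≠ 1) : tr (g : SL(2, ℝ)) ≠ 2 := by
  obtain ⟨ε, hε, h1, -⟩ := hΓ.trace_gap
  have h2 := h1 g hg
  have h3 : 1 < Real.cosh (ε / 2) := Real.one_lt_cosh.2 (by linarith)
  intro h
  rw [h] at h2
  norm_num at h2
  linarith

theorem burnside (hΓ : IsClosedSurface Γ) (S : Submodule ℂ (Matrix (Fin 2) (Fin 2) ℂ))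
    (hS : ∀ g : Γ, cm g ∈ S) : S = ⊤ := by
  by_contra hne
  obtain ⟨φ, hφ, hk⟩ := S.exists_le_ker_of_lt_top (lt_top_iff_ne_top.2 hne)
  apply hφ
  obtain ⟨A, B, hAB⟩ := hΓ.exists_not_comm
  have hlin : ∀ X : Matrix (Fin 2) (Fin 2) ℂ, φ X = X 0 0 * φ !![1, 0; 0, 0] +
      X 0 1 * φ !![0, 1; 0, 0] + X 1 0 * φ !![0, 0; 1, 0] + X 1 1 * φ !![0, 0; 0, 1] := by
    intro X
    have hX : X = X 0 0 • !![1, 0; 0, 0] + X 0 1 • !![0, 1; 0, 0] + X 1 0 • !![0, 0; 1, 0] +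
        X 1 1 • !![0, 0; 0, 1] := by
      ext i j
      fin_cases i <;> fin_cases j <;> simp
    conv_lhs => rw [hX]
    rw [φ.map_add, φ.map_add, φ.map_add, φ.map_smul, φ.map_smul, φ.map_smul, φ.map_smul]
    rfl
  have hz : ∀ g : Γ, φ (cm g) = 0 := fun g => hk (hS g)
  have k1 := hz 1
  have k2 := hz A
  have k3 := hz B
  have k4 := hz (A * B)
  rw [hlin] at k1 k2 k3 k4
  have hdisc := disc_eq A B
  have htr := trace_ne_two hΓ hAB
  have hne2 : tr ((A : SL(2, ℝ)) * B * (A : SL(2, ℝ))⁻¹ * (B : SL(2, ℝ))⁻¹) - 2 ≠ 0 := by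
    intro h0
    apply htr
    have : ((A * B * A⁻¹ * B⁻¹ : Γ) : SL(2, ℝ)) = (A : SL(2, ℝ)) * B * (A : SL(2, ℝ))⁻¹ *
      (B : SL(2, ℝ))⁻¹ := by push_cast; rfl
    rw [this]
    linarith
  rw [← hdisc, disc] at hne2
  simp only [cm_apply] at k1 k2 k3 k4
  have q : ((A * B : Γ) : SL(2, ℝ)) = (A : SL(2, ℝ)) * B := rfl
  rw [q] at k4
  simp only [sl_mul_apply, Complex.ofReal_add, Complex.ofReal_mul] at k4
  have k1' : φ !![1, 0; 0, 0] + φ !![0, 0; 0, 1] = 0 := by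
    have q1 : ((1 : Γ) : SL(2, ℝ)) = 1 := rfl
    rw [q1] at k1
    simpa using k1
  obtain ⟨h1, h2, h3, h4⟩ := cramer _ _ _ _ _ _ _ _ _ _ _ _ k1' k2 k3 k4 (by exact_mod_cast hne2)
  ext X
  rw [LinearMap.zero_apply, hlin, h1, h2, h3, h4]
  simp

theorem span_top (hΓ : IsClosedSurface Γ) (S : Submodule ℂ RR) (hS : ∀ g : Γ, ((cm g, 1) : RR) ∈ S) :
    S = ⊤ := by
  have h01 : ((0, 1) : RR) ∈ S := by
    obtain ⟨g, hg⟩ := hΓ.exists_ne_one
    have h2 := trace_ne_two hΓ hg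
    have h3 : ((0, 2 - ((tr (g : SL(2, ℝ)) : ℝ) : ℂ)) : RR) ∈ S := by
      have h4 := S.sub_mem (S.add_mem (hS g) (hS g⁻¹)) (S.smul_mem ((tr (g : SL(2, ℝ)) : ℝ) : ℂ) (hS 1))
      have h5 : ((cm g, 1) : RR) + (cm (g⁻¹ : Γ), 1) - ((tr (g : SL(2, ℝ)) : ℝ) : ℂ) • (cm (1 : Γ), 1) =
          (0, 2 - ((tr (g : SL(2, ℝ)) : ℝ) : ℂ)) := by
        apply Prod.ext
        · change cm g + cm (g : SL(2, ℝ))⁻¹ - ((tr (g : SL(2, ℝ)) : ℝ) : ℂ) • cm 1 = 0
          rw [cm_add_inv, cm_one, sub_self]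
        · change (1 : ℂ) + 1 - ((tr (g : SL(2, ℝ)) : ℝ) : ℂ) * 1 = 2 - _
          ring
      rwa [h5] at h4
    have h6 : (2 - ((tr (g : SL(2, ℝ)) : ℝ) : ℂ)) ≠ 0 := by
      intro h0
      apply h2
      have : ((tr (g : SL(2, ℝ)) : ℝ) : ℂ) = 2 := by linear_combination -h0
      exact_mod_cast this
    have h7 := S.smul_mem (2 - ((tr (g : SL(2, ℝ)) : ℝ) : ℂ))⁻¹ h3
    have h8 : (2 - ((tr (g : SL(2, ℝ)) : ℝ) : ℂ))⁻¹ • ((0, 2 - ((tr (g : SL(2, ℝ)) : ℝ) : ℂ)) : RR) =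
        (0, 1) := by
      apply Prod.ext
      · exact smul_zero _
      · exact inv_mul_cancel₀ h6
    rwa [h8] at h7
  have h10 : S.comap (LinearMap.inl ℂ (Matrix (Fin 2) (Fin 2) ℂ) ℂ) = ⊤ := by
    apply burnside hΓ
    intro g
    rw [Submodule.mem_comap]
    have h1 := S.sub_mem (hS g) h01
    have h2 : ((cm g, 1) : RR) - (0, 1) = LinearMap.inl ℂ (Matrix (Fin 2) (Fin 2) ℂ) ℂ (cm g) := by
      apply Prod.ext
      · exact sub_zero _
      · exact sub_self _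
    rwa [h2] at h1
  rw [eq_top_iff]
  rintro ⟨X, s⟩ -
  have h1 : X ∈ S.comap (LinearMap.inl ℂ (Matrix (Fin 2) (Fin 2) ℂ) ℂ) := by rw [h10]; trivial
  have h2 := S.add_mem (Submodule.mem_comap.1 h1) (S.smul_mem s h01)
  have h3 : LinearMap.inl ℂ (Matrix (Fin 2) (Fin 2) ℂ) ℂ X + s • ((0, 1) : RR) = (X, s) := by
    apply Prod.ext
    · change X + s • 0 = X
      rw [smul_zero, add_zero]
    · change 0 + s * 1 = s
      ring
  rwa [h3] at h2

end Pool.Agent.U81.SA
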