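import Pool.Agent.U81.SA.Cr

/-!
# Complete reducibility of the sums
-/

set_option autoImplicit false

open scoped MatrixGroups UpperHalfPlane Matrix Topology ComplexConjugate
open UpperHalfPlane Pool.Agent.Y473.SA

namespace Pool.Agent.U81.SA

variable {Γ : Subgroup SL(2, ℝ)} {p m d : ℕ} (e : (Fin 2 × Fin p) ⊕ Fin m ≃ Fin d)

theorem bm_zero : bm e 0 = 0 := by
  have h := bm_add e 0 0
  rw [add_zero] at h
  exact left_eq_add.1 h

theorem bm_smul (s : ℂ) (X : RR) : bm e (s • X) = s • bm e X := by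
  have h1 : bm e (s • (1 : RR)) = s • 1 := by
    apply Matrix.toLin'.injective
    apply LinearMap.ext
    intro v
    rw [Matrix.toLin'_apply, Matrix.toLin'_apply]
    refine ext_e e (fun i k => ?_) (fun j => ?_)
    · rw [bm_inl, Matrix.smul_mulVec, Matrix.one_mulVec]
      change ((s • (1 : Matrix (Fin 2) (Fin 2) ℂ)) *ᵥ _) i = _
      rw [Matrix.smul_mulVec, Matrix.one_mulVec]
      rfl
    · rw [bm_inr, Matrix.smul_mulVec, Matrix.one_mulVec]
      change (s * 1) * _ = s * _
      rw [mul_one]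
  have h2 : s • X = (s • (1 : RR)) * X := by rw [smul_mul_assoc, one_mul]
  rw [h2, bm_mul, h1, smul_mul_assoc, one_mul]

/-- the action of the algebra -/
noncomputable def bmHom : RR →+* Module.End ℂ (Fin d → ℂ) :=
  ((Matrix.toLinAlgEquiv' : Matrix (Fin d) (Fin d) ℂ ≃ₐ[ℂ] ((Fin d → ℂ) →ₗ[ℂ] (Fin d → ℂ))) :
      Matrix (Fin d) (Fin d) ℂ →+* Module.End ℂ (Fin d → ℂ)).comp
    { toFun := bm e
      map_one' := bm_one e
      map_mul' := bm_mul e
      map_zero' := bm_zero e
      map_add' := bm_add e }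

theorem fuchs_cr (hΓ : IsClosedSurface Γ) : IsCompletelyReducible (fuchs e Γ) := by
  intro W hW
  letI : Module RR (Fin d → ℂ) := Module.compHom (Fin d → ℂ) (bmHom e)
  have hsm : ∀ (X : RR) (v : Fin d → ℂ), X • v = bm e X *ᵥ v := fun _ _ => rfl
  have hinv : ∀ X : RR, ∀ w ∈ W, bm e X *ᵥ w ∈ W := by
    let S : Submodule ℂ RR :=
      { carrier := {X | ∀ w ∈ W, bm e X *ᵥ w ∈ W}
        add_mem' := fun {X Y} hX hY w hw => by
          rw [bm_add, Matrix.add_mulVec]
          exact W.add_mem (hX w hw) (hY w hw)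
        zero_mem' := fun w _ => by
          rw [bm_zero, Matrix.zero_mulVec]
          exact W.zero_mem
        smul_mem' := fun s X hX w hw => by
          rw [bm_smul, Matrix.smul_mulVec]
          exact W.smul_mem s (hX w hw) }
    have hS : S = ⊤ := span_top hΓ S fun g => hW g
    intro X
    have : X ∈ S := by rw [hS]; trivial
    exact this
  let WR : Submodule RR (Fin d → ℂ) :=
    { W.toAddSubmonoid with smul_mem' := fun X w hw => hinv X w hw }
  obtain ⟨WR', hc⟩ := exists_isCompl WR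
  have hc1 : ∀ (s : ℂ) (v : Fin d → ℂ), (s • (1 : RR)) • v = s • v := fun s v => by
    rw [hsm, bm_smul, bm_one, Matrix.smul_mulVec, Matrix.one_mulVec]
  let W' : Submodule ℂ (Fin d → ℂ) :=
    { WR'.toAddSubmonoid with
      smul_mem' := fun s w hw => by
        have := WR'.smul_mem (s • (1 : RR)) hw
        rwa [hc1] at this }
  refine ⟨W', fun g w hw => WR'.smul_mem ((cm g, 1) : RR) hw, ?_⟩
  refine ⟨?_, ?_⟩
  · rw [Submodule.disjoint_def]
    intro x hx hx'
    exact Submodule.disjoint_def.1 hc.1 x hx hx'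
  · rw [codisjoint_iff, eq_top_iff]
    intro x _
    have h1 : x ∈ WR ⊔ WR' := by rw [hc.sup_eq_top]; trivial
    obtain ⟨y, hy, z, hz, h⟩ := Submodule.mem_sup.1 h1
    exact Submodule.mem_sup.2 ⟨y, hy, z, hz, h⟩

end Pool.Agent.U81.SA
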