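import Pool.Agent.U81.SA.Fin

/-!
# Bounded lengths of the images of the simple elements
-/

set_option autoImplicit false

open scoped MatrixGroups UpperHalfPlane Matrix
open UpperHalfPlane Pool.Agent.Y473.SA

namespace Pool.Agent.U81.SA

variable {Γ : Subgroup SL(2, ℝ)}

theorem traces_bounded (hΓ : IsClosedSurface Γ) (Φ : Set (MulAut Γ))
    (h : ∀ g : Γ, IsSimpleElt g → ∃ B, ∀ φ ∈ Φ, |tr (φ g)| ≤ B) (g : Γ) :
    ∃ B, ∀ φ ∈ Φ, |tr (φ g)| ≤ B := by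
  by_contra hg
  have htr : ∀ x y : Γ, tr ((x * y * x⁻¹ : Γ) : SL(2, ℝ)) = tr y := by
    intro x y
    have := tr_conj ((x : SL(2, ℝ))⁻¹) (y : SL(2, ℝ))
    rw [inv_inv] at this
    exact this
  obtain ⟨x, hx, hxs⟩ := hΓ.descent {g : Γ | ¬ ∃ B, ∀ φ ∈ Φ, |tr (φ g)| ≤ B} (by
    rintro y hy x ⟨B, hB⟩
    apply hy
    refine ⟨B, fun φ hφ => ?_⟩
    have := hB φ hφ
    rwa [map_mul, map_mul, map_inv, htr] at this) (by
    simp only [Set.mem_setOf_eq, not_not]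
    refine ⟨|tr ((1 : Γ) : SL(2, ℝ))|, fun φ _ => ?_⟩
    rw [map_one]) ⟨g, hg⟩ (by
    intro b d hb hd hbd
    simp only [Set.mem_setOf_eq, not_not] at hb hd hbd ⊢
    obtain ⟨B1, h1⟩ := hb
    obtain ⟨B2, h2⟩ := hd
    obtain ⟨B3, h3⟩ := hbd
    refine ⟨B1 * B2 + B3, fun φ hφ => ?_⟩
    have e : tr ((φ (b * d) : Γ) : SL(2, ℝ)) = tr (φ b) * tr (φ d) - tr (φ (b * d⁻¹)) := by
      rw [map_mul, map_mul, map_inv]
      exact tr_identity _ _
    rw [e]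
    refine (abs_sub _ _).trans ?_
    rw [abs_mul]
    have := h1 φ hφ
    have := h2 φ hφ
    have := h3 φ hφ
    have : 0 ≤ B1 := (abs_nonneg _).trans (h1 φ hφ)
    gcongr)
  exact hx (h x hxs)

/-- the trace of an element which translates a line by `l` -/
theorem tr_of_axis {g : Γ} {c : UT} {l : ℝ} (h : act g c = flow l c) :
    |tr (g : SL(2, ℝ))| ≤ 2 * Real.exp (|l| / 2) := by
  obtain ⟨p, rfl⟩ := exists_geod c
  obtain ⟨lam, h1, h00, h11, h01, h10⟩ := diag_of_axis h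
  rw [← tr_conj p, tr_eq, h00, h11]
  have h2 : |lam| = Real.exp (l / 2) := by
    rw [← abs_of_pos (Real.exp_pos (l / 2))]
    apply (sq_eq_sq_iff_abs_eq_abs _ _).1
    rw [h1, ← Real.exp_nat_mul]
    congr 1
    push_cast; ring
  have h3 : |lam⁻¹| = Real.exp (-(l / 2)) := by rw [abs_inv, h2, Real.exp_neg]
  refine (abs_add_le _ _).trans ?_
  rw [h2, h3, two_mul]
  have := le_abs_self l
  have := neg_abs_le l
  gcongr
  linarith

/-- the lengths of the images of simple elements are bounded -/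
theorem out_finite' (hΓ : IsClosedSurface Γ) (Φ : Set (MulAut Γ))
    (h : ∀ g : Γ, IsSimpleElt g → ∃ R, ∀ φ ∈ Φ, ∃ (c : UT) (l : ℝ), act (φ g) c = flow l c ∧ |l| ≤ R) :
    {q : Out Γ | ∃ φ ∈ Φ, (φ : Out Γ) = q}.Finite := by
  refine out_finite hΓ Φ (traces_bounded hΓ Φ fun g hg => ?_)
  obtain ⟨R, hR⟩ := h g hg
  refine ⟨2 * Real.exp (R / 2), fun φ hφ => ?_⟩
  obtain ⟨c, l, h1, h2⟩ := hR φ hφ
  refine (tr_of_axis h1).trans ?_
  gcongr

end Pool.Agent.U81.SA
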