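import Pool.Agent.U81.SA.Grow
import Pool.Agent.U81.SA.Fin2

/-!
# The domain of discontinuity
-/

set_option autoImplicit false

open scoped MatrixGroups UpperHalfPlane Matrix Topology
open UpperHalfPlane Pool.Agent.Y473.SA

namespace Pool.Agent.U81.SA

variable {Γ : Subgroup SL(2, ℝ)} {d : ℕ}

theorem cont_entry (s : Γ) : Continuous (fun ρ : CRep Γ d => (ρ.1.1 s).1) :=
  continuous_subtype_val.comp
    ((continuous_apply s).comp (continuous_subtype_val.comp continuous_subtype_val))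

/-- conjugation of representations -/
def cjRep (h : SL(d, ℂ)) (ρ : Rep Γ d) : Rep Γ d :=
  ⟨fun g => h * ρ.1 g * h⁻¹, fun x y => by beta_reduce; rw [ρ.2]; group⟩

theorem sl_mulVec (A B : SL(d, ℂ)) (v : Fin d → ℂ) : (A * B).1 *ᵥ v = A.1 *ᵥ (B.1 *ᵥ v) := by
  rw [Matrix.mulVec_mulVec]; rfl

theorem sl_one_mulVec (v : Fin d → ℂ) : (1 : SL(d, ℂ)).1 *ᵥ v = v := by
  change (1 : Matrix (Fin d) (Fin d) ℂ) *ᵥ v = v
  rw [Matrix.one_mulVec]

theorem sl_inv_mulVec (A : SL(d, ℂ)) (v : Fin d → ℂ) : (A⁻¹).1 *ᵥ (A.1 *ᵥ v) = v := by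
  rw [← sl_mulVec, inv_mul_cancel, sl_one_mulVec]

theorem sl_mulVec_inv (A : SL(d, ℂ)) (v : Fin d → ℂ) : A.1 *ᵥ ((A⁻¹).1 *ᵥ v) = v := by
  rw [← sl_mulVec, mul_inv_cancel, sl_one_mulVec]

theorem cj_cr (h : SL(d, ℂ)) {ρ : Rep Γ d} (hρ : IsCompletelyReducible ρ) :
    IsCompletelyReducible (cjRep h ρ) := by
  intro W hW
  let e : (Fin d → ℂ) ≃ₗ[ℂ] (Fin d → ℂ) :=
    { toFun := fun v => h.1 *ᵥ v
      invFun := fun v => (h⁻¹).1 *ᵥ v
      map_add' := fun v w => Matrix.mulVec_add _ _ _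
      map_smul' := fun c v => Matrix.mulVec_smul _ _ _
      left_inv := fun v => sl_inv_mulVec h v
      right_inv := fun v => sl_mulVec_inv h v }
  have he : ∀ v, e v = h.1 *ᵥ v := fun _ => rfl
  obtain ⟨W', h1, h2⟩ := hρ (W.comap (e : (Fin d → ℂ) →ₗ[ℂ] (Fin d → ℂ))) (by
    intro g w hw
    rw [Submodule.mem_comap] at hw ⊢
    have h3 := hW g _ hw
    have h4 : ((cjRep h ρ).1 g).1 *ᵥ (h.1 *ᵥ w) = h.1 *ᵥ ((ρ.1 g).1 *ᵥ w) := by
      change (h * ρ.1 g * h⁻¹).1 *ᵥ (h.1 *ᵥ w) = _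
      rw [sl_mulVec, sl_mulVec, sl_inv_mulVec]
    change h.1 *ᵥ ((ρ.1 g).1 *ᵥ w) ∈ W
    rw [← h4]
    exact h3)
  refine ⟨W'.map (e : (Fin d → ℂ) →ₗ[ℂ] (Fin d → ℂ)), ?_, ?_⟩
  · rintro g w ⟨u, hu, rfl⟩
    refine ⟨(ρ.1 g).1 *ᵥ u, h1 g u hu, ?_⟩
    change h.1 *ᵥ ((ρ.1 g).1 *ᵥ u) = (h * ρ.1 g * h⁻¹).1 *ᵥ (h.1 *ᵥ u)
    rw [sl_mulVec, sl_mulVec, sl_inv_mulVec]
  · have h3 : W = (W.comap (e : (Fin d → ℂ) →ₗ[ℂ] (Fin d → ℂ))).map
        (e : (Fin d → ℂ) →ₗ[ℂ] (Fin d → ℂ)) := by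
      rw [Submodule.map_comap_eq_of_surjective e.surjective]
    rw [h3]
    exact (Submodule.orderIsoMapComap e).isCompl h2

/-- conjugation of completely reducible representations -/
def cj (h : SL(d, ℂ)) (ρ : CRep Γ d) : CRep Γ d := ⟨cjRep h ρ.1, cj_cr h ρ.2⟩

theorem continuous_cj (h : SL(d, ℂ)) : Continuous (cj h : CRep Γ d → CRep Γ d) := by
  refine Continuous.subtype_mk (Continuous.subtype_mk (continuous_pi fun g => ?_) _) _
  have h1 : Continuous (fun ρ : CRep Γ d => ρ.1.1 g) :=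
    (continuous_apply g).comp (continuous_subtype_val.comp continuous_subtype_val)
  exact (continuous_const.mul h1).mul continuous_const

/-- the class of a representation -/
abbrev cls (ρ : CRep Γ d) : CharVar Γ d := Quotient.mk (conjSetoid Γ d) ρ

theorem cls_eq {ρ ρ' : CRep Γ d} : cls ρ = cls ρ' ↔ ∃ h : SL(d, ℂ), ∀ g, ρ'.1.1 g = h * ρ.1.1 g * h⁻¹ :=
  Quotient.eq

theorem isOpen_cls {W : Set (CRep Γ d)} (hW : IsOpen W) : IsOpen (cls '' W) := by
  have hq : Topology.IsQuotientMap (cls : CRep Γ d → CharVar Γ d) := isQuotientMap_quot_mk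
  rw [← hq.isOpen_preimage]
  have : (cls : CRep Γ d → CharVar Γ d) ⁻¹' (cls '' W) = ⋃ h : SL(d, ℂ), cj h ⁻¹' W := by
    ext ρ
    simp only [Set.mem_preimage, Set.mem_image, Set.mem_iUnion]
    constructor
    · rintro ⟨σ, hσ, h⟩
      have h' : cls ρ = cls σ := h.symm
      obtain ⟨x, hx⟩ := cls_eq.1 h'
      refine ⟨x, ?_⟩
      have : cj x ρ = σ := Subtype.ext (Subtype.ext (funext fun g => (hx g).symm))
      rw [this]; exact hσ
    · rintro ⟨x, hx⟩
      refine ⟨cj x ρ, hx, ?_⟩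
      have : cls ρ = cls (cj x ρ) := cls_eq.2 ⟨x, fun g => rfl⟩
      exact this.symm
  rw [this]
  exact isOpen_iUnion fun h => hW.preimage (continuous_cj h)

theorem continuous_twist (φ : MulAut Γ) : Continuous (twist φ : CharVar Γ d → CharVar Γ d) := by
  refine Continuous.quotient_map' ?_ _
  refine Continuous.subtype_mk (Continuous.subtype_mk (continuous_pi fun g => ?_) _) _
  exact (continuous_apply (φ⁻¹ g)).comp (continuous_subtype_val.comp continuous_subtype_val)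

theorem twist_cls (φ : MulAut Γ) (ρ : CRep Γ d) :
    twist φ (cls ρ) = cls ⟨twistRep φ ρ.1, twistRep_completelyReducible φ ρ.2⟩ := rfl

theorem twist_twist (φ : MulAut Γ) (x : CharVar Γ d) : twist φ⁻¹ (twist φ x) = x := by
  induction x using Quotient.inductionOn with
  | h ρ =>
    change cls _ = cls _
    congr 1
    apply Subtype.ext
    apply Subtype.ext
    funext g
    change ρ.1.1 (φ⁻¹ ((φ⁻¹)⁻¹ g)) = ρ.1.1 g
    congr 1
    simp

/-! ### translation lengths -/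

theorem len_le {g : Γ} {c : UT} {l : ℝ} (hl : 0 < l) (h : act g c = flow l c) (z : ℍ) :
    l ≤ dist z (g • z) := by
  have h1 : ∀ n : ℕ, dist z (g ^ n • z) ≤ n * dist z (g • z) := by
    intro n
    induction n with
    | zero => simp
    | succ n ih =>
      have h2 := dist_triangle z (g ^ n • z) (g ^ (n + 1) • z)
      have h3 : dist (g ^ n • z) (g ^ (n + 1) • z) = dist z (g • z) := by
        rw [pow_succ, mul_smul, dist_smul]
      push_cast
      linarith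
  have h2 : ∀ n : ℕ, (n : ℝ) * l ≤ 2 * dist z (c.1 0) + n * dist z (g • z) := by
    intro n
    have h3 := zpow_axis h (n : ℤ)
    rw [zpow_natCast, Int.cast_natCast] at h3
    have h4 : g ^ n • c.1 0 = c.1 (n * l) := by
      rw [← act_apply, h3, flow_apply, zero_add]
    have h5 : dist (c.1 0) (c.1 (n * l)) = n * l := by
      rw [line_dist, zero_sub, abs_neg, abs_of_nonneg (by positivity)]
    have h6 := dist_triangle4 (c.1 0) z (g ^ n • z) (g ^ n • c.1 0)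
    rw [dist_smul, h4, h5, dist_comm (c.1 0) z] at h6
    have := h1 n
    linarith
  by_contra hcon
  push Not at hcon
  obtain ⟨n, hn⟩ := exists_nat_gt (2 * dist z (c.1 0) / (l - dist z (g • z)))
  rw [div_lt_iff₀ (by linarith)] at hn
  have := h2 n
  linarith

theorem length_bound (hΓ : IsClosedSurface Γ) (φ : MulAut Γ) (R : ℝ) :
    ∃ R' : ℝ, ∀ (g : Γ) (c c' : UT) (l l' : ℝ), 0 < l → l ≤ R → act g c = flow l c → 0 < l' →
      act (φ g) c' = flow l' c' → l' ≤ R' := by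
  obtain ⟨r, hr0, hr⟩ := hΓ.exists_radius
  obtain ⟨R', hR'⟩ := ((hΓ.finite_disp r R).image fun x => dist I (φ x • I)).bddAbove
  refine ⟨R', fun g c c' l l' hl hlR hg hl' hg' => ?_⟩
  obtain ⟨h, hh⟩ := hr (c.1 0)
  have h1 : dist (h • c.1 0) ((h * g * h⁻¹) • h • c.1 0) ≤ R := by
    rw [mul_smul (h * g), inv_smul_smul, mul_smul, dist_smul]
    have := dist_axis hl hg 0
    rw [this]; exact hlR
  have h2 := hR' ⟨h * g * h⁻¹, ⟨_, hh, h1⟩, rfl⟩
  simp only at h2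
  refine (len_le hl' hg' ((φ h)⁻¹ • I)).trans (le_trans (le_of_eq ?_) h2)
  rw [map_mul, map_mul, map_inv, mul_smul (φ h * φ g), mul_smul (φ h), ← dist_smul (φ h),
    smul_inv_smul]

end Pool.Agent.U81.SA
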