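import Pool.Agent.U81.SA.Dom

/-!
# The domain of discontinuity, second part
-/

set_option autoImplicit false

open scoped MatrixGroups UpperHalfPlane Matrix Topology
open UpperHalfPlane Pool.Agent.Y473.SA

namespace Pool.Agent.U81.SA

variable {Γ : Subgroup SL(2, ℝ)} {d : ℕ}

/-- On the set `V` of classes the lengths of the simple elements are controlled by the growth. -/
def Ctrl (V : Set (CharVar Γ d)) : Prop :=
  ∀ B : ℝ, ∃ R : ℝ, ∀ ρ : CRep Γ d, cls ρ ∈ V → ∀ (g : Γ) (c : UT) (l : ℝ),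
    IsSimpleClosed Γ c l → act g c = flow l c → (∀ t, Gr (ρ.1.1 g) t → t ≤ B) → l ≤ R

theorem Ctrl.mono {V W : Set (CharVar Γ d)} (h : Ctrl W) (hVW : V ⊆ W) : Ctrl V := fun B => by
  obtain ⟨R, hR⟩ := h B
  exact ⟨R, fun ρ hρ => hR ρ (hVW hρ)⟩

theorem Ctrl.union {V W : Set (CharVar Γ d)} (h : Ctrl V) (h' : Ctrl W) : Ctrl (V ∪ W) := fun B => by
  obtain ⟨R, hR⟩ := h B
  obtain ⟨R', hR'⟩ := h' B
  refine ⟨max R R', fun ρ hρ g c l h1 h2 h3 => ?_⟩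
  rcases hρ with hρ | hρ
  · exact (hR ρ hρ g c l h1 h2 h3).trans (le_max_left _ _)
  · exact (hR' ρ hρ g c l h1 h2 h3).trans (le_max_right _ _)

/-- The classes with a neighbourhood on which the lengths are controlled. -/
def bigU (Γ : Subgroup SL(2, ℝ)) (d : ℕ) : Set (CharVar Γ d) :=
  {x | ∃ V : Set (CharVar Γ d), IsOpen V ∧ x ∈ V ∧ Ctrl V}

theorem isOpen_bigU : IsOpen (bigU Γ d) := by
  rw [isOpen_iff_forall_mem_open]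
  rintro x ⟨V, hV, hx, hc⟩
  exact ⟨V, fun y hy => ⟨V, hV, hy, hc⟩, hV, hx⟩

theorem bigU_twist (hΓ : IsClosedSurface Γ) (φ : MulAut Γ) {x : CharVar Γ d} (hx : x ∈ bigU Γ d) :
    twist φ x ∈ bigU Γ d := by
  obtain ⟨V, hV, hxV, hc⟩ := hx
  refine ⟨twist φ⁻¹ ⁻¹' V, hV.preimage (continuous_twist φ⁻¹), ?_, fun B => ?_⟩
  · rw [Set.mem_preimage, twist_twist]; exact hxV
  obtain ⟨R, hR⟩ := hc B
  obtain ⟨R', hR'⟩ := length_bound hΓ φ R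
  refine ⟨R', fun ρ hρ g c l hs hg hGr => ?_⟩
  rw [Set.mem_preimage, twist_cls] at hρ
  have hs' := hΓ.simple_aut φ⁻¹ ⟨c, l, hs, hg⟩
  obtain ⟨c', l', hs2, hg2⟩ := hs'
  have h1 := hR _ hρ (φ⁻¹ g) c' l' hs2 hg2 (by
    intro t ht
    apply hGr t
    have e : (twistRep φ⁻¹ ρ.1).1 (φ⁻¹ g) = ρ.1.1 g := by
      change ρ.1.1 ((φ⁻¹)⁻¹ (φ⁻¹ g)) = _
      congr 1
      simp
    change Gr ((twistRep φ⁻¹ ρ.1).1 (φ⁻¹ g)) t at ht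
    rwa [e] at ht)
  refine hR' (φ⁻¹ g) c' c l' l hs2.1 h1 hg2 hs.1 ?_
  rw [MulAut.apply_inv_self]
  exact hg

/-- On a compact set the matrices of an element are bounded after conjugation. -/
theorem bounded_rep {K : Set (CharVar Γ d)} (hK : IsCompact K) (g : Γ) :
    ∃ B : ℝ, ∀ y ∈ K, ∃ ρ : CRep Γ d, cls ρ = y ∧ mn (ρ.1.1 g).1 * mn (ρ.1.1 g⁻¹).1 ≤ B := by
  refine hK.induction_on (p := fun s => ∃ B : ℝ, ∀ y ∈ s, ∃ ρ : CRep Γ d, cls ρ = y ∧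
    mn (ρ.1.1 g).1 * mn (ρ.1.1 g⁻¹).1 ≤ B) ⟨0, fun y hy => absurd hy (Set.notMem_empty y)⟩ ?_ ?_ ?_
  · rintro s t hst ⟨B, hB⟩
    exact ⟨B, fun y hy => hB y (hst hy)⟩
  · rintro s t ⟨B, hB⟩ ⟨B', hB'⟩
    refine ⟨max B B', fun y hy => ?_⟩
    rcases hy with hy | hy
    · obtain ⟨ρ, h1, h2⟩ := hB y hy
      exact ⟨ρ, h1, h2.trans (le_max_left _ _)⟩
    · obtain ⟨ρ, h1, h2⟩ := hB' y hy
      exact ⟨ρ, h1, h2.trans (le_max_right _ _)⟩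
  · intro x _
    obtain ⟨ρ₀, rfl⟩ : ∃ ρ₀, cls ρ₀ = x := Quotient.exists_rep x
    set B₀ := mn (ρ₀.1.1 g).1 * mn (ρ₀.1.1 g⁻¹).1 + 1 with hB₀
    have hW : IsOpen {ρ : CRep Γ d | mn (ρ.1.1 g).1 * mn (ρ.1.1 g⁻¹).1 < B₀} := by
      refine isOpen_lt ?_ continuous_const
      exact (continuous_mn.comp (cont_entry g)).mul (continuous_mn.comp (cont_entry g⁻¹))
    refine ⟨cls '' {ρ : CRep Γ d | mn (ρ.1.1 g).1 * mn (ρ.1.1 g⁻¹).1 < B₀},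
      mem_nhdsWithin_of_mem_nhds ((isOpen_cls hW).mem_nhds ⟨ρ₀, ?_, rfl⟩), B₀, ?_⟩
    · change _ < B₀
      rw [hB₀]; linarith
    · rintro y ⟨ρ, hρ, rfl⟩
      exact ⟨ρ, rfl, le_of_lt hρ⟩

theorem ctrl_compact {K : Set (CharVar Γ d)} (hK : IsCompact K) (hKU : K ⊆ bigU Γ d) : Ctrl K := by
  refine hK.induction_on (p := fun s => Ctrl s) ?_ ?_ ?_ ?_
  · exact fun B => ⟨0, fun ρ hρ => absurd hρ (Set.notMem_empty _)⟩
  · exact fun s t hst h => h.mono hst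
  · exact fun s t h h' => h.union h'
  · intro x hx
    obtain ⟨V, hV, hxV, hc⟩ := hKU hx
    exact ⟨V, mem_nhdsWithin_of_mem_nhds (hV.mem_nhds hxV), hc⟩

theorem conj_mul (φ : MulAut Γ) (γ : Γ) : (QuotientGroup.mk (MulAut.conj γ * φ) : Out Γ) =
    QuotientGroup.mk φ := by
  rw [QuotientGroup.eq]
  refine ⟨φ⁻¹ γ⁻¹, ?_⟩
  ext x
  simp

/-- inverses of finitely many outer classes -/
theorem out_inv_finite {Φ : Set (MulAut Γ)}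
    (h : {q : Out Γ | ∃ φ ∈ {ψ | ψ⁻¹ ∈ Φ}, (φ : Out Γ) = q}.Finite) :
    {q : Out Γ | ∃ φ ∈ Φ, (φ : Out Γ) = q}.Finite := by
  refine (h.image (fun q : Out Γ => (QuotientGroup.mk (Quotient.out q)⁻¹ : Out Γ))).subset ?_
  rintro q ⟨φ, hφ, rfl⟩
  refine ⟨QuotientGroup.mk φ⁻¹, ⟨φ⁻¹, by simpa using hφ, rfl⟩, ?_⟩
  simp only
  have h1 : (QuotientGroup.mk (Quotient.out (QuotientGroup.mk φ⁻¹ : Out Γ)) : Out Γ) =
      QuotientGroup.mk φ⁻¹ := Quotient.out_eq _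
  set ψ : MulAut Γ := Quotient.out (QuotientGroup.mk φ⁻¹ : Out Γ) with hψ
  rw [eq_comm, QuotientGroup.eq] at h1
  obtain ⟨γ, hγ⟩ := h1
  have h2 : ψ⁻¹ = MulAut.conj γ⁻¹ * φ := by
    have : ψ = φ⁻¹ * MulAut.conj γ := by
      rw [hγ]; group
    rw [this, map_inv]
    group
  rw [h2]
  exact conj_mul φ γ⁻¹

/-- The set `bigU` is a domain of discontinuity. -/
theorem bigU_domain (hΓ : IsClosedSurface Γ) (hd : 0 < d) :
    IsDomainOfDiscontinuity (bigU Γ d) := by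
  refine ⟨isOpen_bigU, fun φ x hx => bigU_twist hΓ φ hx, fun K hKU hK => ?_⟩
  have hc := ctrl_compact hK hKU
  have hset : {q : Out Γ | ∃ φ : MulAut Γ, (φ : Out Γ) = q ∧ ∃ x ∈ K, twist φ x ∈ K} =
      {q : Out Γ | ∃ φ ∈ {φ : MulAut Γ | ∃ x ∈ K, twist φ x ∈ K}, (φ : Out Γ) = q} := by
    ext q
    constructor
    · rintro ⟨φ, h1, h2⟩; exact ⟨φ, h2, h1⟩
    · rintro ⟨φ, h1, h2⟩; exact ⟨φ, h2, h1⟩
  rw [hset]
  apply out_inv_finite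
  apply out_finite' hΓ
  intro g hg
  obtain ⟨B, hB⟩ := bounded_rep hK g
  obtain ⟨R, hR⟩ := hc (Real.log B)
  refine ⟨R, ?_⟩
  rintro ψ ⟨x, hx, hx'⟩
  obtain ⟨ρ, hρ1, hρ2⟩ := hB _ hx'
  obtain ⟨σ, rfl⟩ : ∃ σ, cls σ = x := Quotient.exists_rep x
  obtain ⟨c, l, hs, hg2⟩ := hΓ.simple_aut ψ hg
  refine ⟨c, l, hg2, ?_⟩
  rw [abs_of_pos hs.1]
  apply hR σ hx (ψ g) c l hs hg2
  intro t ht
  have h1 : cls (⟨twistRep ψ⁻¹ σ.1, twistRep_completelyReducible ψ⁻¹ σ.2⟩ : CRep Γ d) = cls ρ :=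
    hρ1.symm
  obtain ⟨y, hy⟩ := cls_eq.1 h1
  have h2 : (twistRep ψ⁻¹ σ.1).1 g = σ.1.1 (ψ g) := by
    change σ.1.1 ((ψ⁻¹)⁻¹ g) = _
    rw [inv_inv]
  have h3 : ρ.1.1 g = y * σ.1.1 (ψ g) * y⁻¹ := by
    rw [← h2]; exact hy g
  have h4 : Gr (ρ.1.1 g) t := by rw [h3]; exact ht.conj y
  have h5 := h4.le hd
  rw [← rep_inv] at h5
  have h6 : Real.exp t ≤ B := h5.trans hρ2
  rw [← Real.exp_le_exp]
  rwa [Real.exp_log (lt_of_lt_of_le (Real.exp_pos t) h6)]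

/-- The simple Anosov domains are contained in `bigU`. -/
theorem simple_subset (hΓ : IsClosedSurface Γ) {k : ℕ} (hk1 : 1 ≤ k) (hkd : k < d) :
    simpleAnosovDomain Γ d k ⊆ bigU Γ d := by
  rintro x ⟨ρ₀, hρ₀, rfl⟩
  obtain ⟨S, δ, T, hS, hδ, hT, h⟩ := local_growth hΓ hk1 hkd ρ₀.1 hρ₀
  have hW : IsOpen {ρ : CRep Γ d | ∀ s ∈ S, mn ((ρ.1.1 s).1 - (ρ₀.1.1 s).1) < δ} := by
    have : {ρ : CRep Γ d | ∀ s ∈ S, mn ((ρ.1.1 s).1 - (ρ₀.1.1 s).1) < δ} =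
        ⋂ s ∈ S, {ρ : CRep Γ d | mn ((ρ.1.1 s).1 - (ρ₀.1.1 s).1) < δ} := by
      ext ρ; simp
    rw [this]
    refine hS.isOpen_biInter fun s _ => ?_
    exact isOpen_lt (continuous_mn.comp ((cont_entry s).sub continuous_const)) continuous_const
  refine ⟨cls '' {ρ : CRep Γ d | ∀ s ∈ S, mn ((ρ.1.1 s).1 - (ρ₀.1.1 s).1) < δ}, isOpen_cls hW,
    ⟨ρ₀, ?_, rfl⟩, fun B => ⟨max T (2 * T * (B / Real.log 2)), ?_⟩⟩
  · intro s _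
    rw [sub_self]
    have : mn (0 : Matrix (Fin d) (Fin d) ℂ) = 0 := by simp [mn]
    rw [this]; exact hδ
  · rintro ρ' ⟨ρ, hρ, hρρ'⟩ g c l hs hg hGr
    rcases le_or_gt T l with hTl | hTl
    · refine le_trans ?_ (le_max_right _ _)
      obtain ⟨n, hn1, hn2⟩ := h ρ.1 (fun s hs => (hρ s hs).le) g c l hs hg hTl
      obtain ⟨y, hy⟩ := cls_eq.1 hρρ'
      have h1 : Gr (ρ'.1.1 g) (n * Real.log 2) := by rw [hy g]; exact hn2.conj y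
      have h2 := hGr _ h1
      have hlog : 0 < Real.log 2 := Real.log_pos (by norm_num)
      refine hn1.trans ?_
      have h3 : (n : ℝ) ≤ B / Real.log 2 := by rwa [le_div_iff₀ hlog]
      gcongr
    · exact hTl.le.trans (le_max_left _ _)

end Pool.Agent.U81.SA
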