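import Pool.Agent.Y473.SA.OutFin

/-!
# A set of automorphisms of a surface group with bounded traces is finite up to inner automorphisms
-/

set_option autoImplicit false

open scoped MatrixGroups UpperHalfPlane Matrix
open UpperHalfPlane Pool.Agent.Y473.SA

namespace Pool.Agent.U81.SA

variable {Γ : Subgroup SL(2, ℝ)}

/-- a diagonal matrix -/
noncomputable def dg (μ : ℝ) (h : μ ≠ 0) : SL(2, ℝ) :=
  ⟨!![μ, 0; 0, μ⁻¹], by rw [Matrix.det_fin_two_of]; simp [h]⟩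

theorem dg_conj (μ : ℝ) (h : μ ≠ 0) (A : SL(2, ℝ)) :
    ((dg μ h)⁻¹ * A * dg μ h) 0 0 = A 0 0 ∧ ((dg μ h)⁻¹ * A * dg μ h) 1 1 = A 1 1 ∧
    ((dg μ h)⁻¹ * A * dg μ h) 0 1 = (μ ^ 2)⁻¹ * A 0 1 ∧
    ((dg μ h)⁻¹ * A * dg μ h) 1 0 = μ ^ 2 * A 1 0 := by
  obtain ⟨h1, h2, h3, h4⟩ := sl_inv_apply (dg μ h)
  have e00 : (dg μ h) 0 0 = μ := rfl
  have e01 : (dg μ h) 0 1 = 0 := rfl
  have e10 : (dg μ h) 1 0 = 0 := rfl
  have e11 : (dg μ h) 1 1 = μ⁻¹ := rfl
  refine ⟨?_, ?_, ?_, ?_⟩ <;>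
    rw [sl_mul_apply, sl_mul_apply, sl_mul_apply] <;>
    simp only [h1, h2, h3, h4, e00, e01, e10, e11] <;> field_simp <;> ring

theorem dist_I_le (A : SL(2, ℝ)) {M : ℝ} (h : ∀ i j, |A i j| ≤ M) :
    dist I (A • I) ≤ 2 * M ^ 2 := by
  have hdet := sl_det A
  set a := A 0 0
  set b := A 0 1
  set c := A 1 0
  set d := A 1 1
  have hq : 0 < c ^ 2 + d ^ 2 := by
    rcases eq_or_ne c 0 with hc | hc
    · have hd : d ≠ 0 := by rintro hd; rw [hc, hd] at hdet; norm_num at hdet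
      positivity
    · positivity
  have him : (A • I).im = 1 / (c ^ 2 + d ^ 2) := by
    rw [smul_im, UpperHalfPlane.I_im, UpperHalfPlane.I_re]
    congr 1
    change (c * 0 + d) ^ 2 + (c * 1) ^ 2 = _
    ring
  have hre : (A • I).re = (a * c + b * d) / (c ^ 2 + d ^ 2) := by
    rw [smul_re, UpperHalfPlane.I_im, UpperHalfPlane.I_re]
    change ((a * 0 + b) * (c * 0 + d) + a * c * 1 ^ 2) / ((c * 0 + d) ^ 2 + (c * 1) ^ 2) = _
    congr 1 <;> ring
  have hcosh : Real.cosh (dist I (A • I)) = (a ^ 2 + b ^ 2 + c ^ 2 + d ^ 2) / 2 := by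
    rw [cosh_dist', him, hre, UpperHalfPlane.I_im, UpperHalfPlane.I_re]
    field_simp
    have : (a * c + b * d) ^ 2 + 1 = (a ^ 2 + b ^ 2) * (c ^ 2 + d ^ 2) := by
      have : (a * d - b * c) ^ 2 = 1 := by rw [hdet]; norm_num
      linear_combination -this
    linear_combination this
  have hb : ∀ x : ℝ, |x| ≤ M → x ^ 2 ≤ M ^ 2 := fun x hx => by
    rw [← sq_abs]; exact pow_le_pow_left₀ (abs_nonneg _) hx 2
  have h1 : Real.cosh (dist I (A • I)) ≤ 2 * M ^ 2 := by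
    rw [hcosh]
    have := hb a (h 0 0)
    have := hb b (h 0 1)
    have := hb c (h 1 0)
    have := hb d (h 1 1)
    linarith
  have h2 := Real.self_le_sinh_iff.2 (dist_nonneg : 0 ≤ dist I (A • I))
  have h3 := Real.sinh_lt_cosh (dist I (A • I))
  linarith

/-- two linear combinations -/
theorem two_lin {x w lam T1 T2 B G : ℝ} (hG : 0 < G) (hgap : G ≤ |lam - lam⁻¹|) (h1 : |x + w| ≤ T1)
    (h2 : |lam * x + lam⁻¹ * w| ≤ T2) (hl : |lam| ≤ B) (hl' : |lam⁻¹| ≤ B) :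
    |x| ≤ (T2 + B * T1) / G ∧ |w| ≤ (T2 + B * T1) / G := by
  have hB : 0 ≤ B := (abs_nonneg _).trans hl
  have e1 : (lam - lam⁻¹) * x = (lam * x + lam⁻¹ * w) - lam⁻¹ * (x + w) := by ring
  have e2 : (lam - lam⁻¹) * w = lam * (x + w) - (lam * x + lam⁻¹ * w) := by ring
  constructor
  · rw [le_div_iff₀ hG]
    calc |x| * G ≤ |x| * |lam - lam⁻¹| := by gcongr
      _ = |(lam * x + lam⁻¹ * w) - lam⁻¹ * (x + w)| := by rw [← e1, abs_mul, mul_comm]
      _ ≤ |lam * x + lam⁻¹ * w| + |lam⁻¹ * (x + w)| := abs_sub _ _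
      _ ≤ T2 + B * T1 := by rw [abs_mul]; gcongr
  · rw [le_div_iff₀ hG]
    calc |w| * G ≤ |w| * |lam - lam⁻¹| := by gcongr
      _ = |lam * (x + w) - (lam * x + lam⁻¹ * w)| := by rw [← e2, abs_mul, mul_comm]
      _ ≤ |lam * (x + w)| + |lam * x + lam⁻¹ * w| := abs_sub _ _
      _ ≤ T2 + B * T1 := by rw [abs_mul, add_comm]; gcongr

/-- A simultaneous conjugation with bounded entries. -/
theorem exists_conj (hΓ : IsClosedSurface Γ) (Φ : Set (MulAut Γ))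
    (h : ∀ g : Γ, ∃ B, ∀ φ ∈ Φ, |tr (φ g)| ≤ B) :
    ∃ M : Γ → ℝ, ∀ φ ∈ Φ, ∃ p : SL(2, ℝ), ∀ (g : Γ) (i j : Fin 2),
      |(p⁻¹ * (φ g : SL(2, ℝ)) * p) i j| ≤ M g := by
  obtain ⟨ε, hε, hlow, hdiag⟩ := hΓ.trace_gap
  obtain ⟨a, b, hab⟩ := hΓ.exists_not_comm
  choose B hB using h
  have ha : a ≠ 1 := by rintro rfl; simp at hab
  set G := 2 * Real.sinh (ε / 2) with hG
  have hG0 : 0 < G := by
    have : 0 < Real.sinh (ε / 2) := Real.sinh_pos_iff.2 (by linarith)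
    linarith
  set δ := 2 * Real.cosh (ε / 2) - 2 with hδ
  have hδ0 : 0 < δ := by
    have : 1 < Real.cosh (ε / 2) := Real.one_lt_cosh.2 (by linarith)
    linarith
  -- bounds for the diagonal entries
  set D : Γ → ℝ := fun g => (B (a * g) + B a * B g) / G with hD
  -- lower bound for the product of the off-diagonal entries of `b`
  set s0 := Real.sqrt (δ / (2 * B a + 1) ^ 2) with hs0
  set M : Γ → ℝ := fun g => D g + ((B (a * g * b) + B a * B (g * b)) / G + D g * D b) / s0 with hM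
  refine ⟨M, fun φ hφ => ?_⟩
  have hφa : φ a ≠ 1 := fun h => ha ((map_eq_one_iff φ φ.injective).1 h)
  obtain ⟨p, lam, hgap, hl, hl', h00, h11, h01, h10⟩ := hdiag (φ a) hφa
  have hBa := hB a φ hφ
  have hlB := hl.trans hBa
  have hlB' := hl'.trans hBa
  have hBa0 : 0 ≤ B a := (abs_nonneg _).trans hBa
  -- entries
  obtain ⟨E, hE⟩ : ∃ E : Γ → SL(2, ℝ), ∀ g, E g = p⁻¹ * (φ g : SL(2, ℝ)) * p := ⟨_, fun _ => rfl⟩
  rw [← hE] at h00 h11 h01 h10
  have hEmul : ∀ g g' : Γ, E (g * g') = E g * E g' := by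
    intro g g'
    simp only [hE, map_mul, Subgroup.coe_mul]
    group
  have htrE : ∀ g, tr (E g) = tr (φ g) := fun g => by rw [hE]; exact tr_conj p _
  have hEinv : ∀ g : Γ, E g⁻¹ = (E g)⁻¹ := by
    intro g
    simp only [hE, map_inv, Subgroup.coe_inv]
    group
  have hlam0 : lam ≠ 0 := by
    have := sl_det (E a)
    rw [h00, h11, h01] at this
    rintro rfl
    norm_num at this
  have hdiagb : ∀ g, |E g 0 0| ≤ D g ∧ |E g 1 1| ≤ D g := by
    intro g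
    apply two_lin hG0 hgap _ _ hlB hlB'
    · have := hB g φ hφ
      rwa [← htrE, tr_eq] at this
    · have := hB (a * g) φ hφ
      rw [← htrE, tr_eq, hEmul, sl_mul_apply, sl_mul_apply, h00, h11, h01, h10] at this
      simpa using this
  have hD0 : ∀ g, 0 ≤ D g := fun g => (abs_nonneg _).trans (hdiagb g).1
  -- the commutator
  have hcomm : tr (E (a * b * a⁻¹ * b⁻¹)) = 2 - E b 0 1 * E b 1 0 * (lam - lam⁻¹) ^ 2 := by
    obtain ⟨a1, a2, a3, a4⟩ := sl_inv_apply (E a)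
    obtain ⟨b1, b2, b3, b4⟩ := sl_inv_apply (E b)
    have hdet := sl_det (E b)
    rw [hEmul, hEmul, hEmul, hEinv, hEinv, tr_eq]
    simp only [sl_mul_apply, a1, a2, a3, a4, b1, b2, b3, b4, h00, h11, h01, h10]
    have hl1 : lam * lam⁻¹ = 1 := mul_inv_cancel₀ hlam0
    generalize lam⁻¹ = lam' at hl1 ⊢
    linear_combination (2 * E b 0 0 * E b 1 1 - 2 * E b 0 1 * E b 1 0) * hl1 + 2 * hdet
  have hyz : s0 ^ 2 ≤ |E b 0 1 * E b 1 0| := by
    have h1 : 2 * Real.cosh (ε / 2) ≤ |tr (E (a * b * a⁻¹ * b⁻¹))| := by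
      rw [htrE]
      apply hlow
      intro h
      exact hab ((map_eq_one_iff φ φ.injective).1 h)
    have h2 : δ ≤ |E b 0 1 * E b 1 0| * (lam - lam⁻¹) ^ 2 := by
      have h3 : |tr (E (a * b * a⁻¹ * b⁻¹))| ≤ 2 + |E b 0 1 * E b 1 0| * (lam - lam⁻¹) ^ 2 := by
        rw [hcomm]
        refine (abs_sub _ _).trans ?_
        rw [abs_mul, abs_of_nonneg (sq_nonneg (lam - lam⁻¹))]
        norm_num
      linarith
    have h3 : (lam - lam⁻¹) ^ 2 ≤ (2 * B a + 1) ^ 2 := by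
      rw [← sq_abs]
      apply pow_le_pow_left₀ (abs_nonneg _)
      refine (abs_sub _ _).trans ?_
      linarith
    have h4 : (0 : ℝ) < (2 * B a + 1) ^ 2 := by positivity
    rw [hs0, Real.sq_sqrt (by positivity), div_le_iff₀ h4]
    calc δ ≤ |E b 0 1 * E b 1 0| * (lam - lam⁻¹) ^ 2 := h2
      _ ≤ _ := by gcongr
  have hs00 : 0 < s0 := Real.sqrt_pos.2 (by positivity)
  have hyz0 : 0 < |E b 0 1 * E b 1 0| := lt_of_lt_of_le (by positivity) hyz
  have hy0 : 0 < |E b 0 1| := by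
    rcases (abs_nonneg (E b 0 1)).eq_or_lt with h | h
    · rw [abs_mul, ← h, zero_mul] at hyz0; exact absurd hyz0 (lt_irrefl _)
    · exact h
  have hz0 : 0 < |E b 1 0| := by
    rcases (abs_nonneg (E b 1 0)).eq_or_lt with h | h
    · rw [abs_mul, ← h, mul_zero] at hyz0; exact absurd hyz0 (lt_irrefl _)
    · exact h
  -- the diagonal conjugation
  set μ := Real.sqrt (Real.sqrt (|E b 0 1| / |E b 1 0|)) with hμ
  have hμ2 : μ ^ 2 = Real.sqrt (|E b 0 1| / |E b 1 0|) := Real.sq_sqrt (Real.sqrt_nonneg _)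
  have hμpos : 0 < μ := Real.sqrt_pos.2 (Real.sqrt_pos.2 (by positivity))
  have hμ4 : (μ ^ 2) ^ 2 = |E b 0 1| / |E b 1 0| := by rw [hμ2, Real.sq_sqrt (by positivity)]
  refine ⟨p * dg μ hμpos.ne', fun g => ?_⟩
  obtain ⟨F, hF⟩ : ∃ F : Γ → SL(2, ℝ), ∀ g, F g = (dg μ hμpos.ne')⁻¹ * E g * dg μ hμpos.ne' :=
    ⟨_, fun _ => rfl⟩
  have hFE : ∀ g : Γ, (p * dg μ hμpos.ne')⁻¹ * (φ g : SL(2, ℝ)) * (p * dg μ hμpos.ne') = F g := by
    intro g
    simp only [hF, hE]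
    group
  have hFmul : ∀ g g' : Γ, F (g * g') = F g * F g' := by
    intro g g'
    simp only [hF, hEmul]
    group
  have htrF : ∀ g, tr (F g) = tr (φ g) := fun g => by rw [← htrE g, hF]; exact tr_conj _ _
  have hFe : ∀ g, F g 0 0 = E g 0 0 ∧ F g 1 1 = E g 1 1 ∧ F g 0 1 = (μ ^ 2)⁻¹ * E g 0 1 ∧
      F g 1 0 = μ ^ 2 * E g 1 0 := fun g => by rw [hF]; exact dg_conj μ hμpos.ne' (E g)
  have hprod : |F b 0 1| = |F b 1 0| := by
    rw [(hFe b).2.2.1, (hFe b).2.2.2, abs_mul, abs_mul, abs_inv, abs_of_pos (by positivity : 0 < μ ^ 2)]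
    have h1 : (μ ^ 2) ^ 2 * |E b 1 0| = |E b 0 1| := by
      rw [hμ4, div_mul_cancel₀ _ hz0.ne']
    have hm : μ ^ 2 ≠ 0 := by positivity
    field_simp
    linear_combination -h1
  have hs : s0 ≤ |F b 0 1| ∧ s0 ≤ |F b 1 0| := by
    have h1 : |F b 0 1| * |F b 1 0| = |E b 0 1 * E b 1 0| := by
      rw [← abs_mul, (hFe b).2.2.1, (hFe b).2.2.2]
      congr 1
      have hm : μ ^ 2 ≠ 0 := by positivity
      field_simp
    rw [← hprod]
    rw [← hprod] at h1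
    have h2 : s0 ≤ |F b 0 1| := by
      rw [← h1] at hyz
      by_contra hc
      push Not at hc
      have := abs_nonneg (F b 0 1)
      nlinarith
    exact ⟨h2, h2⟩
  have hFd : |F g 0 0| ≤ D g ∧ |F g 1 1| ≤ D g := by
    rw [(hFe g).1, (hFe g).2.1]; exact hdiagb g
  have hFb : |F b 0 0| ≤ D b ∧ |F b 1 1| ≤ D b := by
    rw [(hFe b).1, (hFe b).2.1]; exact hdiagb b
  have huv : |F g 0 0 * F b 0 0 + F g 0 1 * F b 1 0| ≤ (B (a * g * b) + B a * B (g * b)) / G ∧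
      |F g 1 0 * F b 0 1 + F g 1 1 * F b 1 1| ≤ (B (a * g * b) + B a * B (g * b)) / G := by
    apply two_lin hG0 hgap _ _ hlB hlB'
    · have := hB (g * b) φ hφ
      rw [← htrF, tr_eq, hFmul, sl_mul_apply, sl_mul_apply] at this
      exact this
    · have := hB (a * g * b) φ hφ
      rw [← htrF, tr_eq, hFmul, hFmul, sl_mul_apply, sl_mul_apply, sl_mul_apply, sl_mul_apply,
        sl_mul_apply, sl_mul_apply, (hFe a).1, (hFe a).2.1, (hFe a).2.2.1, (hFe a).2.2.2, h00, h11,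
        h01, h10, mul_zero, mul_zero] at this
      refine le_trans (le_of_eq (congrArg _ ?_)) this
      ring
  have hoff : ∀ {x y c d s : ℝ}, |x * c + y * s| ≤ d → |x| ≤ D g → |c| ≤ D b → s0 ≤ |s| →
      |y| ≤ (d + D g * D b) / s0 := by
    intro x y c d s h1 h2 h3 h4
    rw [le_div_iff₀ hs00]
    calc |y| * s0 ≤ |y| * |s| := by gcongr
      _ = |(x * c + y * s) - x * c| := by rw [← abs_mul]; congr 1; ring
      _ ≤ |x * c + y * s| + |x * c| := abs_sub _ _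
      _ ≤ d + D g * D b := by
        rw [abs_mul x c]
        have := hD0 g
        gcongr
  have hM1 : D g ≤ M g := by
    simp only [hM]
    have h1 : 0 ≤ (B (a * g * b) + B a * B (g * b)) / G := (abs_nonneg _).trans huv.1
    have := mul_nonneg (hD0 g) (hD0 b)
    have : 0 ≤ ((B (a * g * b) + B a * B (g * b)) / G + D g * D b) / s0 := by positivity
    linarith
  have hM2 : ((B (a * g * b) + B a * B (g * b)) / G + D g * D b) / s0 ≤ M g := by
    simp only [hM]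
    linarith [hD0 g]
  intro i j
  rw [hFE]
  fin_cases i <;> fin_cases j
  · exact hFd.1.trans hM1
  · exact (hoff huv.1 hFd.1 hFb.1 hs.2).trans hM2
  · refine (hoff (x := F g 1 1) (c := F b 1 1) ?_ hFd.2 hFb.2 hs.1).trans hM2
    rw [add_comm]
    exact huv.2
  · exact hFd.2.trans hM1

/-- A set of automorphisms with bounded traces is finite up to inner automorphisms. -/
theorem out_finite (hΓ : IsClosedSurface Γ) (Φ : Set (MulAut Γ))
    (h : ∀ g : Γ, ∃ B, ∀ φ ∈ Φ, |tr (φ g)| ≤ B) :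
    {q : Out Γ | ∃ φ ∈ Φ, (φ : Out Γ) = q}.Finite := by
  obtain ⟨M, hM⟩ := exists_conj hΓ Φ h
  obtain ⟨r, hr0, hr⟩ := hΓ.exists_radius
  obtain ⟨F, hF, hgen⟩ := hΓ.exists_gen
  set S : Γ → Set Γ := fun g => {x | ∃ z, dist I z ≤ 0 ∧ dist z (x • z) ≤ 2 * r + 2 * (M g) ^ 2} with hS
  set Ψ : Set (MulAut Γ) := {ψ | ∀ g ∈ F, ψ g ∈ S g} with hΨ
  have hSfin : ∀ g, (S g).Finite := fun g => hΓ.finite_disp 0 _
  have hfin : Ψ.Finite := by
    have : Finite F := hF.to_subtype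
    have : ∀ g : F, Finite (S g) := fun g => (hSfin g).to_subtype
    rw [← Set.finite_coe_iff]
    refine Finite.of_injective (β := ∀ g : F, S g) (fun ψ g => ⟨ψ.1 g.1, ψ.2 g.1 g.2⟩) ?_
    intro ψ ψ' h
    apply Subtype.ext
    apply MulEquiv.toMonoidHom_injective
    apply MonoidHom.eq_of_eqOn_dense hgen
    intro g hg
    have := congrFun h ⟨g, hg⟩
    exact congrArg Subtype.val this
  refine (hfin.image (fun ψ : MulAut Γ => (ψ : Out Γ))).subset ?_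
  rintro q ⟨φ, hφ, rfl⟩
  obtain ⟨p, hp⟩ := hM φ hφ
  obtain ⟨γ, hγ⟩ := hr (p • I)
  refine ⟨MulAut.conj γ * φ, fun g _ => ⟨I, by rw [dist_self], ?_⟩, ?_⟩
  · have e1 : (MulAut.conj γ * φ) g = γ * φ g * γ⁻¹ := rfl
    rw [e1]
    have h2 := dist_triangle4 I (γ • p • I) ((γ * φ g * γ⁻¹) • γ • p • I) ((γ * φ g * γ⁻¹) • I)
    have h3 : dist ((γ * φ g * γ⁻¹) • γ • p • I) ((γ * φ g * γ⁻¹) • I) ≤ r := by
      rw [dist_smul, dist_comm]; exact hγ
    have h4 : dist (γ • p • I) ((γ * φ g * γ⁻¹) • γ • p • I) =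
        dist I ((p⁻¹ * (φ g : SL(2, ℝ)) * p) • I) := by
      rw [smul_smul (γ * φ g * γ⁻¹) γ, inv_mul_cancel_right, mul_smul, dist_smul]
      rw [← dist_smul p I, mul_smul, mul_smul, smul_inv_smul]
      rfl
    have h5 := dist_I_le _ (hp g)
    linarith
  · change (QuotientGroup.mk (MulAut.conj γ * φ) : Out Γ) = QuotientGroup.mk φ
    rw [QuotientGroup.eq]
    refine ⟨φ⁻¹ γ⁻¹, ?_⟩
    ext x
    simp

end Pool.Agent.U81.SA
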