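import Pool.Agent.U81.SA.Iota

/-!
# The dominated splitting of a Fuchsian representation: the projection and the growth
-/

set_option autoImplicit false

open scoped MatrixGroups UpperHalfPlane Matrix Topology ComplexConjugate
open UpperHalfPlane Pool.Agent.Y473.SA

namespace Pool.Agent.U81.SA

variable {Γ : Subgroup SL(2, ℝ)}

/-- the projection onto the unstable line, as a complex matrix -/
noncomputable def pm (c : UT) : Matrix (Fin 2) (Fin 2) ℂ :=
  (fm (c.1 0) (c.1 1)).map (algebraMap ℝ ℂ)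

/-- the model projection -/
def e11 : Matrix (Fin 2) (Fin 2) ℂ := !![0, 0; 0, 1]

theorem e11_sq : e11 * e11 = e11 := by
  unfold e11
  ext i j
  fin_cases i <;> fin_cases j <;> simp

theorem pm_geod (h : SL(2, ℝ)) : pm (geod h) = cm h * e11 * cm h⁻¹ := by
  obtain ⟨h1, h2, h3, h4⟩ := sl_inv_apply h
  unfold pm
  rw [fm_geod]
  ext i j
  rw [Matrix.mul_apply, Fin.sum_univ_two, Matrix.mul_apply, Matrix.mul_apply, Fin.sum_univ_two,
    Fin.sum_univ_two, cm_apply, cm_apply, cm_apply, cm_apply]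
  fin_cases i <;> fin_cases j <;>
    simp [e11, h1, h2, h3, h4] <;> ring

theorem act_geod (g : Γ) (h : SL(2, ℝ)) : act g (geod h) = geod (g * h) := by
  apply Subtype.ext
  funext t
  rw [act_apply, geod_apply, geod_apply, mul_smul]
  rfl

/-- the diagonal translation along the vertical line -/
noncomputable def dt (t : ℝ) : SL(2, ℝ) :=
  ⟨!![Real.exp (t / 2), 0; 0, Real.exp (-(t / 2))], by
    rw [Matrix.det_fin_two_of, ← Real.exp_add]
    simp⟩

theorem dt_apply (t : ℝ) : dt t 0 0 = Real.exp (t / 2) ∧ dt t 0 1 = 0 ∧ dt t 1 0 = 0 ∧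
    dt t 1 1 = Real.exp (-(t / 2)) := ⟨rfl, rfl, rfl, rfl⟩

theorem dt_vp (t s : ℝ) : dt t • vp s = vp (s + t) := by
  obtain ⟨h1, h2, h3, h4⟩ := dt_apply t
  apply UpperHalfPlane.ext_re_im
  · rw [smul_re, h1, h2, h3, h4, vp_re, vp_re]
    simp
  · rw [smul_im, h3, h4, vp_im, vp_im, Real.exp_add]
    have : Real.exp (-(t / 2)) ^ 2 = (Real.exp t)⁻¹ := by
      rw [← Real.exp_nat_mul, ← Real.exp_neg]
      congr 1
      push_cast; ring
    simp [this]

theorem flow_geod (t : ℝ) (h : SL(2, ℝ)) : flow t (geod h) = geod (h * dt t) := by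
  apply Subtype.ext
  funext s
  rw [flow_apply, geod_apply, geod_apply, mul_smul, dt_vp]

theorem cm_dt_e11 (t : ℝ) : cm (dt t) * e11 = e11 * cm (dt t) := by
  obtain ⟨h1, h2, h3, h4⟩ := dt_apply t
  ext i j
  rw [Matrix.mul_apply, Fin.sum_univ_two, Matrix.mul_apply, Fin.sum_univ_two,
    cm_apply, cm_apply, cm_apply, cm_apply]
  fin_cases i <;> fin_cases j <;>
    simp [e11, h1, h2, h3, h4]

theorem cm_inv_mul (g : SL(2, ℝ)) : cm g⁻¹ * cm g = 1 := by rw [← cm_mul, inv_mul_cancel, cm_one]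

theorem cm_mul_inv (g : SL(2, ℝ)) : cm g * cm g⁻¹ = 1 := by rw [← cm_mul, mul_inv_cancel, cm_one]

theorem pm_sq (c : UT) : pm c * pm c = pm c := by
  obtain ⟨h, rfl⟩ := exists_geod c
  rw [pm_geod]
  calc cm h * e11 * cm h⁻¹ * (cm h * e11 * cm h⁻¹)
      = cm h * e11 * (cm h⁻¹ * cm h) * e11 * cm h⁻¹ := by noncomm_ring
    _ = cm h * (e11 * e11) * cm h⁻¹ := by rw [cm_inv_mul]; noncomm_ring
    _ = _ := by rw [e11_sq]

theorem pm_trace (c : UT) : (pm c).trace = 1 := by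
  obtain ⟨h, rfl⟩ := exists_geod c
  rw [pm_geod, Matrix.trace_mul_cycle, cm_inv_mul, one_mul]
  simp [e11, Matrix.trace_fin_two]

theorem pm_act (g : Γ) (c : UT) : pm (act g c) * cm g = cm g * pm c := by
  obtain ⟨h, rfl⟩ := exists_geod c
  rw [act_geod, pm_geod, pm_geod, mul_inv_rev, cm_mul, cm_mul]
  calc cm g * cm h * e11 * (cm h⁻¹ * cm (g : SL(2, ℝ))⁻¹) * cm g
      = cm g * cm h * e11 * cm h⁻¹ * (cm (g : SL(2, ℝ))⁻¹ * cm g) := by noncomm_ring
    _ = _ := by rw [cm_inv_mul]; noncomm_ring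

theorem pm_flow (t : ℝ) (c : UT) : pm (flow t c) = pm c := by
  obtain ⟨h, rfl⟩ := exists_geod c
  rw [flow_geod, pm_geod, pm_geod, mul_inv_rev, cm_mul, cm_mul]
  calc cm h * cm (dt t) * e11 * (cm (dt t)⁻¹ * cm h⁻¹)
      = cm h * (cm (dt t) * e11) * (cm (dt t)⁻¹ * cm h⁻¹) := by noncomm_ring
    _ = cm h * e11 * (cm (dt t) * cm (dt t)⁻¹) * cm h⁻¹ := by rw [cm_dt_e11]; noncomm_ring
    _ = _ := by rw [cm_mul_inv, mul_one]

theorem continuous_pm : Continuous pm := by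
  unfold pm fm
  have h0 := continuous_eval 0
  have h1 := continuous_eval 1
  have r0 : Continuous (fun c : UT => (c.1 0).re) := UpperHalfPlane.continuous_re.comp h0
  have r1 : Continuous (fun c : UT => (c.1 1).re) := UpperHalfPlane.continuous_re.comp h1
  have i0 : Continuous (fun c : UT => (c.1 0).im) := UpperHalfPlane.continuous_im.comp h0
  have i1 : Continuous (fun c : UT => (c.1 1).im) := UpperHalfPlane.continuous_im.comp h1
  have hne : ∀ c : UT, (c.1 0).im * (c.1 1).im ≠ 0 :=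
    fun c => mul_ne_zero (c.1 0).im_pos.ne' (c.1 1).im_pos.ne'
  have key : Continuous (fun c : UT => !![Real.exp 1 - ((c.1 1).re ^ 2 + (c.1 1).im ^ 2 -
        (c.1 1).re * (c.1 0).re) / ((c.1 0).im * (c.1 1).im),
      -(((c.1 1).re * ((c.1 0).re ^ 2 + (c.1 0).im ^ 2) -
        ((c.1 1).re ^ 2 + (c.1 1).im ^ 2) * (c.1 0).re) / ((c.1 0).im * (c.1 1).im));
      -(((c.1 1).re - (c.1 0).re) / ((c.1 0).im * (c.1 1).im)),
      Real.exp 1 - ((c.1 0).re ^ 2 + (c.1 0).im ^ 2 - (c.1 1).re * (c.1 0).re) /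
        ((c.1 0).im * (c.1 1).im)]) := by
    refine continuous_matrix fun i j => ?_
    fin_cases i <;> fin_cases j <;> simp only [Matrix.of_apply, Matrix.cons_val', Matrix.cons_val_zero,
        Matrix.cons_val_one, Matrix.cons_val_fin_one, Fin.zero_eta, Fin.mk_one,
        Fin.isValue]
    · exact continuous_const.sub ((((r1.pow 2).add (i1.pow 2)).sub (r1.mul r0)).div (i0.mul i1) hne)
    · exact (((r1.mul ((r0.pow 2).add (i0.pow 2))).sub
        (((r1.pow 2).add (i1.pow 2)).mul r0)).div (i0.mul i1) hne).neg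
    · exact ((r1.sub r0).div (i0.mul i1) hne).neg
    · exact continuous_const.sub ((((r0.pow 2).add (i0.pow 2)).sub (r1.mul r0)).div (i0.mul i1) hne)
  exact (key.const_smul (Real.exp 1 - (Real.exp 1)⁻¹)⁻¹).matrix_map Complex.continuous_ofReal

/-- unstable vectors grow -/
theorem nz_unst (c : UT) (t : ℝ) {u : Fin 2 → ℂ} (hu : pm c *ᵥ u = u) :
    nz (c.1 t) u = Real.exp (t / 2) * nz (c.1 0) u := by
  obtain ⟨h, rfl⟩ := exists_geod c
  rw [geod_apply, geod_apply]
  set u' := cm h⁻¹ *ᵥ u with hu'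
  have hcm : u = cm h *ᵥ u' := by rw [hu', cm_mulVec_inv]
  have h0 : u' 0 = 0 := by
    have h1 : u' = e11 *ᵥ u' := by
      rw [hu']
      nth_rewrite 1 [← hu]
      rw [pm_geod, ← Matrix.mulVec_mulVec, ← Matrix.mulVec_mulVec, cm_inv_mulVec]
    rw [h1]
    simp [e11, Matrix.mulVec, dotProduct, Fin.sum_univ_two]
  rw [hcm, nz_smul, nz_smul]
  exact nz_vp_unst t h0

/-- stable vectors do not grow -/
theorem nz_st (c : UT) {t : ℝ} (ht : 0 ≤ t) {u : Fin 2 → ℂ} (hu : pm c *ᵥ u = 0) :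
    nz (c.1 t) u ≤ nz (c.1 0) u := by
  obtain ⟨h, rfl⟩ := exists_geod c
  rw [geod_apply, geod_apply]
  set u' := cm h⁻¹ *ᵥ u with hu'
  have hcm : u = cm h *ᵥ u' := by rw [hu', cm_mulVec_inv]
  have h0 : u' 1 = 0 := by
    have h1 : e11 *ᵥ u' = 0 := by
      have h2 : cm h⁻¹ *ᵥ (pm (geod h) *ᵥ u) = 0 := by rw [hu, Matrix.mulVec_zero]
      rw [pm_geod, ← Matrix.mulVec_mulVec, ← Matrix.mulVec_mulVec, cm_inv_mulVec] at h2
      exact h2
    have h3 := congrFun h1 1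
    simpa [e11, Matrix.mulVec, dotProduct, Fin.sum_univ_two] using h3
  rw [hcm, nz_smul, nz_smul]
  exact nz_vp_st ht h0

end Pool.Agent.U81.SA
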