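import Pool.Agent.U81.SA.Comp

/-!
# Locally uniform growth along simple elements
-/

set_option autoImplicit false

open scoped MatrixGroups UpperHalfPlane Matrix
open UpperHalfPlane Pool.Agent.Y473.SA

namespace Pool.Agent.U81.SA

variable {Γ : Subgroup SL(2, ℝ)}

theorem rep_one {d : ℕ} (ρ : Rep Γ d) : ρ.1 1 = 1 := by
  have := ρ.2 1 1
  rw [mul_one] at this
  exact (mul_eq_left.1 this.symm)

/-- the homomorphism -/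
def hom {d : ℕ} (ρ : Rep Γ d) : Γ →* SL(d, ℂ) where
  toFun := ρ.1
  map_one' := rep_one ρ
  map_mul' := ρ.2

theorem rep_inv {d : ℕ} (ρ : Rep Γ d) (g : Γ) : ρ.1 g⁻¹ = (ρ.1 g)⁻¹ := map_inv (hom ρ) g

theorem rep_pow {d : ℕ} (ρ : Rep Γ d) (g : Γ) (j : ℕ) : ρ.1 (g ^ j) = (ρ.1 g) ^ j :=
  map_pow (hom ρ) g j

theorem rep_mulVec {d : ℕ} (ρ : Rep Γ d) (g h : Γ) (v : Fin d → ℂ) :
    (ρ.1 (g * h)).1 *ᵥ v = (ρ.1 g).1 *ᵥ ((ρ.1 h).1 *ᵥ v) := by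
  rw [Matrix.mulVec_mulVec, ρ.2]
  rfl

theorem rep_mulVec_inv {d : ℕ} (ρ : Rep Γ d) (g : Γ) (v : Fin d → ℂ) :
    (ρ.1 g⁻¹).1 *ᵥ ((ρ.1 g).1 *ᵥ v) = v := by
  rw [← rep_mulVec, inv_mul_cancel, rep_one]
  change (1 : Matrix (Fin d) (Fin d) ℂ) *ᵥ v = v
  rw [Matrix.one_mulVec]

theorem exists_range {d k : ℕ} {P : Matrix (Fin d) (Fin d) ℂ} (hP : P * P = P) (hr : P.rank = k)
    (hk : 1 ≤ k) : ∃ v, v ≠ 0 ∧ P *ᵥ v = v := by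
  have hne : P ≠ 0 := by
    rintro rfl
    rw [Matrix.rank_zero] at hr
    omega
  obtain ⟨u, hu⟩ : ∃ u, P *ᵥ u ≠ 0 := by
    by_contra hc
    push Not at hc
    apply hne
    apply Matrix.ext_of_mulVec_single
    intro i
    rw [hc, Matrix.zero_mulVec]
  exact ⟨P *ᵥ u, hu, by rw [Matrix.mulVec_mulVec, hP]⟩

theorem exists_ker {d k : ℕ} {P : Matrix (Fin d) (Fin d) ℂ} (hr : P.rank = k) (hk : k < d) :
    ∃ v, v ≠ 0 ∧ P *ᵥ v = 0 := by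
  rw [Matrix.exists_mulVec_eq_zero_iff]
  by_contra hc
  have hu : IsUnit P := (Matrix.isUnit_iff_isUnit_det P).2 (isUnit_iff_ne_zero.2 hc)
  have := Matrix.rank_of_isUnit P hu
  rw [Fintype.card_fin] at this
  omega

theorem local_growth (hΓ : IsClosedSurface Γ) {d k : ℕ} (hk1 : 1 ≤ k) (hkd : k < d) (ρ₀ : Rep Γ d)
    (h : IsSimpleAnosov k ρ₀) :
    ∃ (S : Set Γ) (δ T : ℝ), S.Finite ∧ 0 < δ ∧ 0 < T ∧ ∀ ρ : Rep Γ d,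
      (∀ s ∈ S, mn ((ρ.1 s).1 - (ρ₀.1 s).1) ≤ δ) →
      ∀ (g : Γ) (c : UT) (l : ℝ), IsSimpleClosed Γ c l → act g c = flow l c → T ≤ l →
        ∃ n : ℕ, l ≤ 2 * T * n ∧ Gr (ρ.1 g) (n * Real.log 2) := by
  obtain ⟨P, N, C, a, hC, ha, hPc, hPP, hPe, hPf, hNc, hN0, hNe, hdom⟩ := h
  obtain ⟨r, hr0, hr⟩ := hΓ.exists_radius
  obtain ⟨m₀, M₀, hm₀, hM₀, hNb⟩ := norm_bounds hNc hN0 r
  obtain ⟨M₁, hM₁, hPb⟩ := proj_bound hPc r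
  -- the time
  set T : ℝ := (|Real.log (8 * C)| + 1) / a with hT
  have hT0 : 0 < T := by positivity
  have hTC : ∀ t, T ≤ t → C * Real.exp (-a * t) ≤ 1 / 8 := by
    intro t ht
    have h1 : Real.log (8 * C) ≤ a * t := by
      have h2 : a * T = |Real.log (8 * C)| + 1 := by rw [hT]; field_simp
      have h3 : a * T ≤ a * t := by gcongr
      have := le_abs_self (Real.log (8 * C))
      linarith
    have h2 : 8 * C ≤ Real.exp (a * t) := by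
      rw [← Real.exp_log (by positivity : 0 < 8 * C)]
      gcongr
    rw [neg_mul, Real.exp_neg, ← div_eq_mul_inv, div_le_iff₀ (Real.exp_pos _)]
    linarith
  set S : Set Γ := {g | ∃ z, dist I z ≤ r + 2 * T ∧ dist I (g • z) ≤ r + 2 * T} with hS
  have hSf : S.Finite := hΓ.finite_ball _
  obtain ⟨Q, hQ⟩ := (hSf.image fun s => mn (ρ₀.1 s⁻¹).1).bddAbove
  set K : ℝ := M₀ * |Q| / m₀ with hK
  have hK0 : 0 ≤ K := by positivity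
  set δ : ℝ := m₀ / (16 * ((M₀ + 1) * (1 + M₁) * (K + 1))) with hδ
  have hδ0 : 0 < δ := by positivity
  have hδ' : 16 * (M₀ * (1 + M₁) * δ * K) ≤ m₀ := by
    have h1 : δ * (16 * ((M₀ + 1) * (1 + M₁) * (K + 1))) = m₀ := by
      rw [hδ]; field_simp
    calc 16 * (M₀ * (1 + M₁) * δ * K) = δ * (16 * (M₀ * (1 + M₁) * K)) := by ring
      _ ≤ δ * (16 * ((M₀ + 1) * (1 + M₁) * (K + 1))) := by gcongr <;> linarith
      _ = m₀ := h1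
  refine ⟨S, δ, T, hSf, hδ0, hT0, fun ρ hρ g c l hsc hgc hl => ?_⟩
  have hcB : c ∈ birmanSeries Γ := subset_closure ⟨l, hsc⟩
  -- the step
  set n := ⌊l / T⌋₊ with hn
  have hn1 : 1 ≤ n := by
    rw [hn, Nat.one_le_floor_iff, le_div_iff₀ hT0, one_mul]
    exact hl
  have hn0 : (0 : ℝ) < n := by exact_mod_cast hn1
  have hnl : (n : ℝ) * T ≤ l := by
    have := Nat.floor_le (div_nonneg (hT0.le.trans hl) hT0.le)
    rwa [le_div_iff₀ hT0] at this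
  have hln : l < (n + 1) * T := by
    have := Nat.lt_floor_add_one (l / T)
    rwa [div_lt_iff₀ hT0] at this
  have hl2 : l ≤ 2 * T * n := by
    have : (1 : ℝ) ≤ n := by exact_mod_cast hn1
    nlinarith
  refine ⟨n, hl2, ?_⟩
  set T₀ : ℝ := l / n with hT₀
  have hT₀l : (n : ℝ) * T₀ = l := by rw [hT₀]; field_simp
  have hT₀1 : T ≤ T₀ := by rw [hT₀, le_div_iff₀ hn0]; linarith
  have hT₀2 : T₀ ≤ 2 * T := by rw [hT₀, div_le_iff₀ hn0]; exact hl2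
  have hT₀0 : 0 < T₀ := hT0.trans_le hT₀1
  -- the frames
  choose h' hh' using fun b : ℕ => hr (c.1 (b * T₀))
  obtain ⟨H, hH⟩ : ∃ H : ℕ → Γ, ∀ i, H i = h' (i % n) * (g ^ (i / n))⁻¹ := ⟨_, fun _ => rfl⟩
  obtain ⟨kk, hkk⟩ : ∃ kk : ℕ → UT, ∀ i, kk i = act (h' (i % n)) (flow ((i % n : ℕ) * T₀) c) :=
    ⟨_, fun _ => rfl⟩
  have hflow : ∀ i : ℕ, flow (i * T₀) c = act (g ^ (i / n)) (flow ((i % n : ℕ) * T₀) c) := by
    intro i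
    have e1 : (i : ℝ) = (i % n : ℕ) + n * (i / n : ℕ) := by
      have := Nat.mod_add_div i n
      exact_mod_cast this.symm
    rw [act_flow]
    have e2 := zpow_axis hgc ((i / n : ℕ) : ℤ)
    rw [zpow_natCast, Int.cast_natCast] at e2
    rw [e2, flow_flow]
    congr 1
    conv_lhs => rw [e1]
    rw [add_mul, mul_right_comm, hT₀l]
    ring
  have hHk : ∀ i, act (H i) (flow (i * T₀) c) = kk i := by
    intro i
    rw [hflow, act_act, hH, inv_mul_cancel_right, hkk]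
  have hkB : ∀ i, kk i ∈ birmanSeries Γ := fun i => by
    rw [hkk]; exact act_mem (flow_mem hcB _) _
  have hkr : ∀ i, dist I ((kk i).1 0) ≤ r := by
    intro i
    have := hh' (i % n)
    rw [hkk, act_apply, flow_apply, zero_add]
    exact this
  have hkc : ∀ i, kk i ∈ cpt Γ r := fun i => ⟨hkB i, hkr i⟩
  obtain ⟨s, hs⟩ : ∃ s : ℕ → Γ, ∀ i, s i = H (i + 1) * (H i)⁻¹ := ⟨_, fun _ => rfl⟩
  have hsk : ∀ i, act (s i) (flow T₀ (kk i)) = kk (i + 1) := by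
    intro i
    rw [← hHk i, ← act_flow, flow_flow, act_act, hs, inv_mul_cancel_right, ← hHk (i + 1)]
    congr 2
    push_cast
    ring
  have hsS : ∀ i, s i ∈ S := by
    intro i
    refine ⟨(kk i).1 T₀, ?_, ?_⟩
    · have h1 := dist_triangle I ((kk i).1 0) ((kk i).1 T₀)
      have h2 : dist ((kk i).1 0) ((kk i).1 T₀) = T₀ := by
        rw [line_dist, zero_sub, abs_neg, abs_of_pos hT₀0]
      have := hkr i
      linarith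
    · have h1 : s i • (kk i).1 T₀ = (kk (i + 1)).1 0 := by
        rw [← hsk i, act_apply, flow_apply, zero_add]
      rw [h1]
      have := hkr (i + 1)
      linarith
  have hNs : ∀ i v, N (kk (i + 1)) ((ρ₀.1 (s i)).1 *ᵥ v) = N (flow T₀ (kk i)) v := by
    intro i v
    rw [← hsk i]
    exact hNe _ (flow_mem (hkB i) _) _ _
  have hstep : ∀ i, StepH (N (kk i)) (N (kk (i + 1))) (P (kk i)) (P (kk (i + 1)))
      (ρ₀.1 (s i)).1 (ρ.1 (s i)).1 m₀ M₀ M₁ K δ := by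
    intro i
    refine ⟨fun v => (hNb _ (hkc i) v).1, fun v => (hNb _ (hkc (i + 1)) v).2, (hPP _ (hkB i)).1,
      hPb _ (hkc (i + 1)), ?_, ?_, ?_, hρ _ (hsS i)⟩
    · rw [← hsk i, hPe _ (flow_mem (hkB i) _), hPf _ (hkB i)]
    · intro u w hu hw
      rw [hNs, hNs]
      refine (hdom _ (hkB i) u w hu hw T₀ hT₀0.le).trans ?_
      apply mul_le_mul_of_nonneg_right (hTC _ hT₀1)
      exact mul_nonneg (apply_nonneg _ _) (apply_nonneg _ _)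
    · intro u
      have h1 : mn (ρ₀.1 (s i)⁻¹).1 ≤ |Q| := (hQ ⟨s i, hsS i, rfl⟩).trans (le_abs_self Q)
      calc N (kk i) u ≤ M₀ * ‖u‖ := (hNb _ (hkc i) u).2
        _ = M₀ * ‖(ρ₀.1 (s i)⁻¹).1 *ᵥ ((ρ₀.1 (s i)).1 *ᵥ u)‖ := by rw [rep_mulVec_inv]
        _ ≤ M₀ * (|Q| * ‖(ρ₀.1 (s i)).1 *ᵥ u‖) := by
          apply mul_le_mul_of_nonneg_left _ hM₀
          refine (mn_mulVec _ _).trans ?_
          gcongr
        _ = K * (m₀ * ‖(ρ₀.1 (s i)).1 *ᵥ u‖) := by rw [hK]; field_simp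
        _ ≤ K * N (kk (i + 1)) ((ρ₀.1 (s i)).1 *ᵥ u) := by
          apply mul_le_mul_of_nonneg_left _ hK0
          exact (hNb _ (hkc (i + 1)) _).1
  -- the vectors
  obtain ⟨v₀, hv₀, hv₀'⟩ := exists_range (hPP _ (hkB 0)).1 (hPP _ (hkB 0)).2 hk1
  obtain ⟨w₀, hw₀, hw₀'⟩ := exists_ker (hPP _ (hkB 0)).2 hkd
  have hNv : 0 < N (kk 0) v₀ := lt_of_le_of_ne (apply_nonneg _ _) fun h =>
    hv₀ (hN0 _ (hkB 0) _ h.symm)
  have hNw : 0 < N (kk 0) w₀ := lt_of_le_of_ne (apply_nonneg _ _) fun h =>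
    hw₀ (hN0 _ (hkB 0) _ h.symm)
  have hmain : ∀ j : ℕ, N (kk 0) w₀ * N (kk 0) v₀ ≤ (1 / 2) ^ (n * j) *
      (N (kk 0) (P (kk 0) *ᵥ ((ρ.1 (h' 0 * (g ^ j)⁻¹ * (h' 0)⁻¹)).1 *ᵥ v₀)) *
        N (kk 0) ((ρ.1 (h' 0 * g ^ j * (h' 0)⁻¹)).1 *ᵥ w₀ -
          P (kk 0) *ᵥ ((ρ.1 (h' 0 * g ^ j * (h' 0)⁻¹)).1 *ᵥ w₀))) := by
    intro j
    have hkm : kk (n * j) = kk 0 := by
      rw [hkk, hkk, Nat.mul_mod_right, Nat.zero_mod]
    have hHm : H (n * j) = h' 0 * (g ^ j)⁻¹ := by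
      rw [hH, Nat.mul_mod_right, Nat.mul_div_cancel_left j hn1]
    have hH0 : H 0 = h' 0 := by
      rw [hH, Nat.zero_mod, Nat.zero_div, pow_zero, inv_one, mul_one]
    have h1 := many_steps (N := fun i => N (kk i)) (P := fun i => P (kk i))
      (B₀ := fun i => (ρ₀.1 (s i)).1) (B := fun i => (ρ.1 (s i)).1) (n * j)
      (fun i _ => hstep i) hm₀ hM₀ hM₁ hδ0.le hK0 hδ'
      (v := fun i => (ρ.1 (H i * (H 0)⁻¹)).1 *ᵥ v₀)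
      (x := fun i => (ρ.1 (H i * (H (n * j))⁻¹)).1 *ᵥ w₀)
      (fun i _ => by
        rw [← rep_mulVec, hs]
        exact congrArg (fun x => (ρ.1 x).1 *ᵥ v₀) (by group))
      (fun i _ => by
        rw [← rep_mulVec, hs]
        exact congrArg (fun x => (ρ.1 x).1 *ᵥ w₀) (by group))
      (by
        rw [mul_inv_cancel, rep_one]
        change P (kk 0) *ᵥ ((1 : Matrix (Fin d) (Fin d) ℂ) *ᵥ v₀) = (1 : Matrix (Fin d) (Fin d) ℂ) *ᵥ v₀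
        rw [Matrix.one_mulVec, hv₀'])
      (by
        rw [mul_inv_cancel, rep_one]
        change 0 < N (kk 0) ((1 : Matrix (Fin d) (Fin d) ℂ) *ᵥ v₀)
        rw [Matrix.one_mulVec]
        exact hNv)
      (by
        rw [mul_inv_cancel, rep_one, hkm]
        change P (kk 0) *ᵥ ((1 : Matrix (Fin d) (Fin d) ℂ) *ᵥ w₀) = 0
        rw [Matrix.one_mulVec, hw₀'])
      (by
        rw [mul_inv_cancel, rep_one]
        change (1 : Matrix (Fin d) (Fin d) ℂ) *ᵥ w₀ ≠ 0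
        rw [Matrix.one_mulVec]
        exact hw₀)
    rw [hkm, mul_inv_cancel, mul_inv_cancel, rep_one] at h1
    have e0 : ∀ w : Fin d → ℂ, ((1 : SL(d, ℂ)).1 *ᵥ w) = w := fun w => by
      change (1 : Matrix (Fin d) (Fin d) ℂ) *ᵥ w = w
      rw [Matrix.one_mulVec]
    rw [e0, e0, hHm, hH0] at h1
    have e1 : h' 0 * (h' 0 * (g ^ j)⁻¹)⁻¹ = h' 0 * g ^ j * (h' 0)⁻¹ := by group
    rw [e1] at h1
    exact h1
  -- conclusion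
  set A₁ : ℝ := mn (ρ.1 (h' 0)).1 * mn (ρ.1 (h' 0)⁻¹).1 with hA₁
  have hA₁0 : 0 ≤ A₁ := mul_nonneg (mn_nonneg _) (mn_nonneg _)
  have hconj : ∀ (x : Γ) (w : Fin d → ℂ), ‖(ρ.1 (h' 0 * x * (h' 0)⁻¹)).1 *ᵥ w‖ ≤
      A₁ * mn (ρ.1 x).1 * ‖w‖ := by
    intro x w
    refine (mn_mulVec _ _).trans ?_
    have h1 : mn (ρ.1 (h' 0 * x * (h' 0)⁻¹)).1 ≤ A₁ * mn (ρ.1 x).1 := by
      rw [ρ.2, ρ.2]
      calc mn ((ρ.1 (h' 0)).1 * (ρ.1 x).1 * (ρ.1 (h' 0)⁻¹).1)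
          ≤ mn (ρ.1 (h' 0)).1 * mn (ρ.1 x).1 * mn (ρ.1 (h' 0)⁻¹).1 :=
            (mn_mul _ _).trans (mul_le_mul_of_nonneg_right (mn_mul _ _) (mn_nonneg _))
        _ = _ := by rw [hA₁]; ring
    gcongr
  refine ⟨(M₀ * (M₁ * (A₁ * ‖v₀‖))) * (M₀ * ((1 + M₁) * (A₁ * ‖w₀‖))) / (N (kk 0) w₀ * N (kk 0) v₀),
    fun j => ?_⟩
  have h1 := hmain j
  have hNN : 0 < N (kk 0) w₀ * N (kk 0) v₀ := mul_pos hNw hNv
  set X : ℝ := mn ((ρ.1 g) ^ j).1 with hX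
  set Y : ℝ := mn (((ρ.1 g)⁻¹) ^ j).1 with hY
  have hX0 : 0 ≤ X := mn_nonneg _
  have hY0 : 0 ≤ Y := mn_nonneg _
  have b1 : N (kk 0) (P (kk 0) *ᵥ ((ρ.1 (h' 0 * (g ^ j)⁻¹ * (h' 0)⁻¹)).1 *ᵥ v₀)) ≤
      M₀ * (M₁ * (A₁ * Y * ‖v₀‖)) := by
    refine (hNb _ (hkc 0) _).2.trans ?_
    apply mul_le_mul_of_nonneg_left _ hM₀
    refine (mn_mulVec _ _).trans ?_
    have h2 := hconj (g ^ j)⁻¹ v₀
    rw [← inv_pow, rep_pow, rep_inv] at h2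
    rw [← inv_pow]
    exact mul_le_mul (hPb _ (hkc 0)) h2 (norm_nonneg _) hM₁
  have b2 : N (kk 0) ((ρ.1 (h' 0 * g ^ j * (h' 0)⁻¹)).1 *ᵥ w₀ -
      P (kk 0) *ᵥ ((ρ.1 (h' 0 * g ^ j * (h' 0)⁻¹)).1 *ᵥ w₀)) ≤
      M₀ * ((1 + M₁) * (A₁ * X * ‖w₀‖)) := by
    refine (hNb _ (hkc 0) _).2.trans ?_
    apply mul_le_mul_of_nonneg_left _ hM₀
    have h2 := hconj (g ^ j) w₀
    rw [rep_pow] at h2
    have h3 : ‖P (kk 0) *ᵥ ((ρ.1 (h' 0 * g ^ j * (h' 0)⁻¹)).1 *ᵥ w₀)‖ ≤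
        M₁ * ‖(ρ.1 (h' 0 * g ^ j * (h' 0)⁻¹)).1 *ᵥ w₀‖ :=
      (mn_mulVec _ _).trans (mul_le_mul_of_nonneg_right (hPb _ (hkc 0)) (norm_nonneg _))
    calc ‖(ρ.1 (h' 0 * g ^ j * (h' 0)⁻¹)).1 *ᵥ w₀ -
        P (kk 0) *ᵥ ((ρ.1 (h' 0 * g ^ j * (h' 0)⁻¹)).1 *ᵥ w₀)‖
        ≤ ‖(ρ.1 (h' 0 * g ^ j * (h' 0)⁻¹)).1 *ᵥ w₀‖ +
          ‖P (kk 0) *ᵥ ((ρ.1 (h' 0 * g ^ j * (h' 0)⁻¹)).1 *ᵥ w₀)‖ := norm_sub_le _ _
      _ ≤ (1 + M₁) * ‖(ρ.1 (h' 0 * g ^ j * (h' 0)⁻¹)).1 *ᵥ w₀‖ := by linarith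
      _ ≤ _ := by gcongr
  have hexp : Real.exp (n * Real.log 2 * j) = 2 ^ (n * j) := by
    rw [mul_right_comm, ← Nat.cast_mul, Real.exp_nat_mul, Real.exp_log (by norm_num)]
  have h3 : N (kk 0) w₀ * N (kk 0) v₀ ≤ (1 / 2) ^ (n * j) *
      ((M₀ * (M₁ * (A₁ * Y * ‖v₀‖))) * (M₀ * ((1 + M₁) * (A₁ * X * ‖w₀‖)))) := by
    refine h1.trans ?_
    apply mul_le_mul_of_nonneg_left _ (by positivity)
    apply mul_le_mul b1 b2 (apply_nonneg _ _)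
    positivity
  rw [hexp]
  have h4 : (2 : ℝ) ^ (n * j) * (1 / 2) ^ (n * j) = 1 := by
    rw [← mul_pow]; norm_num
  have h5 : (2 : ℝ) ^ (n * j) * (N (kk 0) w₀ * N (kk 0) v₀) ≤
      (M₀ * (M₁ * (A₁ * ‖v₀‖))) * (M₀ * ((1 + M₁) * (A₁ * ‖w₀‖))) * (X * Y) := by
    calc (2 : ℝ) ^ (n * j) * (N (kk 0) w₀ * N (kk 0) v₀)
        ≤ (2 : ℝ) ^ (n * j) * ((1 / 2) ^ (n * j) *
          ((M₀ * (M₁ * (A₁ * Y * ‖v₀‖))) * (M₀ * ((1 + M₁) * (A₁ * X * ‖w₀‖))))) := by gcongr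
      _ = ((2 : ℝ) ^ (n * j) * (1 / 2) ^ (n * j)) *
          ((M₀ * (M₁ * (A₁ * Y * ‖v₀‖))) * (M₀ * ((1 + M₁) * (A₁ * X * ‖w₀‖)))) := by ring
      _ = _ := by rw [h4]; ring
  rw [div_mul_eq_mul_div, le_div_iff₀ hNN]
  exact h5

end Pool.Agent.U81.SA
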