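import Pool.Agent.U81.SA.Dom2

/-!
# The dominated splitting of a Fuchsian representation
-/

set_option autoImplicit false

open scoped MatrixGroups UpperHalfPlane Matrix Topology ComplexConjugate
open UpperHalfPlane Pool.Agent.Y473.SA

namespace Pool.Agent.U81.SA

/-- a real matrix as a complex matrix -/
noncomputable def cm (g : SL(2, ℝ)) : Matrix (Fin 2) (Fin 2) ℂ :=
  (g : Matrix (Fin 2) (Fin 2) ℝ).map (algebraMap ℝ ℂ)

theorem cm_apply (g : SL(2, ℝ)) (i j : Fin 2) : cm g i j = ((g i j : ℝ) : ℂ) := rfl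

theorem cm_mul (g h : SL(2, ℝ)) : cm (g * h) = cm g * cm h := by
  unfold cm
  rw [Matrix.SpecialLinearGroup.coe_mul, Matrix.map_mul]

theorem cm_one : cm 1 = 1 := by
  unfold cm
  rw [Matrix.SpecialLinearGroup.coe_one, Matrix.map_one _ (map_zero _) (map_one _)]

theorem cm_mulVec (g : SL(2, ℝ)) (v : Fin 2 → ℂ) :
    (cm g *ᵥ v) 0 = (g 0 0 : ℝ) * v 0 + (g 0 1 : ℝ) * v 1 ∧
    (cm g *ᵥ v) 1 = (g 1 0 : ℝ) * v 0 + (g 1 1 : ℝ) * v 1 := by
  constructor <;> rw [Matrix.mulVec, dotProduct, Fin.sum_univ_two] <;> rfl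

theorem cm_mulVec_mul (g h : SL(2, ℝ)) (v : Fin 2 → ℂ) :
    cm (g * h) *ᵥ v = cm g *ᵥ (cm h *ᵥ v) := by
  rw [cm_mul, Matrix.mulVec_mulVec]

theorem cm_inv_mulVec (g : SL(2, ℝ)) (v : Fin 2 → ℂ) : cm g⁻¹ *ᵥ (cm g *ᵥ v) = v := by
  rw [← cm_mulVec_mul, inv_mul_cancel, cm_one, Matrix.one_mulVec]

theorem cm_mulVec_inv (g : SL(2, ℝ)) (v : Fin 2 → ℂ) : cm g *ᵥ (cm g⁻¹ *ᵥ v) = v := by
  rw [← cm_mulVec_mul, mul_inv_cancel, cm_one, Matrix.one_mulVec]

/-- the norm of the fibre over a point of the plane -/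
noncomputable def nz (z : ℍ) : Seminorm ℂ (Fin 2 → ℂ) :=
  Seminorm.of (fun v => (‖v 0 - z * v 1‖ + ‖v 0 - conj (z : ℂ) * v 1‖) / Real.sqrt z.im)
    (fun v w => by
      rw [← add_div]
      apply div_le_div_of_nonneg_right _ (Real.sqrt_nonneg _)
      have h1 : (v + w) 0 - z * (v + w) 1 = (v 0 - z * v 1) + (w 0 - z * w 1) := by
        simp only [Pi.add_apply]; ring
      have h2 : (v + w) 0 - conj (z : ℂ) * (v + w) 1 =
          (v 0 - conj (z : ℂ) * v 1) + (w 0 - conj (z : ℂ) * w 1) := by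
        simp only [Pi.add_apply]; ring
      rw [h1, h2]
      have := norm_add_le (v 0 - z * v 1) (w 0 - z * w 1)
      have := norm_add_le (v 0 - conj (z : ℂ) * v 1) (w 0 - conj (z : ℂ) * w 1)
      linarith)
    (fun a v => by
      have h1 : (a • v) 0 - z * (a • v) 1 = a * (v 0 - z * v 1) := by
        simp only [Pi.smul_apply, smul_eq_mul]; ring
      have h2 : (a • v) 0 - conj (z : ℂ) * (a • v) 1 = a * (v 0 - conj (z : ℂ) * v 1) := by
        simp only [Pi.smul_apply, smul_eq_mul]; ring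
      rw [h1, h2, norm_mul, norm_mul]
      ring)

theorem nz_apply (z : ℍ) (v : Fin 2 → ℂ) :
    nz z v = (‖v 0 - z * v 1‖ + ‖v 0 - conj (z : ℂ) * v 1‖) / Real.sqrt z.im := rfl

attribute [irreducible] nz

theorem nz_eq_zero {z : ℍ} {v : Fin 2 → ℂ} (h : nz z v = 0) : v = 0 := by
  rw [nz_apply, div_eq_zero_iff] at h
  have hs : Real.sqrt z.im ≠ 0 := (Real.sqrt_pos.2 z.im_pos).ne'
  have h1 := h.resolve_right hs
  have e1 : ‖v 0 - z * v 1‖ = 0 := by
    have := norm_nonneg (v 0 - z * v 1)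
    have := norm_nonneg (v 0 - conj (z : ℂ) * v 1)
    linarith
  have e2 : ‖v 0 - conj (z : ℂ) * v 1‖ = 0 := by
    have := norm_nonneg (v 0 - z * v 1)
    have := norm_nonneg (v 0 - conj (z : ℂ) * v 1)
    linarith
  rw [norm_eq_zero] at e1 e2
  have h3 : ((z : ℂ) - conj (z : ℂ)) * v 1 = 0 := by linear_combination e2 - e1
  have h4 : (z : ℂ) - conj (z : ℂ) ≠ 0 := by
    intro h0
    have := congrArg Complex.im h0
    simp only [Complex.sub_im, Complex.conj_im, Complex.zero_im] at this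
    have h5 : (z : ℂ).im = z.im := rfl
    rw [h5] at this
    have := z.im_pos
    linarith
  have h5 : v 1 = 0 := (mul_eq_zero.1 h3).resolve_left h4
  have h6 : v 0 = 0 := by rw [h5, mul_zero, sub_zero] at e1; exact e1
  funext i
  fin_cases i
  · exact h6
  · exact h5

theorem nz_smul (g : SL(2, ℝ)) (z : ℍ) (v : Fin 2 → ℂ) : nz (g • z) (cm g *ᵥ v) = nz z v := by
  obtain ⟨e0, e1⟩ := cm_mulVec g v
  have hdet : ((g 0 0 : ℝ) : ℂ) * (g 1 1 : ℝ) - (g 0 1 : ℝ) * (g 1 0 : ℝ) = 1 := by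
    exact_mod_cast sl_det g
  rw [nz_apply, nz_apply, e0, e1]
  set a : ℝ := g 0 0
  set b : ℝ := g 0 1
  set c : ℝ := g 1 0
  set d : ℝ := g 1 1
  have hz : ((g • z : ℍ) : ℂ) = ((a : ℂ) * z + b) / ((c : ℂ) * z + d) := by
    have := coe_specialLinearGroup_apply g z
    simpa using this
  have hden : (c : ℂ) * z + d ≠ 0 := by
    intro h0
    have h1 := congrArg Complex.im h0
    have h2 := congrArg Complex.re h0
    simp only [Complex.add_im, Complex.mul_im, Complex.ofReal_re, Complex.ofReal_im, zero_mul,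
      add_zero, Complex.zero_im, Complex.add_re, Complex.mul_re, sub_zero, Complex.zero_re] at h1 h2
    have hzi : (z : ℂ).im = z.im := rfl
    rw [hzi] at h1
    have hc : c = 0 := (mul_eq_zero.1 h1).resolve_right z.im_pos.ne'
    rw [hc, zero_mul, zero_add] at h2
    rw [hc, h2] at hdet
    norm_num at hdet
  have hden' : (c : ℂ) * conj (z : ℂ) + d ≠ 0 := by
    intro h0
    apply hden
    have := congrArg conj h0
    simpa using this
  have hnd : ‖(c : ℂ) * conj (z : ℂ) + d‖ = ‖(c : ℂ) * z + d‖ := by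
    rw [← Complex.norm_conj ((c : ℂ) * z + d)]
    congr 1
    simp
  have h1 : ((a : ℂ) * v 0 + b * v 1) - ((g • z : ℍ) : ℂ) * (c * v 0 + d * v 1) =
      (v 0 - z * v 1) / ((c : ℂ) * z + d) := by
    rw [hz, eq_div_iff hden]
    have hX : ((a : ℂ) * z + b) / ((c : ℂ) * z + d) * ((c : ℂ) * z + d) = (a : ℂ) * z + b :=
      div_mul_cancel₀ _ hden
    linear_combination (-((c : ℂ) * v 0 + d * v 1)) * hX + (v 0 - z * v 1) * hdet
  have h2 : ((a : ℂ) * v 0 + b * v 1) - conj ((g • z : ℍ) : ℂ) * (c * v 0 + d * v 1) =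
      (v 0 - conj (z : ℂ) * v 1) / ((c : ℂ) * conj (z : ℂ) + d) := by
    rw [hz]
    simp only [map_div₀, map_add, map_mul, Complex.conj_ofReal]
    rw [eq_div_iff hden']
    have hX : ((a : ℂ) * conj (z : ℂ) + b) / ((c : ℂ) * conj (z : ℂ) + d) *
        ((c : ℂ) * conj (z : ℂ) + d) = (a : ℂ) * conj (z : ℂ) + b := div_mul_cancel₀ _ hden'
    linear_combination (-((c : ℂ) * v 0 + d * v 1)) * hX + (v 0 - conj (z : ℂ) * v 1) * hdet
  have h3 : Real.sqrt (g • z).im = Real.sqrt z.im / ‖(c : ℂ) * z + d‖ := by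
    have him : (g • z).im = z.im / ‖(c : ℂ) * z + d‖ ^ 2 := by
      rw [smul_im]
      congr 1
      rw [← Complex.normSq_eq_norm_sq, Complex.normSq_apply]
      simp only [Complex.add_im, Complex.mul_im, Complex.ofReal_re, Complex.ofReal_im, zero_mul,
        add_zero, Complex.add_re, Complex.mul_re, sub_zero]
      have e1 : (z : ℂ).im = z.im := rfl
      have e2 : (z : ℂ).re = z.re := rfl
      rw [e1, e2]
      ring
    rw [him, Real.sqrt_div z.im_pos.le, Real.sqrt_sq (norm_nonneg _)]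
  rw [h1, h2, h3, norm_div, norm_div, hnd]
  have hn : ‖(c : ℂ) * z + d‖ ≠ 0 := norm_ne_zero_iff.2 hden
  have hs : Real.sqrt z.im ≠ 0 := (Real.sqrt_pos.2 z.im_pos).ne'
  generalize ‖(c : ℂ) * z + d‖ = n at hn ⊢
  generalize Real.sqrt z.im = s at hs ⊢
  rw [← add_div, div_div_div_cancel_right₀ hn]

theorem continuous_nz : Continuous (fun p : ℍ × (Fin 2 → ℂ) => nz p.1 p.2) := by
  simp only [nz_apply]
  have hz : Continuous (fun p : ℍ × (Fin 2 → ℂ) => (p.1 : ℂ)) :=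
    UpperHalfPlane.continuous_coe.comp continuous_fst
  have h0 : Continuous (fun p : ℍ × (Fin 2 → ℂ) => p.2 0) := (continuous_apply 0).comp continuous_snd
  have h1 : Continuous (fun p : ℍ × (Fin 2 → ℂ) => p.2 1) := (continuous_apply 1).comp continuous_snd
  refine Continuous.div ?_ ?_ ?_
  · exact ((h0.sub (hz.mul h1)).norm).add
      ((h0.sub ((Complex.continuous_conj.comp hz).mul h1)).norm)
  · exact Real.continuous_sqrt.comp (UpperHalfPlane.continuous_im.comp continuous_fst)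
  · exact fun p => (Real.sqrt_pos.2 p.1.im_pos).ne'

theorem nz_vp (t : ℝ) (u : Fin 2 → ℂ) : nz (vp t) u =
    (‖u 0 - Real.exp t * Complex.I * u 1‖ + ‖u 0 + Real.exp t * Complex.I * u 1‖) /
      Real.exp (t / 2) := by
  rw [nz_apply]
  have e1 : ((vp t : ℍ) : ℂ) = Real.exp t * Complex.I := by
    apply Complex.ext
    · change (0 : ℝ) = _
      rw [Complex.mul_re, Complex.I_re, Complex.I_im, Complex.ofReal_im]
      ring
    · change Real.exp t = _
      rw [Complex.mul_im, Complex.I_re, Complex.I_im, Complex.ofReal_re]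
      ring
  have e2 : Real.sqrt (vp t).im = Real.exp (t / 2) := by
    rw [vp_im, Real.exp_half]
  rw [e1, e2]
  congr 3
  rw [map_mul, Complex.conj_ofReal, Complex.conj_I]
  ring

theorem nz_vp_unst (t : ℝ) {u : Fin 2 → ℂ} (hu : u 0 = 0) :
    nz (vp t) u = Real.exp (t / 2) * nz (vp 0) u := by
  have hI : ∀ s : ℝ, ‖(Real.exp s : ℂ) * Complex.I * u 1‖ = Real.exp s * ‖u 1‖ := fun s => by
    rw [norm_mul, norm_mul, Complex.norm_I, mul_one, Complex.norm_real,
      Real.norm_of_nonneg (Real.exp_pos s).le]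
  have e : Real.exp t = Real.exp (t / 2) * Real.exp (t / 2) := by rw [← Real.exp_add, add_halves]
  rw [nz_vp, nz_vp, hu, zero_sub, zero_add, zero_sub, zero_add, norm_neg, norm_neg, hI, hI, e]
  simp only [Real.exp_zero, zero_div]
  have := (Real.exp_pos (t / 2)).ne'
  field_simp

theorem nz_vp_st {t : ℝ} (ht : 0 ≤ t) {u : Fin 2 → ℂ} (hu : u 1 = 0) :
    nz (vp t) u ≤ nz (vp 0) u := by
  rw [nz_vp, nz_vp, hu]
  simp only [mul_zero, sub_zero, add_zero, zero_div, Real.exp_zero, div_one]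
  have h1 : 1 ≤ Real.exp (t / 2) := Real.one_le_exp (by linarith)
  exact div_le_self (by positivity) h1

/-! ### the projection -/

/-- the projection as a function of two points of the line -/
noncomputable def fm (z w : ℍ) : Matrix (Fin 2) (Fin 2) ℝ :=
  (Real.exp 1 - (Real.exp 1)⁻¹)⁻¹ •
    !![Real.exp 1 - (w.re ^ 2 + w.im ^ 2 - w.re * z.re) / (z.im * w.im),
      -((w.re * (z.re ^ 2 + z.im ^ 2) - (w.re ^ 2 + w.im ^ 2) * z.re) / (z.im * w.im));
      -((w.re - z.re) / (z.im * w.im)),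
      Real.exp 1 - (z.re ^ 2 + z.im ^ 2 - w.re * z.re) / (z.im * w.im)]

theorem aux1 {A B C D0 D1 E : ℝ} (h0 : D0 ≠ 0) (h1 : D1 ≠ 0) (hE : E ≠ 0) :
    (A / D1 - B / D1 * (C / D0)) / (1 / D0 * (E / D1)) = (A * D0 - B * C) / E := by
  field_simp

theorem aux2 {A B C F D0 D1 E : ℝ} (h0 : D0 ≠ 0) (h1 : D1 ≠ 0) (hE : E ≠ 0) :
    (A / D1 * (B / D0) - C / D1 * (F / D0)) / (1 / D0 * (E / D1)) = (A * B - C * F) / E := by
  field_simp

theorem aux3 {A B D0 D1 E : ℝ} (h0 : D0 ≠ 0) (h1 : D1 ≠ 0) (hE : E ≠ 0) :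
    (A / D1 - B / D0) / (1 / D0 * (E / D1)) = (A * D0 - B * D1) / E := by
  field_simp

theorem aux4 {A B C D0 D1 E : ℝ} (h0 : D0 ≠ 0) (h1 : D1 ≠ 0) (hE : E ≠ 0) :
    (A / D0 - B / D1 * (C / D0)) / (1 / D0 * (E / D1)) = (A * D1 - B * C) / E := by
  field_simp

theorem fm_geod (h : SL(2, ℝ)) : fm ((geod h).1 0) ((geod h).1 1) =
    !![-(h 0 1 * h 1 0), h 0 0 * h 0 1; -(h 1 0 * h 1 1), h 0 0 * h 1 1] := by
  have hdet := sl_det h
  set E := Real.exp 1 with hE
  have hE1 : 1 < E := Real.one_lt_exp_iff.2 one_pos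
  have hE0 : 0 < E := by linarith
  have i0 : ((geod h).1 0).im = 1 / (h 1 1 ^ 2 + h 1 0 ^ 2) := by
    rw [geod_apply, smul_im, vp_im, vp_re, Real.exp_zero]; ring_nf
  have r0 : ((geod h).1 0).re = (h 0 1 * h 1 1 + h 0 0 * h 1 0) / (h 1 1 ^ 2 + h 1 0 ^ 2) := by
    rw [geod_apply, smul_re, vp_im, vp_re, Real.exp_zero]; ring_nf
  have i1 : ((geod h).1 1).im = E / (h 1 1 ^ 2 + h 1 0 ^ 2 * E ^ 2) := by
    rw [geod_apply, smul_im, vp_im, vp_re, ← hE]; ring_nf
  have r1 : ((geod h).1 1).re =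
      (h 0 1 * h 1 1 + h 0 0 * h 1 0 * E ^ 2) / (h 1 1 ^ 2 + h 1 0 ^ 2 * E ^ 2) := by
    rw [geod_apply, smul_re, vp_im, vp_re, ← hE]; ring_nf
  unfold fm
  rw [i0, r0, i1, r1, ← hE]
  set a := h 0 0
  set b := h 0 1
  set c := h 1 0
  set d := h 1 1
  have hq : 0 < d ^ 2 + c ^ 2 := by
    rcases eq_or_ne c 0 with hc | hc
    · have hd : d ≠ 0 := by rintro hd; rw [hc, hd] at hdet; norm_num at hdet
      positivity
    · positivity
  have hq1 : 0 < d ^ 2 + c ^ 2 * E ^ 2 := by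
    rcases eq_or_ne c 0 with hc | hc
    · have hd : d ≠ 0 := by rintro hd; rw [hc, hd] at hdet; norm_num at hdet
      positivity
    · positivity
  have hEE : E - E⁻¹ ≠ 0 := by
    have : E⁻¹ < 1 := inv_lt_one_of_one_lt₀ hE1
    linarith
  have hE2 : E ^ 2 - 1 ≠ 0 := by nlinarith
  have n0 : ((b * d + a * c) / (d ^ 2 + c ^ 2)) ^ 2 + (1 / (d ^ 2 + c ^ 2)) ^ 2 =
      (a ^ 2 + b ^ 2) / (d ^ 2 + c ^ 2) := by
    have e : (b * d + a * c) ^ 2 + 1 = (a ^ 2 + b ^ 2) * (d ^ 2 + c ^ 2) := by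
      have : (a * d - b * c) ^ 2 = 1 := by rw [hdet]; norm_num
      linear_combination -this
    field_simp
    linear_combination e
  have n1 : ((b * d + a * c * E ^ 2) / (d ^ 2 + c ^ 2 * E ^ 2)) ^ 2 +
      (E / (d ^ 2 + c ^ 2 * E ^ 2)) ^ 2 = (b ^ 2 + a ^ 2 * E ^ 2) / (d ^ 2 + c ^ 2 * E ^ 2) := by
    have e : (b * d + a * c * E ^ 2) ^ 2 + E ^ 2 =
        (b ^ 2 + a ^ 2 * E ^ 2) * (d ^ 2 + c ^ 2 * E ^ 2) := by
      have : (a * d - b * c) ^ 2 = 1 := by rw [hdet]; norm_num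
      linear_combination -E ^ 2 * this
    field_simp
    linear_combination e
  rw [n0, n1]
  have hD0 := hq.ne'
  have hD1 := hq1.ne'
  have hEne := hE0.ne'
  have q00 := aux1 (A := b ^ 2 + a ^ 2 * E ^ 2) (B := b * d + a * c * E ^ 2) (C := b * d + a * c)
    hD0 hD1 hEne
  have q01 := aux2 (A := b * d + a * c * E ^ 2) (B := a ^ 2 + b ^ 2) (C := b ^ 2 + a ^ 2 * E ^ 2)
    (F := b * d + a * c) hD0 hD1 hEne
  have q10 := aux3 (A := b * d + a * c * E ^ 2) (B := b * d + a * c) hD0 hD1 hEne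
  have q11 := aux4 (A := a ^ 2 + b ^ 2) (B := b * d + a * c * E ^ 2) (C := b * d + a * c)
    hD0 hD1 hEne
  rw [q00, q01, q10, q11]
  have hEc : E * E⁻¹ = 1 := mul_inv_cancel₀ hEne
  ext i j
  fin_cases i <;> fin_cases j <;>
    simp only [Matrix.smul_apply, Matrix.of_apply, Matrix.cons_val', Matrix.cons_val_zero,
      Matrix.cons_val_one, Matrix.cons_val_fin_one, smul_eq_mul, Fin.zero_eta, Fin.mk_one,
      Fin.isValue] <;>
    rw [inv_mul_eq_iff_eq_mul₀ hEE, div_eq_mul_inv]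
  · linear_combination (-(E⁻¹) * (a * d * E ^ 2 - b * c) - E) * hdet + 
      (-(a * d * E)) * hEc
  · linear_combination (a * b * E⁻¹ * (E ^ 2 - 1)) * hdet + (a * b * E) * hEc
  · linear_combination (-(c * d * E⁻¹ * (E ^ 2 - 1))) * hdet - (c * d * E) * hEc
  · linear_combination (-(E⁻¹) * (a * d - b * c * E ^ 2) - E) * hdet + (b * c * E) * hEc

end Pool.Agent.U81.SA
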