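import Pool.Agent.U81.SA.Cr2

/-!
# A criterion for not being simple Anosov
-/

set_option autoImplicit false

open scoped MatrixGroups UpperHalfPlane Matrix Topology ComplexConjugate
open UpperHalfPlane Pool.Agent.Y473.SA Filter

namespace Pool.Agent.U81.SA

variable {Γ : Subgroup SL(2, ℝ)}

theorem exists_small {d : ℕ} (U : Submodule ℂ (Fin d → ℂ)) (B : Finset (Fin d))
    (h : B.card < Module.finrank ℂ U) (F : Matrix (Fin d) (Fin d) ℂ) :
    ∃ v ∈ U, v ≠ 0 ∧ ∀ i ∈ B, (F *ᵥ v) i = 0 := by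
  let f : U →ₗ[ℂ] (B → ℂ) :=
    (LinearMap.funLeft ℂ ℂ (Subtype.val : B → Fin d)).comp (F.mulVecLin.comp U.subtype)
  have h1 : Module.finrank ℂ (B → ℂ) < Module.finrank ℂ U := by
    rw [Module.finrank_fintype_fun_eq_card, Fintype.card_coe]
    exact h
  have h2 := LinearMap.ker_ne_bot_of_finrank_lt (f := f) h1
  obtain ⟨v, hv, hv0⟩ := Submodule.exists_mem_ne_zero_of_ne_bot h2
  refine ⟨v.1, v.2, fun h => hv0 (Subtype.ext h), fun i hi => ?_⟩
  exact congrFun (LinearMap.mem_ker.1 hv) ⟨i, hi⟩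

theorem not_anosov {d k : ℕ} {ρ : Rep Γ d} {c : UT} {l : ℝ} (hc : IsSimpleClosed Γ c l) {g : Γ}
    (hg : act g c = flow l c) {F G : Matrix (Fin d) (Fin d) ℂ} (hGF : G * F = 1) {μ : Fin d → ℂ}
    (hQ : F * (ρ.1 g⁻¹).1 = Matrix.diagonal μ * F) {r : ℝ} (hr : 0 < r)
    (h1 : (Finset.univ.filter fun i => r < ‖μ i‖).card < k)
    (h2 : (Finset.univ.filter fun i => ‖μ i‖ < r).card + k < d) : ¬ IsSimpleAnosov k ρ := by
  rintro ⟨P, N, C, a, hC, ha, hPc, hP, hPact, hPflow, hNc, hN0, hNact, hdom⟩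
  have hcB : c ∈ birmanSeries Γ := subset_closure ⟨l, hc⟩
  have hl : 0 < l := hc.1
  set Q := (ρ.1 g⁻¹).1 with hQdef
  obtain ⟨hPP, hrank⟩ := hP c hcB
  have hr1 : Module.finrank ℂ (LinearMap.range (P c).mulVecLin) = k := hrank
  have hr2 : Module.finrank ℂ (LinearMap.ker (P c).mulVecLin) = d - k := by
    have := LinearMap.finrank_range_add_finrank_ker (P c).mulVecLin
    rw [hr1, Module.finrank_fintype_fun_eq_card, Fintype.card_fin] at this
    omega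
  obtain ⟨v, hvr, hv0, hv⟩ := exists_small (LinearMap.range (P c).mulVecLin) _
    (by rw [hr1]; exact h1) F
  obtain ⟨w, hwk, hw0, hw⟩ := exists_small (LinearMap.ker (P c).mulVecLin) _
    (by rw [hr2]; exact (by omega : (Finset.univ.filter fun i => ‖μ i‖ < r).card < d - k)) F
  have hPv : P c *ᵥ v = v := by
    obtain ⟨u, rfl⟩ := hvr
    rw [Matrix.mulVecLin_apply, Matrix.mulVec_mulVec, hPP]
  have hPw : P c *ᵥ w = 0 := hwk
  -- the coordinates of the iterates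
  have hco1 : ∀ x : Fin d → ℂ, F *ᵥ (Q *ᵥ x) = fun i => μ i * (F *ᵥ x) i := by
    intro x
    rw [Matrix.mulVec_mulVec, hQ, ← Matrix.mulVec_mulVec]
    funext i
    rw [Matrix.mulVec_diagonal]
  have hco : ∀ (n : ℕ) (x : Fin d → ℂ), F *ᵥ ((Q ^ n) *ᵥ x) = fun i => μ i ^ n * (F *ᵥ x) i := by
    intro n x
    induction n with
    | zero => simp
    | succ n ih =>
      rw [pow_succ', ← Matrix.mulVec_mulVec, hco1, ih]
      funext i
      rw [pow_succ']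
      ring
  -- the norm along the orbit
  have hN : ∀ (n : ℕ) (x : Fin d → ℂ), N (flow (n * l) c) x = N c ((Q ^ n) *ᵥ x) := by
    intro n x
    have e1 : act (g ^ n) c = flow (n * l) c := by
      have := zpow_axis hg n
      rw [zpow_natCast] at this
      rw [this]
      norm_cast
    have e2 : (ρ.1 (g ^ n)⁻¹).1 = Q ^ n := by
      rw [← inv_pow, rep_pow]
      rfl
    have e3 := hNact c hcB (g ^ n) ((ρ.1 (g ^ n)⁻¹).1 *ᵥ x)
    rw [← rep_mulVec, mul_inv_cancel, rep_one, e1, e2] at e3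
    have e4 : (1 : SL(d, ℂ)).1 *ᵥ x = x := sl_one_mulVec x
    rw [e4] at e3
    exact e3
  obtain ⟨m₀, M₀, hm₀, hM₀, hb⟩ := norm_bounds hNc hN0 (dist I (c.1 0))
  have hcK : c ∈ cpt Γ (dist I (c.1 0)) := ⟨hcB, (show dist I (c.1 0) ≤ dist I (c.1 0) from le_refl _)⟩
  have hbc := hb c hcK
  have hGF' : ∀ x : Fin d → ℂ, G *ᵥ (F *ᵥ x) = x := fun x => by
    rw [Matrix.mulVec_mulVec, hGF, Matrix.one_mulVec]
  -- upper bound
  have hup : ∀ n : ℕ, N c ((Q ^ n) *ᵥ v) ≤ M₀ * (mn G * (r ^ n * ‖F *ᵥ v‖)) := by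
    intro n
    refine (hbc _).2.trans (mul_le_mul_of_nonneg_left ?_ hM₀)
    have e1 : ‖F *ᵥ ((Q ^ n) *ᵥ v)‖ ≤ r ^ n * ‖F *ᵥ v‖ := by
      rw [hco, pi_norm_le_iff_of_nonneg (by positivity)]
      intro i
      rw [norm_mul, norm_pow]
      by_cases hi : r < ‖μ i‖
      · rw [hv i (by simp [hi]), norm_zero, mul_zero]
        positivity
      · rw [not_lt] at hi
        have := norm_le_pi_norm (F *ᵥ v) i
        gcongr
    calc ‖(Q ^ n) *ᵥ v‖ = ‖G *ᵥ (F *ᵥ ((Q ^ n) *ᵥ v))‖ := by rw [hGF']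
      _ ≤ mn G * ‖F *ᵥ ((Q ^ n) *ᵥ v)‖ := mn_mulVec _ _
      _ ≤ _ := mul_le_mul_of_nonneg_left e1 (mn_nonneg _)
  -- lower bound
  obtain ⟨i, hi⟩ : ∃ i, (F *ᵥ w) i ≠ 0 := by
    by_contra hcon
    push Not at hcon
    apply hw0
    rw [← hGF' w]
    have : F *ᵥ w = 0 := funext hcon
    rw [this, Matrix.mulVec_zero]
  have hir : r ≤ ‖μ i‖ := by
    by_contra hcon
    rw [not_le] at hcon
    exact hi (hw i (by simp [hcon]))
  have hlow : ∀ n : ℕ, m₀ * (r ^ n * ‖(F *ᵥ w) i‖) ≤ mn F * N c ((Q ^ n) *ᵥ w) := by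
    intro n
    have e1 : r ^ n * ‖(F *ᵥ w) i‖ ≤ mn F * ‖(Q ^ n) *ᵥ w‖ := by
      calc r ^ n * ‖(F *ᵥ w) i‖ ≤ ‖μ i‖ ^ n * ‖(F *ᵥ w) i‖ := by gcongr
        _ = ‖(F *ᵥ ((Q ^ n) *ᵥ w)) i‖ := by rw [hco, norm_mul, norm_pow]
        _ ≤ ‖F *ᵥ ((Q ^ n) *ᵥ w)‖ := norm_le_pi_norm _ i
        _ ≤ _ := mn_mulVec _ _
    calc m₀ * (r ^ n * ‖(F *ᵥ w) i‖) ≤ m₀ * (mn F * ‖(Q ^ n) *ᵥ w‖) :=
          mul_le_mul_of_nonneg_left e1 hm₀.le
      _ = mn F * (m₀ * ‖(Q ^ n) *ᵥ w‖) := by ring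
      _ ≤ _ := mul_le_mul_of_nonneg_left (hbc _).1 (mn_nonneg _)
  have hNv : 0 < N c v := lt_of_le_of_ne (apply_nonneg _ _) fun h => hv0 (hN0 c hcB v h.symm)
  set A := m₀ * ‖(F *ᵥ w) i‖ * N c v with hA
  have hApos : 0 < A := by
    have := norm_pos_iff.2 hi
    positivity
  set B := mn F * C * M₀ * mn G * ‖F *ᵥ v‖ * N c w with hB
  have hkey : ∀ n : ℕ, A ≤ B * Real.exp (-a * (n * l)) := by
    intro n
    have e1 := hdom c hcB v w hPv hPw (n * l) (by positivity)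
    rw [hN, hN] at e1
    have e2 := hup n
    have e3 := hlow n
    have hF := mn_nonneg F
    have hrn : 0 < r ^ n := pow_pos hr n
    have hNw : 0 ≤ N c w := apply_nonneg _ _
    have hexp := Real.exp_pos (-a * (n * l))
    have e4 : r ^ n * A ≤ r ^ n * (B * Real.exp (-a * (n * l))) := by
      calc r ^ n * A = (m₀ * (r ^ n * ‖(F *ᵥ w) i‖)) * N c v := by rw [hA]; ring
        _ ≤ (mn F * N c ((Q ^ n) *ᵥ w)) * N c v := mul_le_mul_of_nonneg_right e3 hNv.le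
        _ = mn F * (N c ((Q ^ n) *ᵥ w) * N c v) := by ring
        _ ≤ mn F * (C * Real.exp (-a * (n * l)) * (N c ((Q ^ n) *ᵥ v) * N c w)) :=
            mul_le_mul_of_nonneg_left e1 hF
        _ ≤ mn F * (C * Real.exp (-a * (n * l)) *
              (M₀ * (mn G * (r ^ n * ‖F *ᵥ v‖)) * N c w)) := by gcongr
        _ = _ := by rw [hB]; ring
    exact le_of_mul_le_mul_left e4 hrn
  have hlim : Tendsto (fun n : ℕ => B * Real.exp (-a * (n * l))) atTop (𝓝 (B * 0)) := by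
    refine Tendsto.const_mul _ ?_
    refine Real.tendsto_exp_atBot.comp ?_
    have : (fun n : ℕ => -a * ((n : ℝ) * l)) = fun n : ℕ => (n : ℝ) * (-(a * l)) := by
      funext n; ring
    rw [this]
    exact tendsto_natCast_atTop_atTop.atTop_mul_const_of_neg (by nlinarith [mul_pos ha hl])
  rw [mul_zero] at hlim
  have := ge_of_tendsto' hlim hkey
  linarith

end Pool.Agent.U81.SA
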