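import Pool.Agent.Y473.SA.Defs

/-!
# A submultiplicative norm of matrices and the growth of powers
-/

set_option autoImplicit false

open scoped MatrixGroups Matrix

namespace Pool.Agent.U81.SA

variable {d : ℕ}

/-- the sum of the absolute values of the entries -/
noncomputable def mn (A : Matrix (Fin d) (Fin d) ℂ) : ℝ := ∑ i, ∑ j, ‖A i j‖

theorem mn_nonneg (A : Matrix (Fin d) (Fin d) ℂ) : 0 ≤ mn A :=
  Finset.sum_nonneg fun _ _ => Finset.sum_nonneg fun _ _ => norm_nonneg _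

theorem mn_row (A : Matrix (Fin d) (Fin d) ℂ) (i : Fin d) : ∑ j, ‖A i j‖ ≤ mn A :=
  Finset.single_le_sum (f := fun i => ∑ j, ‖A i j‖)
    (fun _ _ => Finset.sum_nonneg fun _ _ => norm_nonneg _) (Finset.mem_univ i)

theorem mn_mul (A B : Matrix (Fin d) (Fin d) ℂ) : mn (A * B) ≤ mn A * mn B := by
  unfold mn
  rw [Finset.sum_mul]
  refine Finset.sum_le_sum fun i _ => ?_
  calc ∑ j, ‖(A * B) i j‖ ≤ ∑ j, ∑ k, ‖A i k‖ * ‖B k j‖ := by
        refine Finset.sum_le_sum fun j _ => ?_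
        rw [Matrix.mul_apply]
        refine (norm_sum_le _ _).trans (le_of_eq ?_)
        simp only [norm_mul]
    _ = ∑ k, ‖A i k‖ * ∑ j, ‖B k j‖ := by
        rw [Finset.sum_comm]
        simp only [Finset.mul_sum]
    _ ≤ ∑ k, ‖A i k‖ * mn B := by
        gcongr with k _
        exact mn_row B k
    _ = _ := by rw [← Finset.sum_mul]; rfl

theorem mn_mulVec (A : Matrix (Fin d) (Fin d) ℂ) (v : Fin d → ℂ) : ‖A *ᵥ v‖ ≤ mn A * ‖v‖ := by
  rw [pi_norm_le_iff_of_nonneg (mul_nonneg (mn_nonneg _) (norm_nonneg _))]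
  intro i
  rw [Matrix.mulVec, dotProduct]
  refine (norm_sum_le _ _).trans ?_
  calc ∑ j, ‖A i j * v j‖ ≤ ∑ j, ‖A i j‖ * ‖v‖ := by
        refine Finset.sum_le_sum fun j _ => ?_
        rw [norm_mul]
        gcongr
        exact norm_le_pi_norm v j
    _ = (∑ j, ‖A i j‖) * ‖v‖ := by rw [Finset.sum_mul]
    _ ≤ _ := by gcongr; exact mn_row A i

theorem continuous_mn : Continuous (mn : Matrix (Fin d) (Fin d) ℂ → ℝ) := by
  unfold mn
  refine continuous_finsetSum _ fun i _ => continuous_finsetSum _ fun j _ => ?_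
  exact ((continuous_apply j).comp (continuous_apply i)).norm

theorem mn_pow_le (A : Matrix (Fin d) (Fin d) ℂ) (j : ℕ) : mn (A ^ (j + 1)) ≤ mn A ^ (j + 1) := by
  induction j with
  | zero => simp
  | succ j ih =>
    rw [pow_succ, pow_succ (mn A)]
    exact (mn_mul _ _).trans (mul_le_mul_of_nonneg_right ih (mn_nonneg _))

theorem one_le_mn_mul {A B : Matrix (Fin d) (Fin d) ℂ} (hd : 0 < d) (h : A * B = 1) :
    1 ≤ mn A * mn B := by
  have h1 : (1 : ℝ) ≤ mn (1 : Matrix (Fin d) (Fin d) ℂ) := by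
    have h2 := mn_row (1 : Matrix (Fin d) (Fin d) ℂ) ⟨0, hd⟩
    have h3 : ‖(1 : Matrix (Fin d) (Fin d) ℂ) ⟨0, hd⟩ ⟨0, hd⟩‖ ≤
        ∑ j, ‖(1 : Matrix (Fin d) (Fin d) ℂ) ⟨0, hd⟩ j‖ :=
      Finset.single_le_sum (f := fun j => ‖(1 : Matrix (Fin d) (Fin d) ℂ) ⟨0, hd⟩ j‖)
        (fun _ _ => norm_nonneg _) (Finset.mem_univ _)
    rw [Matrix.one_apply_eq, norm_one] at h3
    linarith
  rw [← h] at h1
  exact h1.trans (mn_mul _ _)

/-- The norms `‖A ^ j‖ ‖A ^ (-j)‖` grow at least like `exp (t j)`. -/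
def Gr (A : SL(d, ℂ)) (t : ℝ) : Prop :=
  ∃ C : ℝ, ∀ j : ℕ, Real.exp (t * j) ≤ C * (mn (A ^ j).1 * mn ((A⁻¹) ^ j).1)

theorem Gr.mono {A : SL(d, ℂ)} {t t' : ℝ} (h : Gr A t) (htt : t' ≤ t) : Gr A t' := by
  obtain ⟨C, hC⟩ := h
  refine ⟨C, fun j => le_trans ?_ (hC j)⟩
  gcongr

theorem Gr.conj {A : SL(d, ℂ)} {t : ℝ} (h : Gr A t) (x : SL(d, ℂ)) : Gr (x * A * x⁻¹) t := by
  obtain ⟨C, hC⟩ := h
  set K : ℝ := mn x.1 * mn (x⁻¹).1 with hK
  have hK0 : 0 ≤ K := mul_nonneg (mn_nonneg _) (mn_nonneg _)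
  have key : ∀ y : SL(d, ℂ), mn y.1 ≤ K * mn (x * y * x⁻¹).1 := by
    intro y
    have e : y = x⁻¹ * (x * y * x⁻¹) * x := by group
    have h1 : y.1 = (x⁻¹).1 * (x * y * x⁻¹).1 * x.1 := by
      conv_lhs => rw [e]
      rfl
    rw [h1]
    calc mn ((x⁻¹).1 * (x * y * x⁻¹).1 * x.1) ≤ mn (x⁻¹).1 * mn (x * y * x⁻¹).1 * mn x.1 :=
          (mn_mul _ _).trans (mul_le_mul_of_nonneg_right (mn_mul _ _) (mn_nonneg _))
      _ = _ := by rw [hK]; ring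
  have hC0 : 0 ≤ |C| := abs_nonneg C
  refine ⟨|C| * K ^ 2, fun j => (hC j).trans ?_⟩
  have e1 : x * A ^ j * x⁻¹ = (x * A * x⁻¹) ^ j := (conj_pow).symm
  have e2 : x * (A⁻¹) ^ j * x⁻¹ = ((x * A * x⁻¹)⁻¹) ^ j := by
    rw [← conj_pow]
    congr 1
    group
  have h1 := key (A ^ j)
  have h2 := key ((A⁻¹) ^ j)
  rw [e1] at h1
  rw [e2] at h2
  calc C * (mn (A ^ j).1 * mn ((A⁻¹) ^ j).1) ≤ |C| * (mn (A ^ j).1 * mn ((A⁻¹) ^ j).1) := by
        apply mul_le_mul_of_nonneg_right (le_abs_self C)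
        exact mul_nonneg (mn_nonneg _) (mn_nonneg _)
    _ ≤ |C| * ((K * mn ((x * A * x⁻¹) ^ j).1) * (K * mn (((x * A * x⁻¹)⁻¹) ^ j).1)) := by
        apply mul_le_mul_of_nonneg_left _ hC0
        exact mul_le_mul h1 h2 (mn_nonneg _) (mul_nonneg hK0 (mn_nonneg _))
    _ = _ := by ring

/-- upper bound for the growth -/
theorem Gr.le {A : SL(d, ℂ)} {t : ℝ} (h : Gr A t) (hd : 0 < d) :
    Real.exp t ≤ mn A.1 * mn (A⁻¹).1 := by
  obtain ⟨C, hC⟩ := h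
  set q := mn A.1 * mn (A⁻¹).1 with hq
  have hq1 : 1 ≤ q := by
    apply one_le_mn_mul hd
    have : (A * A⁻¹ : SL(d, ℂ)) = 1 := mul_inv_cancel A
    exact congrArg Subtype.val this
  by_contra hcon
  push Not at hcon
  have hr : 1 < Real.exp t / q := by rw [lt_div_iff₀ (by linarith)]; linarith
  have hb : ∀ j : ℕ, (Real.exp t / q) ^ (j + 1) ≤ |C| := by
    intro j
    rw [div_pow, div_le_iff₀ (by positivity)]
    have h1 := hC (j + 1)
    have e1 : Real.exp (t * ((j + 1 : ℕ) : ℝ)) = Real.exp t ^ (j + 1) := by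
      rw [← Real.exp_nat_mul]; congr 1; ring
    rw [e1] at h1
    refine h1.trans ?_
    have h2 : mn (A ^ (j + 1)).1 ≤ mn A.1 ^ (j + 1) := mn_pow_le A.1 j
    have h3 : mn ((A⁻¹) ^ (j + 1)).1 ≤ mn (A⁻¹).1 ^ (j + 1) := mn_pow_le (A⁻¹).1 j
    calc C * (mn (A ^ (j + 1)).1 * mn ((A⁻¹) ^ (j + 1)).1)
        ≤ |C| * (mn (A ^ (j + 1)).1 * mn ((A⁻¹) ^ (j + 1)).1) := by
          apply mul_le_mul_of_nonneg_right (le_abs_self C)
          exact mul_nonneg (mn_nonneg _) (mn_nonneg _)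
      _ ≤ |C| * (mn A.1 ^ (j + 1) * mn (A⁻¹).1 ^ (j + 1)) := by
          apply mul_le_mul_of_nonneg_left _ (abs_nonneg C)
          exact mul_le_mul h2 h3 (mn_nonneg _) (pow_nonneg (mn_nonneg _) _)
      _ = _ := by rw [hq, mul_pow]
  obtain ⟨j, hj⟩ := pow_unbounded_of_one_lt |C| hr
  have h4 := hb j
  have h5 : (Real.exp t / q) ^ j ≤ (Real.exp t / q) ^ (j + 1) := pow_le_pow_right₀ hr.le (by omega)
  linarith

end Pool.Agent.U81.SA
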