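import Pool.Agent.U81.SA.Step

/-!
# Perturbation of a dominated splitting: many steps
-/

set_option autoImplicit false

open scoped MatrixGroups Matrix

namespace Pool.Agent.U81.SA

variable {d : ℕ}

theorem many_steps {N : ℕ → Seminorm ℂ (Fin d → ℂ)} {P B₀ B : ℕ → Matrix (Fin d) (Fin d) ℂ}
    {m₀ M₀ M₁ K δ : ℝ} (m : ℕ)
    (h : ∀ i < m, StepH (N i) (N (i + 1)) (P i) (P (i + 1)) (B₀ i) (B i) m₀ M₀ M₁ K δ)
    (hm₀ : 0 < m₀) (hM₀ : 0 ≤ M₀) (hM₁ : 0 ≤ M₁) (hδ0 : 0 ≤ δ) (hK : 0 ≤ K)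
    (hδ : 16 * (M₀ * (1 + M₁) * δ * K) ≤ m₀) {v x : ℕ → Fin d → ℂ}
    (hv : ∀ i < m, v (i + 1) = B i *ᵥ v i) (hx : ∀ i < m, x (i + 1) = B i *ᵥ x i)
    (hv0 : P 0 *ᵥ v 0 = v 0) (hv0' : 0 < N 0 (v 0)) (hxm : P m *ᵥ x m = 0) (hxm' : x m ≠ 0) :
    N m (x m) * N 0 (v 0) ≤
      (1 / 2) ^ m * (N m (P m *ᵥ v m) * N 0 (x 0 - P 0 *ᵥ x 0)) := by
  -- the unstable cones
  have hcu : ∀ i ≤ m, N i (v i - P i *ᵥ v i) ≤ N i (P i *ᵥ v i) ∧ 0 < N i (P i *ᵥ v i) := by
    intro i
    induction i with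
    | zero =>
      intro _
      rw [hv0, sub_self, map_zero]
      exact ⟨apply_nonneg _ _, hv0'⟩
    | succ i ih =>
      intro hi
      obtain ⟨h1, h2⟩ := ih (by omega)
      have hs := h i (by omega)
      have h3 := hs.cone hm₀ hM₀ hM₁ hδ0 hK hδ h1
      obtain ⟨h4, -⟩ := hs.unst hm₀ hM₀ hM₁ hδ0 hK hδ h1
      rw [hv i (by omega)]
      have h5 := hs.low (P i *ᵥ v i)
      have h6 : 0 < N (i + 1) (B₀ i *ᵥ (P i *ᵥ v i)) := by
        by_contra hc
        push Not at hc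
        have : K * N (i + 1) (B₀ i *ᵥ (P i *ᵥ v i)) ≤ 0 :=
          mul_nonpos_of_nonneg_of_nonpos hK hc
        linarith
      constructor <;> linarith
  -- the stable cones
  have hcs : ∀ j ≤ m, N (m - j) (P (m - j) *ᵥ x (m - j)) ≤
      N (m - j) (x (m - j) - P (m - j) *ᵥ x (m - j)) := by
    intro j
    induction j with
    | zero =>
      intro _
      rw [Nat.sub_zero, hxm, map_zero]
      exact apply_nonneg _ _
    | succ j ih =>
      intro hj
      have h1 := ih (by omega)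
      have e : m - j = (m - (j + 1)) + 1 := by omega
      rw [e, hx (m - (j + 1)) (by omega)] at h1
      exact (h (m - (j + 1)) (by omega)).cone' hm₀ hM₀ hM₁ hδ0 hK hδ h1
  have hcs' : ∀ i ≤ m, N i (P i *ᵥ x i) ≤ N i (x i - P i *ᵥ x i) := by
    intro i hi
    have := hcs (m - i) (by omega)
    rwa [show m - (m - i) = i by omega] at this
  have hxne : ∀ j ≤ m, x (m - j) ≠ 0 := by
    intro j
    induction j with
    | zero => intro _; exact hxm'
    | succ j ih =>
      intro hj h0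
      apply ih (by omega)
      have e : m - j = (m - (j + 1)) + 1 := by omega
      rw [e, hx (m - (j + 1)) (by omega), h0, Matrix.mulVec_zero]
  have hβ : ∀ i < m, 0 < N i (x i - P i *ᵥ x i) := by
    intro i hi
    have h1 := hxne (m - i) (by omega)
    rw [show m - (m - i) = i by omega] at h1
    have h2 := (h i hi).norm_le (x i)
    have h3 := hcs' i hi.le
    have h4 : 0 < m₀ * ‖x i‖ := mul_pos hm₀ (norm_pos_iff.2 h1)
    linarith
  have key : ∀ i ≤ m, N i (x i - P i *ᵥ x i) * N 0 (v 0) ≤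
      (1 / 2) ^ i * (N i (P i *ᵥ v i) * N 0 (x 0 - P 0 *ᵥ x 0)) := by
    intro i
    induction i with
    | zero =>
      intro _
      rw [hv0, pow_zero, one_mul, mul_comm]
    | succ i ih =>
      intro hi
      have h1 := ih (by omega)
      have h2 := (h i (by omega)).growth hm₀ hM₀ hM₁ hδ0 hK hδ (hcu i (by omega)).1 (x := x i) (by
        have := hcs' (i + 1) hi
        rwa [hx i (by omega)] at this)
      rw [← hx i (by omega), ← hv i (by omega)] at h2
      have hα := (hcu i (by omega)).2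
      have hβ' := hβ i (by omega)
      have n1 := apply_nonneg (N (i + 1)) (x (i + 1) - P (i + 1) *ᵥ x (i + 1))
      have n2 := apply_nonneg (N (i + 1)) (P (i + 1) *ᵥ v (i + 1))
      have n3 := apply_nonneg (N 0) (v 0)
      generalize N (i + 1) (x (i + 1) - P (i + 1) *ᵥ x (i + 1)) = b' at *
      generalize N (i + 1) (P (i + 1) *ᵥ v (i + 1)) = a' at *
      generalize N i (x i - P i *ᵥ x i) = b at *
      generalize N i (P i *ᵥ v i) = a at *
      generalize N 0 (x 0 - P 0 *ᵥ x 0) = b0 at *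
      generalize N 0 (v 0) = a0 at *
      have h3 : (b' * a) * (b * a0) ≤ (1 / 2 * (a' * b)) * ((1 / 2) ^ i * (a * b0)) :=
        mul_le_mul h2 h1 (by positivity) (by positivity)
      have h4 : (b' * a0) * (a * b) ≤ ((1 / 2) ^ (i + 1) * (a' * b0)) * (a * b) := by
        calc (b' * a0) * (a * b) = (b' * a) * (b * a0) := by ring
          _ ≤ _ := h3
          _ = _ := by ring
      exact le_of_mul_le_mul_right h4 (mul_pos hα hβ')
  have h5 := key m le_rfl
  rwa [hxm, sub_zero] at h5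

end Pool.Agent.U81.SA
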