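import Pool.Agent.U81.SA.Norm

/-!
# Perturbation of a dominated splitting: one step and many steps
-/

set_option autoImplicit false

open scoped MatrixGroups Matrix

namespace Pool.Agent.U81.SA

variable {d : ℕ}

/-- The hypotheses of one step: `B₀` is the unperturbed and `B` the perturbed transition matrix. -/
structure StepH (N N' : Seminorm ℂ (Fin d → ℂ)) (P P' B₀ B : Matrix (Fin d) (Fin d) ℂ)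
    (m₀ M₀ M₁ K δ : ℝ) : Prop where
  lowN : ∀ v, m₀ * ‖v‖ ≤ N v
  upN' : ∀ v, N' v ≤ M₀ * ‖v‖
  hP : P * P = P
  hP' : mn P' ≤ M₁
  comm : P' * B₀ = B₀ * P
  dom : ∀ u w, P *ᵥ u = u → P *ᵥ w = 0 → N' (B₀ *ᵥ w) * N u ≤ 1 / 8 * (N' (B₀ *ᵥ u) * N w)
  low : ∀ u, N u ≤ K * N' (B₀ *ᵥ u)
  close : mn (B - B₀) ≤ δ

variable {N N' : Seminorm ℂ (Fin d → ℂ)} {P P' B₀ B : Matrix (Fin d) (Fin d) ℂ}
  {m₀ M₀ M₁ K δ : ℝ}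

theorem StepH.err (h : StepH N N' P P' B₀ B m₀ M₀ M₁ K δ) (hM₀ : 0 ≤ M₀) (hM₁ : 0 ≤ M₁)
    (v : Fin d → ℂ) : N' (P' *ᵥ ((B - B₀) *ᵥ v)) ≤ M₀ * (1 + M₁) * δ * ‖v‖ ∧
      N' ((B - B₀) *ᵥ v - P' *ᵥ ((B - B₀) *ᵥ v)) ≤ M₀ * (1 + M₁) * δ * ‖v‖ := by
  have h1 : ‖(B - B₀) *ᵥ v‖ ≤ δ * ‖v‖ :=
    (mn_mulVec _ _).trans (mul_le_mul_of_nonneg_right h.close (norm_nonneg _))
  have h2 : ‖P' *ᵥ ((B - B₀) *ᵥ v)‖ ≤ M₁ * ‖(B - B₀) *ᵥ v‖ :=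
    (mn_mulVec _ _).trans (mul_le_mul_of_nonneg_right h.hP' (norm_nonneg _))
  have h0 : 0 ≤ ‖(B - B₀) *ᵥ v‖ := norm_nonneg _
  constructor
  · calc N' (P' *ᵥ ((B - B₀) *ᵥ v)) ≤ M₀ * ‖P' *ᵥ ((B - B₀) *ᵥ v)‖ := h.upN' _
      _ ≤ M₀ * ((1 + M₁) * (δ * ‖v‖)) := by
        apply mul_le_mul_of_nonneg_left _ hM₀
        calc ‖P' *ᵥ ((B - B₀) *ᵥ v)‖ ≤ M₁ * ‖(B - B₀) *ᵥ v‖ := h2
          _ ≤ (1 + M₁) * ‖(B - B₀) *ᵥ v‖ := by nlinarith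
          _ ≤ _ := by gcongr
      _ = _ := by ring
  · calc N' ((B - B₀) *ᵥ v - P' *ᵥ ((B - B₀) *ᵥ v))
        ≤ M₀ * ‖(B - B₀) *ᵥ v - P' *ᵥ ((B - B₀) *ᵥ v)‖ := h.upN' _
      _ ≤ M₀ * ((1 + M₁) * (δ * ‖v‖)) := by
        apply mul_le_mul_of_nonneg_left _ hM₀
        calc ‖(B - B₀) *ᵥ v - P' *ᵥ ((B - B₀) *ᵥ v)‖
            ≤ ‖(B - B₀) *ᵥ v‖ + ‖P' *ᵥ ((B - B₀) *ᵥ v)‖ := norm_sub_le _ _
          _ ≤ (1 + M₁) * ‖(B - B₀) *ᵥ v‖ := by linarith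
          _ ≤ _ := by gcongr
      _ = _ := by ring

/-- decomposition of the image -/
theorem StepH.split (h : StepH N N' P P' B₀ B m₀ M₀ M₁ K δ) (v : Fin d → ℂ) :
    P' *ᵥ (B *ᵥ v) = B₀ *ᵥ (P *ᵥ v) + P' *ᵥ ((B - B₀) *ᵥ v) ∧
    B *ᵥ v - P' *ᵥ (B *ᵥ v) = B₀ *ᵥ (v - P *ᵥ v) + ((B - B₀) *ᵥ v - P' *ᵥ ((B - B₀) *ᵥ v)) := by
  have e1 : B *ᵥ v = B₀ *ᵥ v + (B - B₀) *ᵥ v := by rw [Matrix.sub_mulVec]; abel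
  have e2 : P' *ᵥ (B₀ *ᵥ v) = B₀ *ᵥ (P *ᵥ v) := by
    rw [Matrix.mulVec_mulVec, Matrix.mulVec_mulVec, h.comm]
  constructor
  · rw [e1, Matrix.mulVec_add, e2]
  · rw [Matrix.mulVec_sub]
    conv_lhs => rw [e1, Matrix.mulVec_add, e2]
    abel

theorem StepH.PP (h : StepH N N' P P' B₀ B m₀ M₀ M₁ K δ) (v : Fin d → ℂ) :
    P *ᵥ (P *ᵥ v) = P *ᵥ v ∧ P *ᵥ (v - P *ᵥ v) = 0 := by
  have : P *ᵥ (P *ᵥ v) = P *ᵥ v := by rw [Matrix.mulVec_mulVec, h.hP]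
  exact ⟨this, by rw [Matrix.mulVec_sub, this, sub_self]⟩

theorem StepH.norm_le (h : StepH N N' P P' B₀ B m₀ M₀ M₁ K δ) (v : Fin d → ℂ) :
    m₀ * ‖v‖ ≤ N (P *ᵥ v) + N (v - P *ᵥ v) := by
  refine (h.lowN v).trans ?_
  have := map_add_le_add N (P *ᵥ v) (v - P *ᵥ v)
  rwa [add_sub_cancel] at this

section

variable (h : StepH N N' P P' B₀ B m₀ M₀ M₁ K δ) (hm₀ : 0 < m₀) (hM₀ : 0 ≤ M₀) (hM₁ : 0 ≤ M₁)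
  (hδ0 : 0 ≤ δ) (hK : 0 ≤ K) (hδ : 16 * (M₀ * (1 + M₁) * δ * K) ≤ m₀)
include h hm₀ hM₀ hM₁ hδ0 hK hδ

/-- the vectors of the unstable cone -/
theorem StepH.unst {v : Fin d → ℂ} (hv : N (v - P *ᵥ v) ≤ N (P *ᵥ v)) :
    7 / 8 * N' (B₀ *ᵥ (P *ᵥ v)) ≤ N' (P' *ᵥ (B *ᵥ v)) ∧
    N' (B *ᵥ v - P' *ᵥ (B *ᵥ v)) ≤ 1 / 4 * N' (B₀ *ᵥ (P *ᵥ v)) := by
  obtain ⟨e1, e2⟩ := h.err hM₀ hM₁ v
  obtain ⟨s1, s2⟩ := h.split v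
  obtain ⟨p1, p2⟩ := h.PP v
  have hE : M₀ * (1 + M₁) * δ * ‖v‖ ≤ 1 / 8 * N' (B₀ *ᵥ (P *ᵥ v)) := by
    have h1 : m₀ * ‖v‖ ≤ 2 * (K * N' (B₀ *ᵥ (P *ᵥ v))) := by
      have := h.norm_le v
      have := h.low (P *ᵥ v)
      linarith
    have hE0 : 0 ≤ M₀ * (1 + M₁) * δ := by positivity
    have h2 : m₀ * (M₀ * (1 + M₁) * δ * ‖v‖) ≤ m₀ * (1 / 8 * N' (B₀ *ᵥ (P *ᵥ v))) := by
      calc m₀ * (M₀ * (1 + M₁) * δ * ‖v‖) = (M₀ * (1 + M₁) * δ) * (m₀ * ‖v‖) := by ring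
        _ ≤ (M₀ * (1 + M₁) * δ) * (2 * (K * N' (B₀ *ᵥ (P *ᵥ v)))) := by gcongr
        _ = (16 * (M₀ * (1 + M₁) * δ * K)) * (1 / 8 * N' (B₀ *ᵥ (P *ᵥ v))) := by ring
        _ ≤ m₀ * (1 / 8 * N' (B₀ *ᵥ (P *ᵥ v))) := by
          apply mul_le_mul_of_nonneg_right hδ
          have := apply_nonneg N' (B₀ *ᵥ (P *ᵥ v))
          positivity
    exact le_of_mul_le_mul_left h2 hm₀
  constructor
  · rw [s1]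
    have h3 : N' (B₀ *ᵥ (P *ᵥ v)) ≤
        N' (B₀ *ᵥ (P *ᵥ v) + P' *ᵥ ((B - B₀) *ᵥ v)) + N' (P' *ᵥ ((B - B₀) *ᵥ v)) := by
      have := map_sub_le_add N' (B₀ *ᵥ (P *ᵥ v) + P' *ᵥ ((B - B₀) *ᵥ v)) (P' *ᵥ ((B - B₀) *ᵥ v))
      rwa [add_sub_cancel_right] at this
    linarith
  · rw [s2]
    refine (map_add_le_add N' _ _).trans ?_
    have h4 : N' (B₀ *ᵥ (v - P *ᵥ v)) ≤ 1 / 8 * N' (B₀ *ᵥ (P *ᵥ v)) := by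
      have h5 := h.dom (P *ᵥ v) (v - P *ᵥ v) p1 p2
      have h6 : 1 / 8 * (N' (B₀ *ᵥ (P *ᵥ v)) * N (v - P *ᵥ v)) ≤
          1 / 8 * N' (B₀ *ᵥ (P *ᵥ v)) * N (P *ᵥ v) := by
        have := apply_nonneg N' (B₀ *ᵥ (P *ᵥ v))
        nlinarith
      rcases (apply_nonneg N (P *ᵥ v)).eq_or_lt with h0 | h0
      · have h7 : v = 0 := by
          have := h.norm_le v
          have h8 : m₀ * ‖v‖ ≤ 0 := by linarith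
          have h9 : ‖v‖ ≤ 0 := by
            by_contra hc
            push Not at hc
            nlinarith
          exact norm_le_zero_iff.1 h9
        subst h7
        simp
      · exact le_of_mul_le_mul_right (h5.trans h6) h0
    linarith

/-- forward invariance of the unstable cone -/
theorem StepH.cone {v : Fin d → ℂ} (hv : N (v - P *ᵥ v) ≤ N (P *ᵥ v)) :
    N' (B *ᵥ v - P' *ᵥ (B *ᵥ v)) ≤ 1 / 2 * N' (P' *ᵥ (B *ᵥ v)) := by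
  obtain ⟨h1, h2⟩ := h.unst hm₀ hM₀ hM₁ hδ0 hK hδ hv
  have := apply_nonneg N' (B₀ *ᵥ (P *ᵥ v))
  linarith

/-- backward invariance of the stable cone -/
theorem StepH.cone' {x : Fin d → ℂ}
    (hx : N' (P' *ᵥ (B *ᵥ x)) ≤ N' (B *ᵥ x - P' *ᵥ (B *ᵥ x))) :
    N (P *ᵥ x) ≤ N (x - P *ᵥ x) := by
  by_contra hcon
  push Not at hcon
  obtain ⟨h1, h2⟩ := h.unst hm₀ hM₀ hM₁ hδ0 hK hδ hcon.le
  have h3 : 0 < N (P *ᵥ x) := lt_of_le_of_lt (apply_nonneg _ _) hcon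
  have h4 := h.low (P *ᵥ x)
  have h5 : 0 < N' (B₀ *ᵥ (P *ᵥ x)) := by
    by_contra hc
    push Not at hc
    have : K * N' (B₀ *ᵥ (P *ᵥ x)) ≤ 0 := mul_nonpos_of_nonneg_of_nonpos hK hc
    linarith
  linarith

/-- the relative growth -/
theorem StepH.growth {v x : Fin d → ℂ} (hv : N (v - P *ᵥ v) ≤ N (P *ᵥ v))
    (hx : N' (P' *ᵥ (B *ᵥ x)) ≤ N' (B *ᵥ x - P' *ᵥ (B *ᵥ x))) :
    N' (B *ᵥ x - P' *ᵥ (B *ᵥ x)) * N (P *ᵥ v) ≤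
      1 / 2 * (N' (P' *ᵥ (B *ᵥ v)) * N (x - P *ᵥ x)) := by
  have hx' := h.cone' hm₀ hM₀ hM₁ hδ0 hK hδ hx
  obtain ⟨u1, -⟩ := h.unst hm₀ hM₀ hM₁ hδ0 hK hδ hv
  obtain ⟨e1, e2⟩ := h.err hM₀ hM₁ x
  obtain ⟨s1, s2⟩ := h.split x
  obtain ⟨p1, p2⟩ := h.PP x
  obtain ⟨p3, p4⟩ := h.PP v
  have hE : M₀ * (1 + M₁) * δ * ‖x‖ ≤ 1 / 8 * N' (B₀ *ᵥ (x - P *ᵥ x)) := by
    have h1 : m₀ * ‖x‖ ≤ 2 * (K * N' (B₀ *ᵥ (x - P *ᵥ x))) := by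
      have := h.norm_le x
      have := h.low (x - P *ᵥ x)
      linarith
    have hE0 : 0 ≤ M₀ * (1 + M₁) * δ := by positivity
    have h2 : m₀ * (M₀ * (1 + M₁) * δ * ‖x‖) ≤ m₀ * (1 / 8 * N' (B₀ *ᵥ (x - P *ᵥ x))) := by
      calc m₀ * (M₀ * (1 + M₁) * δ * ‖x‖) = (M₀ * (1 + M₁) * δ) * (m₀ * ‖x‖) := by ring
        _ ≤ (M₀ * (1 + M₁) * δ) * (2 * (K * N' (B₀ *ᵥ (x - P *ᵥ x)))) := by gcongr
        _ = (16 * (M₀ * (1 + M₁) * δ * K)) * (1 / 8 * N' (B₀ *ᵥ (x - P *ᵥ x))) := by ring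
        _ ≤ m₀ * (1 / 8 * N' (B₀ *ᵥ (x - P *ᵥ x))) := by
          apply mul_le_mul_of_nonneg_right hδ
          have := apply_nonneg N' (B₀ *ᵥ (x - P *ᵥ x))
          positivity
    exact le_of_mul_le_mul_left h2 hm₀
  have h1 : N' (B *ᵥ x - P' *ᵥ (B *ᵥ x)) ≤ 9 / 8 * N' (B₀ *ᵥ (x - P *ᵥ x)) := by
    rw [s2]
    refine (map_add_le_add N' _ _).trans ?_
    linarith
  have h2 := h.dom (P *ᵥ v) (x - P *ᵥ x) p3 p2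
  have n1 := apply_nonneg N (P *ᵥ v)
  have n2 := apply_nonneg N (x - P *ᵥ x)
  have n3 := apply_nonneg N' (B₀ *ᵥ (P *ᵥ v))
  calc N' (B *ᵥ x - P' *ᵥ (B *ᵥ x)) * N (P *ᵥ v)
      ≤ 9 / 8 * N' (B₀ *ᵥ (x - P *ᵥ x)) * N (P *ᵥ v) := by gcongr
    _ = 9 / 8 * (N' (B₀ *ᵥ (x - P *ᵥ x)) * N (P *ᵥ v)) := by ring
    _ ≤ 9 / 8 * (1 / 8 * (N' (B₀ *ᵥ (P *ᵥ v)) * N (x - P *ᵥ x))) := by gcongr
    _ ≤ 1 / 2 * ((7 / 8 * N' (B₀ *ᵥ (P *ᵥ v))) * N (x - P *ᵥ x)) := by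
      have := mul_nonneg n3 n2
      nlinarith
    _ ≤ _ := by gcongr

end

end Pool.Agent.U81.SA
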