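import Pool.Agent.U81.SA.NonA

/-!
# The witnesses
-/

set_option autoImplicit false

open scoped MatrixGroups UpperHalfPlane Matrix Topology ComplexConjugate
open UpperHalfPlane Pool.Agent.Y473.SA Filter

namespace Pool.Agent.U81.SA

variable {Γ : Subgroup SL(2, ℝ)} {p m d : ℕ} (e : (Fin 2 × Fin p) ⊕ Fin m ≃ Fin d)

/-- the absolute values of the eigenvalues -/
noncomputable def mu (s : ℝ) : (Fin 2 × Fin p) ⊕ Fin m → ℝ :=
  Sum.elim (fun x => if x.1 = 0 then s⁻¹ else s) fun _ => 1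

/-- the eigenvalues -/
noncomputable def ev (s : ℂ) : (Fin 2 × Fin p) ⊕ Fin m → ℂ :=
  Sum.elim (fun x => if x.1 = 0 then s⁻¹ else s) fun _ => 1

theorem norm_ev (s : ℂ) (x : (Fin 2 × Fin p) ⊕ Fin m) : ‖ev s x‖ = mu ‖s‖ x := by
  rcases x with ⟨i, k⟩ | j
  · simp only [ev, mu, Sum.elim_inl]
    split_ifs
    · exact norm_inv _
    · rfl
  · simp [ev, mu]

/-- the class of the representation -/
noncomputable def fcls (hΓ : IsClosedSurface Γ) : CharVar Γ d := cls ⟨fuchs e Γ, fuchs_cr e hΓ⟩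

theorem fcls_mem (hΓ : IsClosedSurface Γ) : fcls e hΓ ∈ simpleAnosovDomain Γ d p :=
  ⟨_, fuchs_simple e, rfl⟩

theorem bm_diag (s : ℂ) (g : SL(2, ℝ)) (h00 : ((g 0 0 : ℝ) : ℂ) = s⁻¹) (h11 : ((g 1 1 : ℝ) : ℂ) = s)
    (h01 : g 0 1 = 0) (h10 : g 1 0 = 0) :
    bm e (cm g, 1) = Matrix.diagonal fun i => ev s (e.symm i) := by
  apply Matrix.toLin'.injective
  apply LinearMap.ext
  intro v
  rw [Matrix.toLin'_apply, Matrix.toLin'_apply]
  refine ext_e e (fun i k => ?_) (fun j => ?_)
  · rw [bm_inl, Matrix.mulVec_diagonal, Equiv.symm_apply_apply]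
    obtain ⟨q0, q1⟩ := cm_mulVec g fun j => v (e (Sum.inl (j, k)))
    fin_cases i
    · simp only [Fin.zero_eta, ev, Sum.elim_inl, if_true]
      rw [q0, h00, h01]
      simp
    · simp only [Fin.mk_one, ev, Sum.elim_inl]
      rw [q1, h11, h10]
      simp
  · rw [bm_inr, Matrix.mulVec_diagonal, Equiv.symm_apply_apply]
    rfl

theorem fcls_not (hΓ : IsClosedSurface Γ) : ∃ s : ℝ, 1 < s ∧ ∀ (k : ℕ) (r : ℝ), 0 < r →
    (Finset.univ.filter fun i : Fin d => r < mu s (e.symm i)).card < k →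
    (Finset.univ.filter fun i : Fin d => mu s (e.symm i) < r).card + k < d →
    fcls e hΓ ∉ simpleAnosovDomain Γ d k := by
  obtain ⟨g, c, l, hc, hg⟩ := hΓ.exists_simple hΓ.exists_ne_one
  obtain ⟨q, rfl⟩ := exists_geod c
  obtain ⟨lam, h1, h00, h11, h01, h10⟩ := diag_of_axis hg
  have hl : 0 < l := hc.1
  have hlam : 1 < |lam| := by
    rw [← one_lt_sq_iff₀ (abs_nonneg _), sq_abs, h1]
    exact Real.one_lt_exp_iff.2 hl
  have hlam0 : lam ≠ 0 := by
    rintro rfl
    rw [abs_zero] at hlam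
    linarith
  refine ⟨|lam|, hlam, fun k r hr hk1 hk2 hmem => ?_⟩
  obtain ⟨ρ', hρ', hcl⟩ := hmem
  obtain ⟨f, hf⟩ := cls_eq.1 hcl
  set D : SL(2, ℝ) := q⁻¹ * (g : SL(2, ℝ))⁻¹ * q with hD
  have hDinv : D = (q⁻¹ * g * q)⁻¹ := by rw [hD]; group
  obtain ⟨d1, d2, d3, d4⟩ := sl_inv_apply (q⁻¹ * g * q)
  rw [← hDinv] at d1 d2 d3 d4
  have hdiag : bm e (cm D, 1) = Matrix.diagonal fun i => ev (lam : ℂ) (e.symm i) := by
    apply bm_diag
    · rw [d1, h11]; push_cast; rfl
    · rw [d4, h00]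
    · rw [d2, h01, neg_zero]
    · rw [d3, h10, neg_zero]
  have hff : (f⁻¹).1 * f.1 = 1 := by
    have : f⁻¹ * f = 1 := inv_mul_cancel f
    exact congrArg Subtype.val this
  have hff' : f.1 * (f⁻¹).1 = 1 := by
    have : f * f⁻¹ = 1 := mul_inv_cancel f
    exact congrArg Subtype.val this
  refine not_anosov (F := bm e (cm q⁻¹, 1) * f.1) (G := (f⁻¹).1 * bm e (cm q, 1))
    (μ := fun i => ev (lam : ℂ) (e.symm i)) hc hg ?_ ?_ hr ?_ ?_ hρ'
  · calc (f⁻¹).1 * bm e (cm q, 1) * (bm e (cm q⁻¹, 1) * f.1)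
        = (f⁻¹).1 * (bm e (cm q, 1) * bm e (cm q⁻¹, 1)) * f.1 := by noncomm_ring
      _ = (f⁻¹).1 * f.1 := by
          rw [← bm_mul, Prod.mk_mul_mk, cm_mul_inv, mul_one]
          change _ * bm e 1 * _ = _
          rw [bm_one, mul_one]
      _ = 1 := hff
  · have hρ : (ρ'.1.1 g⁻¹).1 = (f⁻¹).1 * bm e (cm (g : SL(2, ℝ))⁻¹, 1) * f.1 := by
      have h2 := hf g⁻¹
      have h3 : ρ'.1.1 g⁻¹ = f⁻¹ * (fuchs e Γ).1 g⁻¹ * f := by
        have h4 : (fuchs e Γ).1 g⁻¹ = f * ρ'.1.1 g⁻¹ * f⁻¹ := h2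
        rw [h4]; group
      rw [h3]
      rfl
    rw [hρ, ← hdiag]
    calc bm e (cm q⁻¹, 1) * f.1 * ((f⁻¹).1 * bm e (cm (g : SL(2, ℝ))⁻¹, 1) * f.1)
        = bm e (cm q⁻¹, 1) * (f.1 * (f⁻¹).1) * bm e (cm (g : SL(2, ℝ))⁻¹, 1) * f.1 := by noncomm_ring
      _ = bm e (cm q⁻¹, 1) * bm e (cm (g : SL(2, ℝ))⁻¹, 1) * f.1 := by rw [hff', mul_one]
      _ = bm e (cm D, 1) * bm e (cm q⁻¹, 1) * f.1 := by
          rw [← bm_mul, ← bm_mul, Prod.mk_mul_mk, Prod.mk_mul_mk, ← cm_mul, ← cm_mul, hD]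
          congr 4
          group
      _ = _ := by noncomm_ring
  · simp only [norm_ev, Complex.norm_real, Real.norm_eq_abs]
    exact hk1
  · simp only [norm_ev, Complex.norm_real, Real.norm_eq_abs]
    exact hk2

theorem mu_le {s : ℝ} (hs : 1 < s) (x : (Fin 2 × Fin p) ⊕ Fin m) : mu s x ≤ s := by
  have h1 : s⁻¹ < 1 := inv_lt_one_of_one_lt₀ hs
  rcases x with ⟨i, k⟩ | j
  · simp only [mu, Sum.elim_inl]
    split_ifs <;> linarith
  · simp only [mu, Sum.elim_inr]
    linarith

theorem le_mu {s : ℝ} (hs : 1 < s) (x : (Fin 2 × Fin p) ⊕ Fin m) : s⁻¹ ≤ mu s x := by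
  have h1 : s⁻¹ < 1 := inv_lt_one_of_one_lt₀ hs
  rcases x with ⟨i, k⟩ | j
  · simp only [mu, Sum.elim_inl]
    split_ifs <;> linarith
  · simp only [mu, Sum.elim_inr]
    linarith

/-- one copy and trivial representations -/
theorem strict_mid (hΓ : IsClosedSurface Γ) {k : ℕ} (h1 : 2 ≤ k) (h2 : k + 2 ≤ d) :
    ∃ x ∈ bigU Γ d, x ∉ simpleAnosovDomain Γ d k := by
  obtain ⟨m, rfl⟩ : ∃ m, d = m + 2 := ⟨d - 2, by omega⟩
  have hcard : Fintype.card ((Fin 2 × Fin 1) ⊕ Fin m) = m + 2 := by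
    simp [Fintype.card_sum, Fintype.card_prod]; omega
  let e := Fintype.equivFinOfCardEq hcard
  obtain ⟨s, hs, h⟩ := fcls_not e hΓ
  have hs1 : s⁻¹ < 1 := inv_lt_one_of_one_lt₀ hs
  refine ⟨fcls e hΓ, simple_subset hΓ (le_refl 1) (by omega) (fcls_mem e hΓ), ?_⟩
  refine h k 1 one_pos ?_ ?_
  · have hsub : (Finset.univ.filter fun i : Fin (m + 2) => 1 < mu s (e.symm i)) ⊆
        {e (Sum.inl (1, 0))} := by
      intro i hi
      rw [Finset.mem_filter] at hi
      obtain ⟨x, rfl⟩ := e.surjective i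
      rw [Equiv.symm_apply_apply] at hi
      rw [Finset.mem_singleton]
      congr 1
      rcases x with ⟨a, b⟩ | j
      · fin_cases a
        · exfalso
          have := hi.2
          simp only [mu, Sum.elim_inl, Fin.zero_eta, if_true] at this
          linarith
        · congr 2
          exact Subsingleton.elim _ _
      · exfalso
        have := hi.2
        simp only [mu, Sum.elim_inr] at this
        linarith
    have := Finset.card_le_card hsub
    rw [Finset.card_singleton] at this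
    omega
  · have hsub : (Finset.univ.filter fun i : Fin (m + 2) => mu s (e.symm i) < 1) ⊆
        {e (Sum.inl (0, 0))} := by
      intro i hi
      rw [Finset.mem_filter] at hi
      obtain ⟨x, rfl⟩ := e.surjective i
      rw [Equiv.symm_apply_apply] at hi
      rw [Finset.mem_singleton]
      congr 1
      rcases x with ⟨a, b⟩ | j
      · fin_cases a
        · congr 2
          exact Subsingleton.elim _ _
        · exfalso
          have := hi.2
          simp only [mu, Sum.elim_inl, Fin.mk_one, one_ne_zero, if_false] at this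
          linarith
      · exfalso
        have := hi.2
        simp only [mu, Sum.elim_inr] at this
        linarith
    have := Finset.card_le_card hsub
    rw [Finset.card_singleton] at this
    omega

/-- two copies and trivial representations -/
theorem strict_end (hΓ : IsClosedSurface Γ) (hd : 4 ≤ d) {k : ℕ} (hk : k = 1 ∨ k + 1 = d) :
    ∃ x ∈ bigU Γ d, x ∉ simpleAnosovDomain Γ d k := by
  obtain ⟨m, rfl⟩ : ∃ m, d = m + 4 := ⟨d - 4, by omega⟩
  have hcard : Fintype.card ((Fin 2 × Fin 2) ⊕ Fin m) = m + 4 := by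
    simp [Fintype.card_sum, Fintype.card_prod]; omega
  let e := Fintype.equivFinOfCardEq hcard
  obtain ⟨s, hs, h⟩ := fcls_not e hΓ
  have hs0 : 0 < s := by linarith
  have hs1 : s⁻¹ < 1 := inv_lt_one_of_one_lt₀ hs
  refine ⟨fcls e hΓ, simple_subset hΓ (by norm_num : 1 ≤ 2) (by omega) (fcls_mem e hΓ), ?_⟩
  have hpair : ∀ a : Fin 2, ({e (Sum.inl (a, 0)), e (Sum.inl (a, 1))} : Finset (Fin (m + 4))).card = 2 := by
    intro a
    refine Finset.card_pair fun h => ?_
    have := Sum.inl_injective (e.injective h)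
    rw [Prod.mk.injEq] at this
    exact absurd this.2 (by decide)
  have hcompl : ∀ a : Fin 2,
      (({e (Sum.inl (a, 0)), e (Sum.inl (a, 1))} : Finset (Fin (m + 4)))ᶜ).card = m + 2 := by
    intro a
    rw [Finset.card_compl, hpair, Fintype.card_fin]
    omega
  rcases hk with rfl | hk
  · refine h 1 s hs0 ?_ ?_
    · have : (Finset.univ.filter fun i : Fin (m + 4) => s < mu s (e.symm i)) = ∅ := by
        rw [Finset.filter_eq_empty_iff]
        intro i _
        exact not_lt.2 (mu_le hs _)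
      rw [this, Finset.card_empty]
      exact one_pos
    · have hsub : (Finset.univ.filter fun i : Fin (m + 4) => mu s (e.symm i) < s) ⊆
          ({e (Sum.inl (1, 0)), e (Sum.inl (1, 1))} : Finset (Fin (m + 4)))ᶜ := by
        intro i hi
        rw [Finset.mem_filter] at hi
        rw [Finset.mem_compl]
        intro hmem
        apply (lt_irrefl s)
        have h2 := hi.2
        rw [Finset.mem_insert, Finset.mem_singleton] at hmem
        rcases hmem with rfl | rfl <;>
          simpa [mu, Equiv.symm_apply_apply] using h2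
      have := Finset.card_le_card hsub
      rw [hcompl] at this
      omega
  · refine h k s⁻¹ (inv_pos.2 hs0) ?_ ?_
    · have hsub : (Finset.univ.filter fun i : Fin (m + 4) => s⁻¹ < mu s (e.symm i)) ⊆
          ({e (Sum.inl (0, 0)), e (Sum.inl (0, 1))} : Finset (Fin (m + 4)))ᶜ := by
        intro i hi
        rw [Finset.mem_filter] at hi
        rw [Finset.mem_compl]
        intro hmem
        apply (lt_irrefl s⁻¹)
        have h2 := hi.2
        rw [Finset.mem_insert, Finset.mem_singleton] at hmem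
        rcases hmem with rfl | rfl <;>
          simpa [mu, Equiv.symm_apply_apply] using h2
      have := Finset.card_le_card hsub
      rw [hcompl] at this
      omega
    · have : (Finset.univ.filter fun i : Fin (m + 4) => mu s (e.symm i) < s⁻¹) = ∅ := by
        rw [Finset.filter_eq_empty_iff]
        intro i _
        exact not_lt.2 (le_mu hs _)
      rw [this, Finset.card_empty]
      omega

end Pool.Agent.U81.SA
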